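import Pool.Agent.Lib.MP_79b5eb_lc.M2.Lam

/-!
The algebra of generic `2 × 2`-matrices: the conductor of the trace ring.
-/

set_option autoImplicit false

namespace Pool.Agent.Lib.MP_79b5eb_lc.M2

section ident
variable {A : Type} [CommRing A]

/-- commutator -/
def cm {R : Type*} [Ring R] (a b : R) : R := a * b - b * a

theorem id1 (a b c w : Matrix (Fin 2) (Fin 2) A) :
    w.trace • cm (cm a b) c = w * cm (cm a b) c + cm (cm a b) c * w + cm a b * cm w c +
      cm w c * cm a b := by
  ext i j
  fin_cases i <;> fin_cases j <;>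
    simp [cm, Matrix.mul_apply, Matrix.trace, Fin.sum_univ_two] <;> ring

theorem id2 (a b w : Matrix (Fin 2) (Fin 2) A) :
    w.trace • cm a b + a.trace • cm w b = cm (w * a + a * w) b := by
  ext i j
  fin_cases i <;> fin_cases j <;>
    simp [cm, Matrix.mul_apply, Matrix.trace, Fin.sum_univ_two] <;> ring

theorem id3 (a b c d : Matrix (Fin 2) (Fin 2) A) :
    cm a b * cm c d + cm c d * cm a b - cm a c * cm b d - cm b d * cm a c
      + cm a d * cm b c + cm b c * cm a d = 0 := by
  ext i j
  fin_cases i <;> fin_cases j <;>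
    simp [cm, Matrix.mul_apply, Fin.sum_univ_two] <;> ring

theorem idCH (a b : Matrix (Fin 2) (Fin 2) A) :
    a * b + b * a = a.trace • b + b.trace • a +
      ((a * b).trace - a.trace * b.trace) • (1 : Matrix (Fin 2) (Fin 2) A) := by
  ext i j
  fin_cases i <;> fin_cases j <;>
    simp [Matrix.mul_apply, Matrix.trace, Fin.sum_univ_two] <;> ring

end ident

/-- The algebra of the first `m` generic matrices. -/
noncomputable def RR (m : ℕ) : Submodule ℚ MM :=
  Submodule.span ℚ {z | ∃ w : List ℕ, (∀ i ∈ w, i < m) ∧ z = gval w}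

theorem gval_append (w w' : List ℕ) : gval (w ++ w') = gval w * gval w' := by
  simp [gval]

theorem one_mem_RR (m : ℕ) : (1 : MM) ∈ RR m :=
  Submodule.subset_span ⟨[], by simp, by simp [gval]⟩

theorem gX_mem_RR {m i : ℕ} (h : i < m) : gX i ∈ RR m :=
  Submodule.subset_span ⟨[i], by simpa using h, by simp [gval]⟩

theorem mul_mem_RR {m : ℕ} {a b : MM} (ha : a ∈ RR m) (hb : b ∈ RR m) : a * b ∈ RR m := by
  induction ha using Submodule.span_induction with
  | mem x hx =>
    obtain ⟨w, hw, rfl⟩ := hx
    induction hb using Submodule.span_induction with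
    | mem y hy =>
      obtain ⟨w', hw', rfl⟩ := hy
      refine Submodule.subset_span ⟨w ++ w', ?_, (gval_append _ _).symm⟩
      intro i hi
      rcases List.mem_append.1 hi with h | h
      · exact hw i h
      · exact hw' i h
    | zero => rw [mul_zero]; exact Submodule.zero_mem _
    | add x y _ _ hx hy => rw [mul_add]; exact Submodule.add_mem _ hx hy
    | smul a x _ hx => rw [mul_smul_comm]; exact Submodule.smul_mem _ _ hx
  | zero => rw [zero_mul]; exact Submodule.zero_mem _
  | add x y _ _ hx hy => rw [add_mul]; exact Submodule.add_mem _ hx hy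
  | smul a x _ hx => rw [smul_mul_assoc]; exact Submodule.smul_mem _ _ hx

theorem cm_mem_RR {m : ℕ} {a b : MM} (ha : a ∈ RR m) (hb : b ∈ RR m) : cm a b ∈ RR m :=
  Submodule.sub_mem _ (mul_mem_RR ha hb) (mul_mem_RR hb ha)

/-- Generators of the conductor. -/
def KK (m : ℕ) : Set MM :=
  {z | (∃ a ∈ RR m, ∃ b ∈ RR m, ∃ c ∈ RR m, z = cm (cm a b) c) ∨
    (∃ a ∈ RR m, ∃ b ∈ RR m, ∃ c ∈ RR m, ∃ d ∈ RR m, z = cm a b * cm c d)}

/-- The conductor. -/
noncomputable def DD (m : ℕ) : Submodule ℚ MM :=
  Submodule.span ℚ {z | ∃ x ∈ RR m, ∃ y ∈ RR m, ∃ k ∈ KK m, z = x * k * y}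

theorem KK_sub_DD {m : ℕ} {k : MM} (h : k ∈ KK m) : k ∈ DD m :=
  Submodule.subset_span ⟨1, one_mem_RR m, 1, one_mem_RR m, k, h, by simp⟩

theorem RR_mul_DD {m : ℕ} {x d : MM} (hx : x ∈ RR m) (hd : d ∈ DD m) : x * d ∈ DD m := by
  induction hd using Submodule.span_induction with
  | mem y hy =>
    obtain ⟨a, ha, b, hb, k, hk, rfl⟩ := hy
    exact Submodule.subset_span ⟨x * a, mul_mem_RR hx ha, b, hb, k, hk, by
      simp only [Matrix.mul_assoc]⟩
  | zero => rw [mul_zero]; exact Submodule.zero_mem _
  | add x y _ _ hx hy => rw [mul_add]; exact Submodule.add_mem _ hx hy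
  | smul a x _ hx => rw [mul_smul_comm]; exact Submodule.smul_mem _ _ hx

theorem DD_mul_RR {m : ℕ} {x d : MM} (hx : x ∈ RR m) (hd : d ∈ DD m) : d * x ∈ DD m := by
  induction hd using Submodule.span_induction with
  | mem y hy =>
    obtain ⟨a, ha, b, hb, k, hk, rfl⟩ := hy
    exact Submodule.subset_span ⟨a, ha, b * x, mul_mem_RR hb hx, k, hk, by
      simp only [Matrix.mul_assoc]⟩
  | zero => rw [zero_mul]; exact Submodule.zero_mem _
  | add x y _ _ hx hy => rw [add_mul]; exact Submodule.add_mem _ hx hy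
  | smul a x _ hx => rw [smul_mul_assoc]; exact Submodule.smul_mem _ _ hx

theorem cc_mem_DD {m : ℕ} {a b c d : MM} (ha : a ∈ RR m) (hb : b ∈ RR m) (hc : c ∈ RR m)
    (hd : d ∈ RR m) : cm a b * cm c d ∈ DD m :=
  KK_sub_DD (Or.inr ⟨a, ha, b, hb, c, hc, d, hd, rfl⟩)

theorem ccc_mem_DD {m : ℕ} {a b c : MM} (ha : a ∈ RR m) (hb : b ∈ RR m) (hc : c ∈ RR m) :
    cm (cm a b) c ∈ DD m :=
  KK_sub_DD (Or.inl ⟨a, ha, b, hb, c, hc, rfl⟩)

theorem tr_cc_mem {m : ℕ} {a b c d w : MM} (hw : w ∈ RR m) (ha : a ∈ RR m) (hb : b ∈ RR m)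
    (hc : c ∈ RR m) (hd : d ∈ RR m) : w.trace • (cm a b * cm c d) ∈ DD m := by
  -- f w a b c d
  set f : MM → MM → MM → MM → MM → MM := fun w a b c d => w.trace • (cm a b * cm c d) with hf
  have r1 : ∀ {w a b c d : MM}, w ∈ RR m → a ∈ RR m → b ∈ RR m → c ∈ RR m → d ∈ RR m →
      f w a b c d + f a w b c d ∈ DD m := by
    intro w a b c d hw ha hb hc hd
    have : f w a b c d + f a w b c d = cm (w * a + a * w) b * cm c d := by
      rw [← id2, add_mul, smul_mul_assoc, smul_mul_assoc]
    rw [this]
    exact cc_mem_DD (Submodule.add_mem _ (mul_mem_RR hw ha) (mul_mem_RR ha hw)) hb hc hd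
  have r2 : ∀ {w a b c d : MM}, w ∈ RR m → a ∈ RR m → b ∈ RR m → c ∈ RR m → d ∈ RR m →
      f w a b c d + f c a b w d ∈ DD m := by
    intro w a b c d hw ha hb hc hd
    have : f w a b c d + f c a b w d = cm a b * cm (w * c + c * w) d := by
      rw [← id2, mul_add, mul_smul_comm, mul_smul_comm]
    rw [this]
    exact cc_mem_DD ha hb (Submodule.add_mem _ (mul_mem_RR hw hc) (mul_mem_RR hc hw)) hd
  have cmn : ∀ a b : MM, cm a b = - cm b a := fun a b => by simp [cm]
  have e1 : ∀ w a b c d : MM, f w b a c d = - f w a b c d := by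
    intro w a b c d
    simp only [hf]
    rw [cmn b a, neg_mul, smul_neg]
  have e2 : ∀ w a b c d : MM, f w a b d c = - f w a b c d := by
    intro w a b c d
    simp only [hf]
    rw [cmn d c, mul_neg, smul_neg]
  -- the middle transposition
  have mid : ∀ {a b c d : MM}, a ∈ RR m → b ∈ RR m → c ∈ RR m → d ∈ RR m →
      f w a b c d + f w a c b d ∈ DD m := by
    intro a b c d ha hb hc hd
    -- f w b a c d + f b w a c d ∈ D ; f b w a c d + f c w a b d ∈ D ; f w c a b d + f c w a b d ∈ D
    have h1 := r1 hw hb ha hc hd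
    have h2 := r2 hb hw ha hc hd
    have h3 := r1 hw hc ha hb hd
    have h4 := Submodule.sub_mem _ (Submodule.sub_mem _ h1 h2) (Submodule.neg_mem _ h3)
    have e : f w b a c d + f b w a c d - (f b w a c d + f c w a b d) - -(f w c a b d + f c w a b d)
        = -(f w a b c d + f w a c b d) := by
      rw [e1 w a b c d, e1 w a c b d]; abel
    rw [e] at h4
    simpa using Submodule.neg_mem _ h4
  have hs4 : f w a b c d + f w c d a b - f w a c b d - f w b d a c + f w a d b c + f w b c a d
      = 0 := by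
    simp only [hf]
    rw [← smul_add, ← smul_sub, ← smul_sub, ← smul_add, ← smul_add, id3, smul_zero]
  -- six terms
  have t2 : f w c d a b - f w a b c d ∈ DD m := by
    have h1 := mid hc hd ha hb
    have h2 := mid ha hc hb hd
    have := Submodule.sub_mem _ h1 h2
    have e : f w c d a b + f w c a d b - (f w a c b d + f w a b c d)
        = f w c d a b - f w a b c d := by
      rw [e1 w a c d b, e2 w a c b d]; abel
    rwa [e] at this
  have t3 := mid ha hc hb hd
  have t4 : f w b d a c + f w a b c d ∈ DD m := by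
    have h1 := mid hb hd ha hc
    have e : f w b d a c + f w b a d c = f w b d a c + f w a b c d := by
      rw [e1 w a b d c, e2 w a b c d]; abel
    rwa [e] at h1
  have t5 : f w a d b c - f w a b c d ∈ DD m := by
    have h1 := mid ha hd hb hc
    have e : f w a d b c + f w a b d c = f w a d b c - f w a b c d := by
      rw [e2 w a b c d]; abel
    rwa [e] at h1
  have t6 : f w b c a d - f w a b c d ∈ DD m := by
    have h1 := mid hb hc ha hd
    have e : f w b c a d + f w b a c d = f w b c a d - f w a b c d := by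
      rw [e1 w a b c d]; abel
    rwa [e] at h1
  change f w a b c d ∈ DD m
  clear_value f
  have h6 : (6 : ℚ) • f w a b c d ∈ DD m := by
    have h := Submodule.add_mem _ (Submodule.add_mem _ (Submodule.sub_mem _
      (Submodule.sub_mem _ t2 t3) t4) t5) t6
    have e : f w c d a b - f w a b c d - (f w a c b d + f w a b c d) -
        (f w b d a c + f w a b c d) + (f w a d b c - f w a b c d) +
        (f w b c a d - f w a b c d) = -((6 : ℚ) • f w a b c d) := by
      have h7 : f w c d a b - f w a b c d - (f w a c b d + f w a b c d) -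
        (f w b d a c + f w a b c d) + (f w a d b c - f w a b c d) +
        (f w b c a d - f w a b c d) =
        (f w a b c d + f w c d a b - f w a c b d - f w b d a c + f w a d b c + f w b c a d)
        - (6 : ℚ) • f w a b c d := by module
      rw [h7, hs4, zero_sub]
    rw [e] at h
    simpa using Submodule.neg_mem _ h
  have := Submodule.smul_mem _ (6 : ℚ)⁻¹ h6
  rwa [smul_smul, inv_mul_cancel₀ (by norm_num), one_smul] at this

theorem tr_smul_DD {m : ℕ} {w d : MM} (hw : w ∈ RR m) (hd : d ∈ DD m) :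
    w.trace • d ∈ DD m := by
  induction hd using Submodule.span_induction with
  | mem y hy =>
    obtain ⟨x, hx, y, hy, k, hk, rfl⟩ := hy
    have h1 : w.trace • k ∈ DD m := by
      rcases hk with ⟨a, ha, b, hb, c, hc, rfl⟩ | ⟨a, ha, b, hb, c, hc, d, hd, rfl⟩
      · rw [id1]
        refine Submodule.add_mem _ (Submodule.add_mem _ (Submodule.add_mem _ ?_ ?_) ?_) ?_
        · exact RR_mul_DD hw (ccc_mem_DD ha hb hc)
        · exact DD_mul_RR hw (ccc_mem_DD ha hb hc)
        · exact cc_mem_DD ha hb hw hc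
        · exact cc_mem_DD hw hc ha hb
      · exact tr_cc_mem hw ha hb hc hd
    have h2 := DD_mul_RR hy (RR_mul_DD hx h1)
    rwa [mul_smul_comm, smul_mul_assoc] at h2
  | zero => rw [smul_zero]; exact Submodule.zero_mem _
  | add x y _ _ hx hy => rw [smul_add]; exact Submodule.add_mem _ hx hy
  | smul a x _ hx => rw [smul_comm]; exact Submodule.smul_mem _ _ hx

/-- Generators of the trace algebra. -/
noncomputable def trs (m : ℕ) : Set Om :=
  {z | ∃ i < m, z = (gX i).trace} ∪ {z | ∃ i < m, ∃ j < m, z = (gX i * gX j).trace}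

theorem trs_finite (m : ℕ) : (trs m).Finite := by
  refine Set.Finite.union ?_ ?_
  · refine ((Finset.range m).finite_toSet.image fun i => (gX i).trace).subset ?_
    rintro z ⟨i, hi, rfl⟩
    exact ⟨i, by simpa using hi, rfl⟩
  · refine (((Finset.range m) ×ˢ (Finset.range m)).finite_toSet.image
      fun p : ℕ × ℕ => (gX p.1 * gX p.2).trace).subset ?_
    rintro z ⟨i, hi, j, hj, rfl⟩
    exact ⟨(i, j), by simp [hi, hj], rfl⟩

/-- The trace algebra. -/
noncomputable def CC (m : ℕ) : Subalgebra ℚ Om := Algebra.adjoin ℚ (trs m)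

theorem CC_smul_DD {m : ℕ} {c : Om} (hc : c ∈ CC m) {d : MM} (hd : d ∈ DD m) :
    c • d ∈ DD m := by
  unfold CC at hc
  induction hc using Algebra.adjoin_induction generalizing d with
  | mem x hx =>
    rcases hx with ⟨i, hi, rfl⟩ | ⟨i, hi, j, hj, rfl⟩
    · exact tr_smul_DD (gX_mem_RR hi) hd
    · exact tr_smul_DD (mul_mem_RR (gX_mem_RR hi) (gX_mem_RR hj)) hd
  | algebraMap r =>
    rw [algebraMap_smul]
    exact Submodule.smul_mem _ _ hd
  | add x y _ _ hx hy => rw [add_smul]; exact Submodule.add_mem _ (hx hd) (hy hd)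
  | mul x y _ _ hx hy => rw [mul_smul]; exact hx (hy hd)

instance CC_noeth (m : ℕ) : IsNoetherianRing (CC m) := by
  refine isNoetherianRing_of_fg ?_
  obtain ⟨s, hs⟩ := (trs_finite m).exists_finset_coe
  exact ⟨s, by rw [hs]; rfl⟩

theorem tr1_mem {m i : ℕ} (hi : i < m) : (gX i).trace ∈ CC m :=
  Algebra.subset_adjoin (Or.inl ⟨i, hi, rfl⟩)

theorem tr2_mem {m i j : ℕ} (hi : i < m) (hj : j < m) : (gX i * gX j).trace ∈ CC m :=
  Algebra.subset_adjoin (Or.inr ⟨i, hi, j, hj, rfl⟩)

/-- right multiplication as a linear map over the trace algebra -/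
noncomputable def mulR (m : ℕ) (x : MM) : MM →ₗ[CC m] MM where
  toFun z := z * x
  map_add' := by intro a b; exact add_mul _ _ _
  map_smul' := by intro a b; exact smul_mul_assoc _ _ _

/-- `W n`: the span of the ordered squarefree products of the first `n` matrices. -/
noncomputable def WW (m : ℕ) : ℕ → Submodule (CC m) MM
  | 0 => Submodule.span _ {1}
  | n + 1 => WW m n ⊔ (WW m n).map (mulR m (gX n))

theorem WW_fg (m n : ℕ) : (WW m n).FG := by
  induction n with
  | zero => exact Submodule.fg_span (Set.finite_singleton _)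
  | succ n ih => exact ih.sup (ih.map _)

theorem CC_smul_mem {m : ℕ} (W : Submodule (CC m) MM) {c : Om} (hc : c ∈ CC m) {z : MM}
    (hz : z ∈ W) : c • z ∈ W := W.smul_mem (⟨c, hc⟩ : CC m) hz

theorem rat_mem_CC (m : ℕ) (q : ℚ) : algebraMap ℚ Om q ∈ CC m := Subalgebra.algebraMap_mem _ _

theorem WW_mul {m n : ℕ} (hn : n ≤ m) {j : ℕ} (hj : j < n) {z : MM} (hz : z ∈ WW m n) :
    z * gX j ∈ WW m n := by
  induction n generalizing j z with
  | zero => omega
  | succ n ih =>
    have hnm : n < m := by omega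
    have hle : WW m n ≤ WW m (n + 1) := le_sup_left
    have hmul : ∀ z ∈ WW m n, z * gX n ∈ WW m (n + 1) := fun z hz =>
      le_sup_right (a := WW m n) (Submodule.mem_map_of_mem (f := mulR m (gX n)) hz)
    obtain ⟨x, hx, y', hy', rfl⟩ := Submodule.mem_sup.1 hz
    obtain ⟨y, hy, rfl⟩ := Submodule.mem_map.1 hy'
    rw [add_mul]
    change x * gX j + y * gX n * gX j ∈ _
    rcases Nat.lt_succ_iff_lt_or_eq.1 hj with h | rfl
    · refine Submodule.add_mem _ (hle (ih (by omega) h hx)) ?_
      have e : y * gX n * gX j = - (y * gX j * gX n) + (gX n).trace • (y * gX j) +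
          (gX j).trace • (y * gX n) +
          ((gX n * gX j).trace - (gX n).trace * (gX j).trace) • y := by
        have h1 := congrArg (fun z => y * z) (idCH (gX n) (gX j))
        simp only [mul_add, mul_smul_comm, mul_one] at h1
        rw [Matrix.mul_assoc, Matrix.mul_assoc]
        rw [← sub_eq_iff_eq_add'.2 h1.symm]
        abel
      rw [e]
      have hjm : j < m := by omega
      refine Submodule.add_mem _ (Submodule.add_mem _ (Submodule.add_mem _ ?_ ?_) ?_) ?_
      · exact Submodule.neg_mem _ (hmul _ (ih (by omega) h hy))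
      · exact CC_smul_mem _ (tr1_mem hnm) (hle (ih (by omega) h hy))
      · exact CC_smul_mem _ (tr1_mem hjm) (hmul _ hy)
      · exact CC_smul_mem _ (sub_mem (tr2_mem hnm hjm) (mul_mem (tr1_mem hnm) (tr1_mem hjm)))
          (hle hy)
    · refine Submodule.add_mem _ (hmul x hx) ?_
      have e : y * gX j * gX j = (gX j).trace • (y * gX j) +
          (algebraMap ℚ Om (1 / 2) * ((gX j * gX j).trace - (gX j).trace * (gX j).trace)) • y := by
        have h1 := congrArg (fun z => y * z) (idCH (gX j) (gX j))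
        simp only [mul_add, mul_smul_comm, mul_one] at h1
        have h3 : algebraMap ℚ Om (1 / 2) * 2 = 1 := by
          have : (2 : Om) = algebraMap ℚ Om 2 := (map_ofNat (algebraMap ℚ Om) 2).symm
          rw [this, ← map_mul]
          norm_num
        have h2 : y * gX j * gX j = algebraMap ℚ Om (1 / 2) • (y * (gX j * gX j) +
            y * (gX j * gX j)) := by
          rw [← two_smul Om, smul_smul, h3, one_smul, Matrix.mul_assoc]
        rw [h2, h1]
        generalize algebraMap ℚ Om (1 / 2) = h at *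
        generalize (gX j).trace = t at *
        have h4 : h • (t • (y * gX j) + t • (y * gX j) + ((gX j * gX j).trace - t * t) • y) =
            (h * 2) • t • (y * gX j) + (h * ((gX j * gX j).trace - t * t)) • y := by
          module
        rw [h4, h3, one_smul]
      rw [e]
      refine Submodule.add_mem _ ?_ ?_
      · exact CC_smul_mem _ (tr1_mem hnm) (hmul _ hy)
      · exact CC_smul_mem _ (mul_mem (rat_mem_CC m _) (sub_mem (tr2_mem hnm hnm)
          (mul_mem (tr1_mem hnm) (tr1_mem hnm)))) (hle hy)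

theorem one_mem_WW (m n : ℕ) : (1 : MM) ∈ WW m n := by
  induction n with
  | zero => exact Submodule.subset_span rfl
  | succ n ih => exact (le_sup_left : WW m n ≤ WW m (n + 1)) ih

theorem RR_sub_WW (m : ℕ) {z : MM} (hz : z ∈ RR m) : z ∈ WW m m := by
  induction hz using Submodule.span_induction with
  | mem x hx =>
    obtain ⟨w, hw, rfl⟩ := hx
    have : ∀ w : List ℕ, (∀ i ∈ w, i < m) → ∀ z ∈ WW m m, z * gval w ∈ WW m m := by
      intro w
      induction w with
      | nil => intro _ z hz; simpa [gval] using hz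
      | cons i w ih =>
        intro hw z hz
        rw [gval, List.map_cons, List.prod_cons, ← Matrix.mul_assoc]
        exact ih (fun j hj => hw j (by simp [hj])) _ (WW_mul le_rfl (hw i (by simp)) hz)
    simpa using this w hw 1 (one_mem_WW m m)
  | zero => exact Submodule.zero_mem _
  | add x y _ _ hx hy => exact Submodule.add_mem _ hx hy
  | smul a x _ hx =>
    rw [← algebraMap_smul Om a x]
    exact CC_smul_mem _ (rat_mem_CC m a) hx

end Pool.Agent.Lib.MP_79b5eb_lc.M2
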