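import Pool.Agent.Lib.MP_79b5eb_lc.M2.Span1

/-!
The existence of certificates is an existential statement.
-/

set_option autoImplicit false

namespace Pool.Agent.Lib.MP_79b5eb_lc.M2

/-- Parameters: `m`, the codes of the generators, the code of the element, the list, the weights. -/
abbrev PT : Type := ℕ × List SL × SL × List GE × WD

abbrev PT.m (a : PT) : ℕ := a.1
abbrev PT.us (a : PT) : List SL := a.2.1
abbrev PT.z (a : PT) : SL := a.2.2.1
abbrev PT.L (a : PT) : List GE := a.2.2.2.1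
abbrev PT.W (a : PT) : WD := a.2.2.2.2

/-! ### Memberships -/

instance decLetter : DecidableEq Letter := fun _ _ => inferInstance
instance decTm : DecidableEq Tm := fun _ _ => inferInstance
instance decSL : DecidableEq SL := fun _ _ => inferInstance
instance decGE : DecidableEq GE := fun _ _ => inferInstance

def memGB (L : List GE) (x : GE) : Bool := L.any fun y => decide (y = x)

theorem memGB_iff (L : List GE) (x : GE) : memGB L x = true ↔ x ∈ L := by
  unfold memGB
  rw [List.any_eq_true]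
  constructor
  · rintro ⟨y, hy, h⟩
    rw [decide_eq_true_eq] at h
    rwa [← h]
  · intro h
    exact ⟨x, h, by simp⟩

def wokB (m l : ℕ) (w : List Letter) : Bool := w.all fun s => levB m l s

theorem wokB_iff (m l : ℕ) (w : List Letter) : wokB m l w = true ↔ ∀ s ∈ w, s ∈ levS m l := by
  simp [wokB, levB_iff]

def subB (m l l' l'' : ℕ) : Bool :=
  (alph m).all fun s => (!(levB m l s && levB m l' s)) || levB m l'' s

theorem subB_iff (m l l' l'' : ℕ) :
    subB m l l' l'' = true ↔ levS m l ∩ levS m l' ⊆ levS m l'' := by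
  unfold subB
  rw [List.all_eq_true]
  constructor
  · rintro h s ⟨h1, h2⟩
    have := h s (levS_sub_alph h1)
    rw [(levB_iff m l s).2 h1, (levB_iff m l' s).2 h2] at this
    exact (levB_iff _ _ _).1 (by simpa using this)
  · intro h s _
    by_cases h1 : s ∈ levS m l
    · by_cases h2 : s ∈ levS m l'
      · rw [(levB_iff m l'' s).2 (h ⟨h1, h2⟩)]
        simp
      · have : levB m l' s = false := by rw [← Bool.not_eq_true, levB_iff]; exact h2
        simp [this]
    · have : levB m l s = false := by rw [← Bool.not_eq_true, levB_iff]; exact h1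
      simp [this]

section prims
variable {α : Type*} [Primcodable α]

@[fun_prop] theorem p_memGB {f : α → List GE} {g : α → GE} (hf : Primrec f) (hg : Primrec g) :
    Primrec fun a => memGB (f a) (g a) := by unfold memGB; fun_prop
@[fun_prop] theorem p_wokB {f g : α → ℕ} {h : α → List Letter} (hf : Primrec f) (hg : Primrec g)
    (hh : Primrec h) : Primrec fun a => wokB (f a) (g a) (h a) := by unfold wokB; fun_prop
@[fun_prop] theorem p_subB {f g h k : α → ℕ} (hf : Primrec f) (hg : Primrec g)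
    (hh : Primrec h) (hk : Primrec k) : Primrec fun a => subB (f a) (g a) (h a) (k a) := by
  unfold subB; fun_prop

end prims

theorem N_eq (m : ℕ) (L : List GE) (W : WD) (l l' M : ℕ) :
    N W.wL W.wK (famOf m L) (levS m l ∩ levS m l') M =
      Submodule.span ℚ {z | ∃ t : GE × List Letter, ((memGB L t.1 && wokB m t.1.1 t.2) &&
        (subB m l l' t.1.1 && decide (wMB W t.2 + wtB W t.1.2.1 < M))) = true ∧
        z = sval (opWL t.2 t.1.2.2)} := by
  unfold N Gen
  congr 1
  ext z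
  simp only [Set.mem_ofPred_eq, Bool.and_eq_true, memGB_iff, wokB_iff, subB_iff,
    decide_eq_true_eq, sval_opWL, wMB_eq, wtB_eq]
  constructor
  · rintro ⟨⟨x, hx⟩, w, h1, h2, h3, h4⟩
    exact ⟨(x, w), ⟨⟨hx, h2⟩, h1, h3⟩, h4⟩
  · rintro ⟨⟨x, w⟩, ⟨⟨hx, h2⟩, h1, h3⟩, h4⟩
    exact ⟨⟨x, hx⟩, w, h1, h2, h3, h4⟩

theorem NT_eq (m : ℕ) (L : List GE) (l : ℕ) :
    NT (famOf m L) (levS m l) =
      Submodule.span ℚ {z | ∃ t : GE × List Letter, ((memGB L t.1 && wokB m t.1.1 t.2) &&
        subB m l l t.1.1) = true ∧ z = sval (opWL t.2 t.1.2.2)} := by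
  unfold NT
  congr 1
  ext z
  simp only [Set.mem_ofPred_eq, Bool.and_eq_true, memGB_iff, wokB_iff, subB_iff,
    sval_opWL, Set.inter_self]
  constructor
  · rintro ⟨⟨x, hx⟩, w, h1, h2, h4⟩
    exact ⟨(x, w), ⟨⟨hx, h2⟩, h1⟩, h4⟩
  · rintro ⟨⟨x, w⟩, ⟨⟨hx, h2⟩, h1⟩, h4⟩
    exact ⟨⟨x, hx⟩, w, h1, h2, h4⟩

theorem Ntot_eq (m : ℕ) (L : List GE) :
    Ntot (famOf m L) =
      Submodule.span ℚ {z | ∃ t : GE × List Letter, (memGB L t.1 && wokB m t.1.1 t.2) = true ∧
        z = sval (opWL t.2 t.1.2.2)} := by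
  unfold Ntot
  congr 1
  ext z
  simp only [Set.mem_ofPred_eq, Bool.and_eq_true, memGB_iff, wokB_iff,
    sval_opWL]
  constructor
  · rintro ⟨⟨x, hx⟩, w, h2, h4⟩
    exact ⟨(x, w), ⟨hx, h2⟩, h4⟩
  · rintro ⟨⟨x, w⟩, ⟨hx, h2⟩, h4⟩
    exact ⟨⟨x, hx⟩, w, h2, h4⟩

section mem
variable {α : Type*} [Primcodable α]

theorem S1_N {fm fl fl' fM : α → ℕ} {fL : α → List GE} {fW : α → WD} {fv : α → SL}
    (h1 : Primrec fm) (h2 : Primrec fl) (h3 : Primrec fl') (h4 : Primrec fM) (h5 : Primrec fL)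
    (h6 : Primrec fW) (h7 : Primrec fv) :
    S1 fun a => sval (fv a) ∈ N (fW a).wL (fW a).wK (famOf (fm a) (fL a))
      (levS (fm a) (fl a) ∩ levS (fm a) (fl' a)) (fM a) := by
  refine S1.of_eq (S1_span (τ := GE × List Letter)
    (ok := fun x => ((memGB (fL x.1) x.2.1 && wokB (fm x.1) x.2.1.1 x.2.2) &&
        (subB (fm x.1) (fl x.1) (fl' x.1) x.2.1.1 && decide (wMB (fW x.1) x.2.2 +
          wtB (fW x.1) x.2.1.2.1 < fM x.1))))
    (cd := fun x => opWL x.2.2 x.2.1.2.2) (vc := fv)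
    (by fun_prop) (by fun_prop) h7) fun a => ?_
  rw [N_eq]

theorem S1_NT {fm fl : α → ℕ} {fL : α → List GE} {fv : α → SL}
    (h1 : Primrec fm) (h2 : Primrec fl) (h5 : Primrec fL) (h7 : Primrec fv) :
    S1 fun a => sval (fv a) ∈ NT (famOf (fm a) (fL a)) (levS (fm a) (fl a)) := by
  refine S1.of_eq (S1_span (τ := GE × List Letter)
    (ok := fun x => ((memGB (fL x.1) x.2.1 && wokB (fm x.1) x.2.1.1 x.2.2) &&
        subB (fm x.1) (fl x.1) (fl x.1) x.2.1.1))
    (cd := fun x => opWL x.2.2 x.2.1.2.2) (vc := fv)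
    (by fun_prop) (by fun_prop) h7) fun a => ?_
  rw [NT_eq]

theorem S1_Ntot {fm : α → ℕ} {fL : α → List GE} {fv : α → SL}
    (h1 : Primrec fm) (h5 : Primrec fL) (h7 : Primrec fv) :
    S1 fun a => sval (fv a) ∈ Ntot (famOf (fm a) (fL a)) := by
  refine S1.of_eq (S1_span (τ := GE × List Letter)
    (ok := fun x => (memGB (fL x.1) x.2.1 && wokB (fm x.1) x.2.1.1 x.2.2))
    (cd := fun x => opWL x.2.2 x.2.1.2.2) (vc := fv)
    (by fun_prop) (by fun_prop) h7) fun a => ?_
  rw [Ntot_eq]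

end mem

/-! ### Leading terms -/

def leadB (W : WD) (x : GE) : Bool :=
  nzB x.2.2 x.2.1 && x.2.2.all fun t => (!(nzB x.2.2 t.2)) ||
    ((decide (t.2.1 = x.2.1.1) && permB t.2.2 x.2.1.2) || decide (wtB W t.2 < wtB W x.2.1))

@[fun_prop] theorem p_leadB {α : Type*} [Primcodable α] {f : α → WD} {g : α → GE}
    (hf : Primrec f) (hg : Primrec g) : Primrec fun a => leadB (f a) (g a) := by
  unfold leadB; fun_prop

theorem leadB_iff (W : WD) (x : GE) : leadB W x = true ↔ IsLead W.wL W.wK x.g x.c x.ν := by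
  unfold leadB IsLead
  rw [Bool.and_eq_true, nzB_iff, List.all_eq_true]
  refine and_congr Iff.rfl ?_
  change _ ↔ ∀ b, (sval x.2.2) b ≠ 0 → (b ≠ (GE.c x, GE.ν x) →
    wt W.wL W.wK b < wt W.wL W.wK (GE.c x, GE.ν x))
  rw [all_supp x.2.2 fun b => (b ≠ (GE.c x, GE.ν x) →
    wt W.wL W.wK b < wt W.wL W.wK (GE.c x, GE.ν x))]
  refine forall₂_congr fun t _ => ?_
  rw [Bool.or_eq_true, Bool.or_eq_true, Bool.and_eq_true, permB_iff, decide_eq_true_eq,
    decide_eq_true_eq, wtB_eq, wtB_eq, Bool.not_eq_true', ← Bool.not_eq_true]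
  have e : (t.2.1, (t.2.2 : Multiset Letter)) = (GE.c x, GE.ν x) ↔
    t.2.1 = x.2.1.1 ∧ (t.2.2 : Multiset Letter) = (x.2.1.2 : Multiset Letter) := by
      rw [Prod.mk.injEq]; rfl
  rw [ne_eq, e]
  change _ ↔ (_ → _ → wt W.wL W.wK (t.2.1, (t.2.2 : Multiset Letter)) <
    wt W.wL W.wK (x.2.1.1, (x.2.1.2 : Multiset Letter)))
  tauto

/-! ### Pairs -/

theorem pair_unique {a b ν ν' a' b' : Multiset Letter} (h : a + ν = b + ν') (hd : Disjoint a b)
    (h' : a' + ν = b' + ν') (hd' : Disjoint a' b') : a = a' ∧ b = b' := by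
  have key : ∀ s, a.count s = a'.count s ∧ b.count s = b'.count s := by
    intro s
    have e1 := congrArg (Multiset.count s) h
    have e2 := congrArg (Multiset.count s) h'
    rw [Multiset.count_add, Multiset.count_add] at e1 e2
    have d1 : a.count s = 0 ∨ b.count s = 0 := by
      by_contra hh
      rw [not_or, ← ne_eq, ← ne_eq, Multiset.count_ne_zero, Multiset.count_ne_zero] at hh
      exact Multiset.disjoint_left.1 hd hh.1 hh.2
    have d2 : a'.count s = 0 ∨ b'.count s = 0 := by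
      by_contra hh
      rw [not_or, ← ne_eq, ← ne_eq, Multiset.count_ne_zero, Multiset.count_ne_zero] at hh
      exact Multiset.disjoint_left.1 hd' hh.1 hh.2
    omega
  exact ⟨Multiset.ext.2 fun s => (key s).1, Multiset.ext.2 fun s => (key s).2⟩

theorem pair_exists (ν ν' : Multiset Letter) : ∃ a b : Multiset Letter, a + ν = b + ν' ∧
    Disjoint a b := by
  refine ⟨ν' - ν, ν - ν', ?_, ?_⟩
  · ext s
    rw [Multiset.count_add, Multiset.count_add, Multiset.count_sub, Multiset.count_sub]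
    omega
  · rw [Multiset.disjoint_left]
    intro s h1 h2
    rw [← Multiset.count_pos, Multiset.count_sub] at h1 h2
    omega

/-- The condition on pairs. -/
def PairC (m : ℕ) (L : List GE) (W : WD) (x y : GE) : Prop :=
  ∀ a b : Multiset Letter, (∀ s ∈ a, s ∈ levS m x.lev) →
    (∀ s ∈ b, s ∈ levS m y.lev) → x.c = y.c → a + x.ν = b + y.ν → Disjoint a b →
    ∃ la lb : List Letter, (la : Multiset Letter) = a ∧ (lb : Multiset Letter) = b ∧
    ∃ p q : ℚ, p ≠ 0 ∧ q ≠ 0 ∧ p • opW la x.g - q • opW lb y.g ∈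
      N W.wL W.wK (famOf m L) (levS m x.lev ∩ levS m y.lev) (wM W.wL a + wt W.wL W.wK (x.c, x.ν))

/-- Witnesses: two words, two integers, a sign. -/
abbrev WT : Type := List Letter × List Letter × ℕ × ℕ × Bool

def pairC1 (m : ℕ) (x y : GE) (t : WT) : Bool :=
  (!(wokB m x.1 t.1)) || ((!(wokB m y.1 t.2.1)) || false)

def pairC0 (x y : GE) (t : WT) : Bool :=
  permB (t.1 ++ x.2.1.2) (t.2.1 ++ y.2.1.2) && t.1.all fun s => !(t.2.1.any fun s' => decide (s' = s))

def pairV (x y : GE) (t : WT) : SL :=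
  repL (t.2.2.1 + 1) (opWL t.1 x.2.2) ++ sgnL t.2.2.2.2 (repL (t.2.2.2.1 + 1) (opWL t.2.1 y.2.2))

theorem rat_pair {u v : V} {S : Submodule ℚ V} : (∃ p q : ℚ, p ≠ 0 ∧ q ≠ 0 ∧ p • u - q • v ∈ S) ↔
    ∃ (i j : ℕ) (s : Bool), ((i + 1 : ℕ) : ℚ) • u + sgn s (((j + 1 : ℕ) : ℚ) • v) ∈ S := by
  constructor
  · rintro ⟨p, q, hp, hq, h⟩
    -- multiply by `den p * den q * sign`
    have h1 := Submodule.smul_mem S ((p.den : ℚ) * (q.den : ℚ) * (if 0 ≤ p.num then 1 else -1)) h
    have hpn : p.num ≠ 0 := Rat.num_ne_zero.2 hp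
    have hqn : q.num ≠ 0 := Rat.num_ne_zero.2 hq
    obtain ⟨i, hi⟩ := Nat.exists_eq_succ_of_ne_zero
      (Nat.mul_ne_zero (Int.natAbs_ne_zero.2 hpn) q.den_ne_zero)
    obtain ⟨j, hj⟩ := Nat.exists_eq_succ_of_ne_zero
      (Nat.mul_ne_zero (Int.natAbs_ne_zero.2 hqn) p.den_ne_zero)
    have e1 : ((i + 1 : ℕ) : ℚ) = (p.den : ℚ) * q.den * (if 0 ≤ p.num then 1 else -1) * p := by
      rw [← Nat.succ_eq_add_one, ← hi]
      have : (p.den : ℚ) * p = p.num := Rat.den_mul_eq_num p
      push_cast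
      rw [Nat.cast_natAbs]
      split_ifs with h0
      · rw [abs_of_nonneg h0]
        linear_combination (-(q.den : ℚ)) * this
      · rw [abs_of_nonpos (by omega)]
        push_cast
        linear_combination ((q.den : ℚ)) * this
    have e2 : ((j + 1 : ℕ) : ℚ) = (if 0 ≤ q.num then 1 else -1) * ((p.den : ℚ) * q.den * q) := by
      rw [← Nat.succ_eq_add_one, ← hj]
      have : (q.den : ℚ) * q = q.num := Rat.den_mul_eq_num q
      push_cast
      rw [Nat.cast_natAbs]
      split_ifs with h0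
      · rw [abs_of_nonneg h0]
        linear_combination (-(p.den : ℚ)) * this
      · rw [abs_of_nonpos (by omega)]
        push_cast
        linear_combination ((p.den : ℚ)) * this
    rw [smul_sub, smul_smul, smul_smul, ← e1] at h1
    refine ⟨i, j, decide ((0 ≤ p.num ∧ q.num < 0) ∨ (p.num < 0 ∧ 0 ≤ q.num)), ?_⟩
    have e3 : sgn (decide ((0 ≤ p.num ∧ q.num < 0) ∨ (p.num < 0 ∧ 0 ≤ q.num)))
      (((j + 1 : ℕ) : ℚ) • v) = - (((p.den : ℚ) * q.den * (if 0 ≤ p.num then 1 else -1) * q) • v) := by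
      rw [e2, sgn]
      by_cases a1 : 0 ≤ p.num <;> by_cases a2 : 0 ≤ q.num
      · have : ¬ ((0 ≤ p.num ∧ q.num < 0) ∨ (p.num < 0 ∧ 0 ≤ q.num)) := by omega
        rw [decide_eq_false this, if_pos a1, if_pos a2, one_mul, mul_one]
        simp
      · have : ((0 ≤ p.num ∧ q.num < 0) ∨ (p.num < 0 ∧ 0 ≤ q.num)) := by omega
        rw [decide_eq_true this, if_pos a1, if_neg a2, if_pos rfl, mul_one, neg_mul, one_mul,
          neg_smul]
      · have : ((0 ≤ p.num ∧ q.num < 0) ∨ (p.num < 0 ∧ 0 ≤ q.num)) := by omega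
        rw [decide_eq_true this, if_neg a1, if_pos a2, if_pos rfl, mul_neg, mul_one, neg_mul,
          one_mul, neg_smul, neg_neg]
      · have : ¬ ((0 ≤ p.num ∧ q.num < 0) ∨ (p.num < 0 ∧ 0 ≤ q.num)) := by omega
        rw [decide_eq_false this, if_neg a1, if_neg a2, if_neg (by simp), mul_neg, mul_one,
          neg_mul, neg_mul, one_mul]
    rw [e3, ← sub_eq_add_neg]
    exact h1
  · rintro ⟨i, j, s, h⟩
    refine ⟨((i + 1 : ℕ) : ℚ), if s then -((j + 1 : ℕ) : ℚ) else ((j + 1 : ℕ) : ℚ), by positivity,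
      ?_, ?_⟩
    · have : ((j + 1 : ℕ) : ℚ) ≠ 0 := by positivity
      split_ifs
      · exact neg_ne_zero.2 this
      · exact this
    · cases s
      · rw [if_neg (by simp), sub_eq_add_neg]
        exact h
      · rw [if_pos rfl, neg_smul, sub_neg_eq_add]
        exact h

theorem PairC_iff (m : ℕ) (L : List GE) (W : WD) (x y : GE) : PairC m L W x y ↔
    ((!(decide (x.2.1.1 = y.2.1.1))) = true ∨ ∃ t : WT, pairC0 x y t = true ∧
      (pairC1 m x y t = true ∨ sval (pairV x y t) ∈
        N W.wL W.wK (famOf m L) (levS m x.1 ∩ levS m y.1) (wMB W t.1 + wtB W x.2.1))) := by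
  have hc0 : ∀ t : WT, pairC0 x y t = true ↔
      ((t.1 : Multiset Letter) + GE.ν x = (t.2.1 : Multiset Letter) + GE.ν y ∧
      Disjoint (t.1 : Multiset Letter) (t.2.1 : Multiset Letter)) := by
    intro t
    unfold pairC0
    rw [Bool.and_eq_true, permB_iff, Multiset.disjoint_left, ← Multiset.coe_add,
      ← Multiset.coe_add]
    refine and_congr Iff.rfl ?_
    rw [List.all_eq_true]
    refine ⟨fun h s hs hs' => ?_, fun h s hs => ?_⟩
    · have := h s (by simpa using hs)
      rw [Bool.not_eq_true', ← Bool.not_eq_true, List.any_eq_true] at this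
      exact this ⟨s, by simpa using hs', by simp⟩
    · rw [Bool.not_eq_true', ← Bool.not_eq_true, List.any_eq_true]
      rintro ⟨s', hs', e⟩
      rw [decide_eq_true_eq] at e
      subst e
      exact h (by simpa using hs) (by simpa using hs')
  constructor
  · intro h
    by_cases hc : x.c = y.c
    · right
      obtain ⟨a, b, hab, hd⟩ := pair_exists x.ν y.ν
      by_cases ha : ∀ s ∈ a, s ∈ levS m x.lev
      · by_cases hb : ∀ s ∈ b, s ∈ levS m y.lev
        · obtain ⟨la, lb, rfl, rfl, h1⟩ := h a b ha hb hc hab hd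
          obtain ⟨i, j, s, h2⟩ := rat_pair.1 h1
          refine ⟨(la, lb, i, j, s), (hc0 _).2 ⟨hab, hd⟩, Or.inr ?_⟩
          rw [wMB_eq, wtB_eq]
          unfold pairV
          rw [sval_append, sval_sgnL, sval_repL, sval_repL, sval_opWL, sval_opWL]
          exact h2
        · refine ⟨(a.toList, b.toList, 0, 0, true), (hc0 _).2 ?_, Or.inl ?_⟩
          · simpa using ⟨hab, hd⟩
          · unfold pairC1
            have : wokB m y.1 b.toList = false := by
              rw [← Bool.not_eq_true, wokB_iff]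
              intro h'
              exact hb fun s hs => h' s (by simpa using hs)
            simp [this]
      · refine ⟨(a.toList, b.toList, 0, 0, true), (hc0 _).2 ?_, Or.inl ?_⟩
        · simpa using ⟨hab, hd⟩
        · unfold pairC1
          have : wokB m x.1 a.toList = false := by
            rw [← Bool.not_eq_true, wokB_iff]
            intro h'
            exact ha fun s hs => h' s (by simpa using hs)
          simp [this]
    · left
      have : ¬ (x.2.1.1 = y.2.1.1) := hc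
      simp [this]
  · intro h a b ha hb hc hab hd
    rcases h with h | ⟨⟨la, lb, i, j, s⟩, h0, h⟩
    · have h' : x.2.1.1 = y.2.1.1 := hc
      simp [h'] at h
    · obtain ⟨h1, h2⟩ := (hc0 _).1 h0
      obtain ⟨rfl, rfl⟩ := pair_unique hab hd h1 h2
      refine ⟨la, lb, rfl, rfl, ?_⟩
      rcases h with h | h
      · exfalso
        unfold pairC1 at h
        simp only [Bool.or_false, Bool.or_eq_true, Bool.not_eq_true', ← Bool.not_eq_true,
          wokB_iff] at h
        rcases h with h | h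
        · exact h fun s hs => ha s (by simpa using hs)
        · exact h fun s hs => hb s (by simpa using hs)
      · rw [rat_pair]
        refine ⟨i, j, s, ?_⟩
        rw [wMB_eq, wtB_eq] at h
        unfold pairV at h
        rw [sval_append, sval_sgnL, sval_repL, sval_repL, sval_opWL, sval_opWL] at h
        exact h

section mem2
variable {α : Type*} [Primcodable α]

theorem S1_PairC {fm : α → ℕ} {fL : α → List GE} {fW : α → WD} {fx fy : α → GE}
    (h1 : Primrec fm) (h2 : Primrec fL) (h3 : Primrec fW) (h4 : Primrec fx) (h5 : Primrec fy) :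
    S1 fun a => PairC (fm a) (fL a) (fW a) (fx a) (fy a) := by
  refine S1.of_eq (S1.or (S1.of_bool (f := fun a => !(decide ((fx a).2.1.1 = (fy a).2.1.1)))
    (by fun_prop) fun _ => Iff.rfl) (S1.exists (p := fun a (t : WT) => pairC0 (fx a) (fy a) t = true ∧
      (pairC1 (fm a) (fx a) (fy a) t = true ∨ sval (pairV (fx a) (fy a) t) ∈
        N (fW a).wL (fW a).wK (famOf (fm a) (fL a)) (levS (fm a) (fx a).1 ∩ levS (fm a) (fy a).1)
          (wMB (fW a) t.1 + wtB (fW a) (fx a).2.1))) ?_))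
    fun a => (PairC_iff _ _ _ _ _).symm
  refine S1.and (S1.of_bool (f := fun x => pairC0 (fx x.1) (fy x.1) x.2) ?_ fun _ => Iff.rfl)
    (S1.or (S1.of_bool (f := fun x => pairC1 (fm x.1) (fx x.1) (fy x.1) x.2) ?_ fun _ => Iff.rfl) ?_)
  · unfold pairC0; fun_prop
  · unfold pairC1; fun_prop
  · exact S1_N (fm := fun x : α × WT => fm x.1) (fl := fun x => (fx x.1).1)
      (fl' := fun x => (fy x.1).1) (fM := fun x => wMB (fW x.1) x.2.1 + wtB (fW x.1) (fx x.1).2.1)
      (fL := fun x => fL x.1) (fW := fun x => fW x.1) (fv := fun x => pairV (fx x.1) (fy x.1) x.2)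
      (by fun_prop) (by fun_prop) (by fun_prop) (by fun_prop) (by fun_prop) (by fun_prop)
      (by unfold pairV; fun_prop)

end mem2

end Pool.Agent.Lib.MP_79b5eb_lc.M2
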