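import Pool.Agent.Lib.MP_79b5eb_lc.M2.Exist2

/-!
Existence of certificates, final part.
-/

set_option autoImplicit false

namespace Pool.Agent.Lib.MP_79b5eb_lc.M2

section
variable {m k : ℕ} {us : ℕ → MM} {L1 L2 L3 : List GE} {d : ℕ} (BB : Basis m k us L1 L2 L3 d)

/-- The pair condition with respect to the monomial order. -/
def KPair (m : ℕ) (L : List GE) (x y : GE) : Prop :=
  ∀ a b : Multiset Letter, (∀ s ∈ a, s ∈ levS m (GE.lev x)) → (∀ s ∈ b, s ∈ levS m (GE.lev y)) →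
    GE.c x = GE.c y → a + GE.ν x = b + GE.ν y →
    ∃ p q : ℚ, p ≠ 0 ∧ q ≠ 0 ∧ p • opW a.toList (GE.g x) - q • opW b.toList (GE.g y) ∈
      NK m L (levS m (GE.lev x) ∩ levS m (GE.lev y)) (key m (GE.c x, a + GE.ν x))

/-- Cancelling the leading terms. -/
theorem cancel {m : ℕ} {f g : V} {b : B} (hf : IsLd m f b) (hg : IsLd m g b) :
    (g b) • f - (f b) • g ∈ Klt m (key m b) := by
  have e1 := Submodule.smul_mem _ (g b) hf.sub
  have e2 := Submodule.smul_mem _ (f b) hg.sub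
  have := Submodule.sub_mem _ e1 e2
  rw [smul_sub, smul_sub, smul_smul, smul_smul, mul_comm (f b) (g b)] at this
  simpa using this

theorem kpair_of (W : Submodule ℚ V) (L : List GE) (T : Set Letter) {x y : GE}
    {a b : Multiset Letter}
    (hx : IsLd m (GE.g x) (GE.c x, GE.ν x)) (hy : IsLd m (GE.g y) (GE.c y, GE.ν y))
    (hT : levS m (GE.lev x) ∩ levS m (GE.lev y) ⊆ T)
    (hWx : opW a.toList (GE.g x) ∈ W) (hWy : opW b.toList (GE.g y) ∈ W)
    (hdiv : ∀ f ∈ W, ∀ M, f ∈ Klt m M → f ∈ NK m L T M)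
    (hc : GE.c x = GE.c y) (he : a + GE.ν x = b + GE.ν y) :
    ∃ p q : ℚ, p ≠ 0 ∧ q ≠ 0 ∧ p • opW a.toList (GE.g x) - q • opW b.toList (GE.g y) ∈
      NK m L (levS m (GE.lev x) ∩ levS m (GE.lev y)) (key m (GE.c x, a + GE.ν x)) := by
  obtain ⟨h1, h1'⟩ := opW_IsLd hx a.toList
  obtain ⟨h2, h2'⟩ := opW_IsLd hy b.toList
  simp only [Multiset.coe_toList] at h1 h1' h2 h2'
  rw [← hc, ← he] at h2 h2'
  have h3 := cancel h1 h2
  refine ⟨_, _, h2.1, h1.1, ?_⟩
  exact NK_mono (List.Subset.refl L) hT le_rfl (hdiv _ (Submodule.sub_mem _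
    (Submodule.smul_mem _ _ hWx) (Submodule.smul_mem _ _ hWy)) _ h3)

include BB in
/-- Elements of the third list with a leading monomial without trace letters. -/
theorem PP_UU {x : GE} (hx : x ∈ L3) (hν : ∀ s ∈ GE.ν x, s ∈ Ax m) : GE.g x ∈ UU m k := by
  obtain ⟨_, h2, h3⟩ := BB.h3 x hx
  intro b hb
  have hb' := h2.1 b hb
  obtain ⟨hk, hl⟩ := okB_ge hb'.1 hb'.2
  refine ⟨hb'.2, hk, fun s hs => ?_⟩
  rcases hl s hs with h | h
  · exfalso
    have hc4 : 4 ≤ GE.c x := (h2.1 _ h3.1).2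
    have hcnt : ∀ μ : Multiset Letter, (∀ s ∈ μ, s ∈ At m ∪ Ax m) → cnt isY μ = 0 := by
      intro μ hμ
      rw [cnt_eq_zero]
      intro s hs
      rcases hμ s hs with (h | h) | (h | h) <;> simp [isY, h.1]
    have h0 : cnt isT (GE.ν x) = 0 := by
      rw [cnt_eq_zero]
      intro s hs
      rcases hν s hs with h | h <;> simp [isT, h.1]
    have h1 : cnt isT b.2 ≠ 0 := by
      intro h0
      rw [cnt_eq_zero] at h0
      have := h0 s hs
      rcases h with h | h <;> simp [isT, h.1] at this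
    have h4 : key m (GE.c x, GE.ν x) < key m b := by
      refine key_tdeg hc4 hb'.2 ?_ ?_
      · rw [hcnt _ hl, hcnt _ fun s hs => Or.inr (hν s hs)]
      · simp only [h0]; omega
    have hne : b ≠ (GE.c x, GE.ν x) := by
      rintro rfl
      exact h1 h0
    exact lt_irrefl _ (h4.trans (h3.2 b hb hne))
  · exact h

theorem levS_inter_one_left (m l : ℕ) : levS m 1 ∩ levS m l ⊆ levS m 1 := Set.inter_subset_left

include BB in
theorem kpair (x y : GE) (hx : x ∈ LL k L1 L2 L3) (hy : y ∈ LL k L1 L2 L3) :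
    KPair m (LL k L1 L2 L3) x y := by
  intro a b ha hb hc he
  have hal : ∀ s ∈ a.toList, s ∈ levS m (GE.lev x) := fun s hs => ha s (by simpa using hs)
  have hbl : ∀ s ∈ b.toList, s ∈ levS m (GE.lev y) := fun s hs => hb s (by simpa using hs)
  have cls : ∀ x ∈ LL k L1 L2 L3, (x ∈ L1) ∨ (x ∈ L2) ∨ (x ∈ L3) ∨ (x ∈ L4 k) := by
    intro x hx
    simp only [LL, List.mem_append] at hx
    tauto
  have c1 : ∀ x ∈ L1, GE.c x < 4 := fun x hx => (BB.h1 x hx).2.1.1.2 _ (BB.h1 x hx).2.2.1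
  have c2 : ∀ x ∈ L2, GE.c x < 4 := fun x hx => (BB.h2 x hx).2.2.2
  have c3 : ∀ x ∈ L3, 4 ≤ GE.c x := fun x hx => ((BB.h3 x hx).2.1.1 _ (BB.h3 x hx).2.2.1).2
  have c4 : ∀ x ∈ L4 k, 4 ≤ GE.c x := fun x hx => by
    obtain ⟨j, _, _, h, _⟩ := mem_L4 hx; omega
  have l4 : ∀ x ∈ L4 k, IsLd m (GE.g x) (GE.c x, GE.ν x) := fun x hx => by
    obtain ⟨j, _, _, h1, h2, h3⟩ := mem_L4 hx
    rw [h1, h2, h3]; exact bas_IsLd _ _
  have d0 : ∀ f ∈ KE m k, ∀ M, f ∈ Klt m M → f ∈ NK m (LL k L1 L2 L3) (levS m 0) M :=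
    fun f hf M hM => div0 BB hf hM
  have d1 : ∀ f ∈ Nt m k us, ∀ M, f ∈ Klt m M → f ∈ NK m (LL k L1 L2 L3) (levS m 1) M :=
    fun f hf M hM => div1 BB hf hM
  have d2 : ∀ f ∈ PP m k us, ∀ M, f ∈ Klt m M → f ∈ NK m (LL k L1 L2 L3) (levS m 2) M :=
    fun f hf M hM => div2 BB hf hM
  have d3 : ∀ f ∈ UU m k, ∀ M, f ∈ Klt m M → f ∈ NK m (LL k L1 L2 L3) (levS m 3) M :=
    fun f hf M hM => div3 hf hM
  have w4 : ∀ x ∈ L4 k, ∀ w : List Letter, (∀ s ∈ w, s ∈ levS m (GE.lev x)) →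
      opW w (GE.g x) ∈ UU m k := by
    intro x hx w hw
    obtain ⟨j, hj, h1, h2, h3, h4⟩ := mem_L4 hx
    rw [h4]
    exact opW_stable _ (levS m 3) opS_UU (by rw [h1] at hw; exact hw) (e_mem_UU hj)
  have lev4 : ∀ x ∈ L4 k, GE.lev x = 3 := fun x hx => by
    obtain ⟨j, _, h, _⟩ := mem_L4 hx; exact h
  have nu4 : ∀ x ∈ L4 k, GE.ν x = 0 := fun x hx => by
    obtain ⟨j, _, _, _, h, _⟩ := mem_L4 hx; exact h
  rcases cls x hx with hx | hx | hx | hx <;> rcases cls y hy with hy | hy | hy | hy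
  · -- 1,1
    refine kpair_of (KE m k) _ (levS m 0) (BB.h1 x hx).2.2 (BB.h1 y hy).2.2 ?_ ?_ ?_ d0 hc he
    · rw [(BB.h1 x hx).1]; exact Set.inter_subset_left
    · exact opW_stable _ (levS m 0) opS_KE (by rw [(BB.h1 x hx).1] at hal; exact hal)
        (BB.h1 x hx).2.1
    · exact opW_stable _ (levS m 0) opS_KE (by rw [(BB.h1 y hy).1] at hbl; exact hbl)
        (BB.h1 y hy).2.1
  · -- 1,2
    refine kpair_of (Nt m k us) _ (levS m 1) (BB.h1 x hx).2.2 (BB.h2 y hy).2.2.1 ?_ ?_ ?_ d1 hc he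
    · rw [(BB.h2 y hy).1]; exact Set.inter_subset_right
    · exact opW_Nt123 BB (by simp [hx]) hal
    · exact opW_Nt123 BB (by simp [hy]) hbl
  · exact absurd hc (by have := c1 x hx; have := c3 y hy; omega)
  · exact absurd hc (by have := c1 x hx; have := c4 y hy; omega)
  · -- 2,1
    refine kpair_of (Nt m k us) _ (levS m 1) (BB.h2 x hx).2.2.1 (BB.h1 y hy).2.2 ?_ ?_ ?_ d1 hc he
    · rw [(BB.h2 x hx).1]; exact Set.inter_subset_left
    · exact opW_Nt123 BB (by simp [hx]) hal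
    · exact opW_Nt123 BB (by simp [hy]) hbl
  · -- 2,2
    refine kpair_of (Nt m k us) _ (levS m 1) (BB.h2 x hx).2.2.1 (BB.h2 y hy).2.2.1 ?_ ?_ ?_ d1
      hc he
    · rw [(BB.h2 x hx).1]; exact Set.inter_subset_left
    · exact opW_Nt123 BB (by simp [hx]) hal
    · exact opW_Nt123 BB (by simp [hy]) hbl
  · exact absurd hc (by have := c2 x hx; have := c3 y hy; omega)
  · exact absurd hc (by have := c2 x hx; have := c4 y hy; omega)
  · exact absurd hc (by have := c3 x hx; have := c1 y hy; omega)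
  · exact absurd hc (by have := c3 x hx; have := c2 y hy; omega)
  · -- 3,3
    refine kpair_of (PP m k us) _ (levS m 2) (BB.h3 x hx).2.2 (BB.h3 y hy).2.2 ?_ ?_ ?_ d2 hc he
    · rw [(BB.h3 x hx).1]; exact Set.inter_subset_left
    · exact opW_stable _ (levS m 2) opS_PP' (by rw [(BB.h3 x hx).1] at hal; exact hal)
        (BB.h3 x hx).2.1
    · exact opW_stable _ (levS m 2) opS_PP' (by rw [(BB.h3 y hy).1] at hbl; exact hbl)
        (BB.h3 y hy).2.1
  · -- 3,4
    rw [lev4 y hy, levS_three] at hb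
    rw [nu4 y hy, add_zero] at he
    have h1 : ∀ s ∈ GE.ν x, s ∈ Ax m := fun s hs => hb s (by rw [← he]; simp [hs])
    have h2 : ∀ s ∈ a, s ∈ Ax m := fun s hs => hb s (by rw [← he]; simp [hs])
    refine kpair_of (UU m k) _ (levS m 3) (BB.h3 x hx).2.2 (l4 y hy) ?_ ?_ ?_ d3 hc
      (by rw [nu4 y hy, add_zero]; exact he)
    · rw [lev4 y hy]; exact Set.inter_subset_right
    · exact opW_stable _ (levS m 3) opS_UU (fun s hs => h2 s (by simpa using hs))
        (PP_UU BB hx h1)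
    · exact w4 y hy _ hbl
  · exact absurd hc (by have := c4 x hx; have := c1 y hy; omega)
  · exact absurd hc (by have := c4 x hx; have := c2 y hy; omega)
  · -- 4,3
    rw [lev4 x hx, levS_three] at ha
    rw [nu4 x hx, add_zero] at he
    have h1 : ∀ s ∈ GE.ν y, s ∈ Ax m := fun s hs => ha s (by rw [he]; simp [hs])
    have h2 : ∀ s ∈ b, s ∈ Ax m := fun s hs => ha s (by rw [he]; simp [hs])
    refine kpair_of (UU m k) _ (levS m 3) (l4 x hx) (BB.h3 y hy).2.2 ?_ ?_ ?_ d3 hc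
      (by rw [nu4 x hx, add_zero]; exact he)
    · rw [lev4 x hx]; exact Set.inter_subset_left
    · exact w4 x hx _ hal
    · exact opW_stable _ (levS m 3) opS_UU (fun s hs => h2 s (by simpa using hs))
        (PP_UU BB hy h1)
  · -- 4,4
    refine kpair_of (UU m k) _ (levS m 3) (l4 x hx) (l4 y hy) ?_ ?_ ?_ d3 hc he
    · rw [lev4 x hx]; exact Set.inter_subset_left
    · exact w4 x hx _ hal
    · exact w4 y hy _ hbl

/-! ### Normal forms -/

theorem exists_nf (m k : ℕ) (L : List GE)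
    (hL : ∀ x ∈ L, ∀ w : List Letter, (∀ s ∈ w, s ∈ levS m (GE.lev x)) →
      opW w (GE.g x) ∈ Vf m k)
    (hld : ∀ x ∈ L, IsLd m (GE.g x) (GE.c x, GE.ν x)) (M : KT m) : ∀ f ∈ Vf m k, f ∈ Klt m M →
    ∃ r : V, f - r ∈ Ntot (famOf m L) ∧ (r = 0 ∨ ∃ b, IsLd m r b ∧
      ¬ ∃ x ∈ L, ∃ w : List Letter, (∀ s ∈ w, s ∈ levS m (GE.lev x)) ∧
        b = (GE.c x, ↑w + GE.ν x)) := by
  induction M using WellFoundedLT.induction with
  | ind M ih =>
    intro f hf hfM
    by_cases h0 : f = 0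
    · exact ⟨0, by rw [h0, sub_zero]; exact Submodule.zero_mem _, Or.inl rfl⟩
    obtain ⟨b, hb⟩ := exists_IsLd hf h0
    by_cases hr : ∃ x ∈ L, ∃ w : List Letter, (∀ s ∈ w, s ∈ levS m (GE.lev x)) ∧
        b = (GE.c x, ↑w + GE.ν x)
    · obtain ⟨x, hx, w, hw, hbe⟩ := hr
      obtain ⟨h1, h2⟩ := opW_IsLd (hld x hx) w
      simp only [← hbe] at h1 h2
      have h3 := cancel hb h1
      have hfb : opW w (GE.g x) b ≠ 0 := h1.1
      obtain ⟨r, hr1, hr2⟩ := ih (key m b) (hfM b hb.1) _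
        (Submodule.sub_mem _ (Submodule.smul_mem _ _ hf) (Submodule.smul_mem _ _ (hL x hx w hw))) h3
      set cc := opW w (GE.g x) b
      refine ⟨cc⁻¹ • r, ?_, ?_⟩
      · have e1 : opW w (GE.g x) ∈ Ntot (famOf m L) :=
          Submodule.subset_span ⟨⟨x, hx⟩, w, hw, rfl⟩
        have e2 := Submodule.add_mem _ hr1 (Submodule.smul_mem _ (f b) e1)
        have e3 := Submodule.smul_mem _ cc⁻¹ e2
        convert e3 using 1
        rw [smul_add, smul_sub, smul_sub, smul_smul, inv_mul_cancel₀ hfb, one_smul]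
        abel
      · rcases hr2 with rfl | ⟨b', hb', hirr⟩
        · left; simp
        · exact Or.inr ⟨b', IsLd_smul hb' (inv_ne_zero hfb), hirr⟩
    · exact ⟨f, by rw [sub_self]; exact Submodule.zero_mem _, Or.inr ⟨b, hb, hr⟩⟩

/-! ### Weights -/

def wLQ (m Q : ℕ) (s : Letter) : ℕ := WQ m Q (kl m s)
def wKQ (m Q : ℕ) (c : ℕ) : ℕ := WQ m Q (key m (c, 0))

theorem wt_WQ (m Q : ℕ) (b : B) : wt (wLQ m Q) (wKQ m Q) b = WQ m Q (key m b) := by
  obtain ⟨c, μ⟩ := b
  induction μ using Multiset.induction_on with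
  | empty => simp [wt, wKQ]
  | cons s μ ih =>
    rw [key_cons, WQ_add, ← ih]
    simp only [wt, wM_cons, wLQ]
    ring

theorem wM_WQ (m Q : ℕ) (w : Multiset Letter) (c : ℕ) (ν : Multiset Letter) :
    wM (wLQ m Q) w + wt (wLQ m Q) (wKQ m Q) (c, ν) = WQ m Q (key m (c, w + ν)) := by
  rw [← wt_WQ]; simp only [wt, wM_add]; ring

open Filter in
theorem IsLd.eventually {m : ℕ} {v : V} {c : ℕ} {ν : Multiset Letter} (h : IsLd m v (c, ν)) :
    ∀ᶠ Q in atTop, IsLead (wLQ m Q) (wKQ m Q) v c ν := by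
  have h1 : ∀ᶠ Q in atTop, ∀ b ∈ v.support, b ≠ (c, ν) →
      WQ m Q (key m b) < WQ m Q (key m (c, ν)) := by
    rw [Filter.eventually_all_finset]
    intro b hb
    by_cases hne : b = (c, ν)
    · exact Eventually.of_forall fun Q h => absurd hne h
    · filter_upwards [WQ_eventually m (h.2 b (Finsupp.mem_support_iff.1 hb) hne)] with Q hQ _
      exact hQ
  filter_upwards [h1] with Q hQ
  refine ⟨h.1, fun b hb hne => ?_⟩
  rw [wt_WQ, wt_WQ]
  exact hQ b (Finsupp.mem_support_iff.2 hb) hne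

open Filter in
theorem NK_eventually {m : ℕ} {L : List GE} {T : Set Letter} {M : KT m} {z : V}
    (hz : z ∈ NK m L T M) :
    ∀ᶠ Q in atTop, z ∈ N (wLQ m Q) (wKQ m Q) (famOf m L) T (WQ m Q M) := by
  induction hz using Submodule.span_induction with
  | mem x hx =>
    obtain ⟨x, hx, w, h1, h2, h3, rfl⟩ := hx
    filter_upwards [WQ_eventually m h3] with Q hQ
    refine Submodule.subset_span ⟨⟨x, hx⟩, w, h1, h2, ?_, rfl⟩
    rw [wM_WQ]
    exact hQ
  | zero => exact Eventually.of_forall fun Q => Submodule.zero_mem _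
  | add x y _ _ hx hy =>
    filter_upwards [hx, hy] with Q h1 h2
    exact Submodule.add_mem _ h1 h2
  | smul a x _ hx =>
    filter_upwards [hx] with Q h1
    exact Submodule.smul_mem _ _ h1

theorem unique_ab {a b ν ν' : Multiset Letter} (he : a + ν = b + ν') (hd : Disjoint a b) :
    a = ν' - ν ∧ b = ν - ν' := by
  have hcount : ∀ s, a.count s = 0 ∨ b.count s = 0 := by
    intro s
    by_contra hcon
    push Not at hcon
    have h1 := Multiset.count_pos.1 (Nat.pos_of_ne_zero hcon.1)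
    have h2 := Multiset.count_pos.1 (Nat.pos_of_ne_zero hcon.2)
    exact (Multiset.disjoint_left.1 hd h1) h2
  have he' : ∀ s, a.count s + ν.count s = b.count s + ν'.count s := by
    intro s
    have := congrArg (Multiset.count s) he
    simpa [Multiset.count_add] using this
  constructor
  · ext s
    rw [Multiset.count_sub]
    have := hcount s; have := he' s; omega
  · ext s
    rw [Multiset.count_sub]
    have := hcount s; have := he' s; omega

open Filter in
theorem KPair.eventually {m : ℕ} {L : List GE} {x y : GE} (h : KPair m L x y) :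
    ∀ᶠ Q in atTop, ∀ a b : Multiset Letter, (∀ s ∈ a, s ∈ levS m (GE.lev x)) →
    (∀ s ∈ b, s ∈ levS m (GE.lev y)) → GE.c x = GE.c y → a + GE.ν x = b + GE.ν y → Disjoint a b →
    ∃ la lb : List Letter, (la : Multiset Letter) = a ∧ (lb : Multiset Letter) = b ∧
    ∃ p q : ℚ, p ≠ 0 ∧ q ≠ 0 ∧ p • opW la (GE.g x) - q • opW lb (GE.g y) ∈
      N (wLQ m Q) (wKQ m Q) (famOf m L) (levS m (GE.lev x) ∩ levS m (GE.lev y))
        (wM (wLQ m Q) a + wt (wLQ m Q) (wKQ m Q) (GE.c x, GE.ν x)) := by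
  classical
  by_cases hex : ∃ a b : Multiset Letter, (∀ s ∈ a, s ∈ levS m (GE.lev x)) ∧
      (∀ s ∈ b, s ∈ levS m (GE.lev y)) ∧ GE.c x = GE.c y ∧ a + GE.ν x = b + GE.ν y ∧
      Disjoint a b
  · obtain ⟨a, b, ha, hb, hc, he, hd⟩ := hex
    obtain ⟨p, q, hp, hq, hpq⟩ := h a b ha hb hc he
    filter_upwards [NK_eventually hpq] with Q hQ a' b' ha' hb' hc' he' hd'
    have e1 := unique_ab he hd
    have e2 := unique_ab he' hd'
    have ea : a' = a := by rw [e1.1, e2.1]
    have eb : b' = b := by rw [e1.2, e2.2]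
    subst ea eb
    refine ⟨a'.toList, b'.toList, by simp, by simp, p, q, hp, hq, ?_⟩
    rw [wM_WQ]
    exact hQ
  · exact Eventually.of_forall fun Q a b ha hb hc he hd => absurd ⟨a, b, ha, hb, hc, he, hd⟩ hex

/-! ### Concrete weights -/

/-- Remainder part of the weight. -/
def rem (m Q : ℕ) (s : Letter) : ℕ :=
  ∑ p : Fin (alph m).length, lf m s (5 + p) * Q ^ ((alph m).length - 1 - p)

theorem wLQ_eq (m Q : ℕ) (s : Letter) : wLQ m Q s =
    wLc (Q ^ ((alph m).length + 1), Q ^ ((alph m).length + 2), Q ^ ((alph m).length + 3))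
      ((alph m).map fun s => (s, rem m Q s)) s := by
  have hlook : ((((alph m).map fun s => (s, rem m Q s)).lookup s).getD 0) = rem m Q s := by
    by_cases hs : s ∈ alph m
    · have : ∀ l : List Letter, s ∈ l → (l.map fun s => (s, rem m Q s)).lookup s =
          some (rem m Q s) := by
        intro l
        induction l with
        | nil => intro h; simp at h
        | cons a l ih =>
          intro h
          rw [List.map_cons, List.lookup_cons]
          by_cases ha : s = a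
          · subst ha; simp
          · have : (s == a) = false := by simpa using ha
            rw [this]
            exact ih ((List.mem_cons.1 h).resolve_left ha)
      rw [this _ hs]; rfl
    · have h1 : ((alph m).map fun s => (s, rem m Q s)).lookup s = none := by
        rw [List.lookup_eq_none_iff]
        rintro ⟨t, n⟩ ht
        obtain ⟨t', ht', he⟩ := List.mem_map.1 ht
        rw [Prod.mk.injEq] at he
        simp only [bne_iff_ne, ne_eq]
        rintro rfl
        exact hs (he.1 ▸ ht')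
      rw [h1]
      have h2 : rem m Q s = 0 := by
        unfold rem
        refine Finset.sum_eq_zero fun p _ => ?_
        have : lf m s (5 + p) = 0 := by
          unfold lf
          rw [if_neg (by omega), if_neg (by omega), if_neg (by omega), if_neg (by omega),
            if_neg (by omega)]
          rw [Nat.add_sub_cancel_left, List.getElem?_eq_getElem p.2]
          simp only [Option.elim_some]
          rw [if_neg]
          rintro rfl
          exact hs (List.getElem_mem _)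
        rw [this, zero_mul]
      rw [h2]; rfl
  unfold wLc
  rw [hlook]
  unfold wLQ WQ
  change ∑ i : Fin (5 + (alph m).length), lf m s i * Q ^ (5 + (alph m).length - 1 - i) = _
  rw [Fin.sum_univ_add, Fin.sum_univ_five]
  congr 1
  · obtain ⟨a, b, c⟩ := s
    simp only [Fin.val_castAdd, lf, isY, isT, isX]
    rcases a with _ | _ | _ | _ | _ | a <;> simp <;> (congr 1; omega)
  · unfold rem
    refine Finset.sum_congr rfl fun p _ => ?_
    rw [Fin.val_natAdd]
    congr 2
    omega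

theorem wKQ_eq (m Q : ℕ) (c : ℕ) : wKQ m Q c =
    wKc (Q ^ ((alph m).length + 4), Q ^ (alph m).length) c := by
  unfold wKQ WQ wKc
  change ∑ i : Fin (5 + (alph m).length), kf m (c, 0) i * Q ^ (5 + (alph m).length - 1 - i) = _
  rw [Fin.sum_univ_add, Fin.sum_univ_five]
  have h0 : ∑ i : Fin (alph m).length, kf m (c, 0) (Fin.natAdd 5 i) *
      Q ^ (5 + (alph m).length - 1 - (Fin.natAdd 5 i : Fin (5 + (alph m).length))) = 0 := by
    refine Finset.sum_eq_zero fun p _ => ?_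
    rw [Fin.val_natAdd]
    have : kf m (c, 0) (5 + p) = 0 := by
      unfold kf
      rw [if_neg (by omega), if_neg (by omega), if_neg (by omega), if_neg (by omega),
            if_neg (by omega)]
      rw [Nat.add_sub_cancel_left, List.getElem?_eq_getElem p.2]
      simp
    rw [this, zero_mul]
  rw [h0, add_zero]
  have e0 : 5 + (alph m).length - 1 = (alph m).length + 4 := by omega
  have e4 : 5 + (alph m).length - 1 - 4 = (alph m).length := by omega
  simp [kf, cnt, e0]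

/-- The checkable condition on the weights. -/
def HC (A : ℕ × ℕ × ℕ) (tab : List (Letter × ℕ)) : Prop :=
  0 < A.1 ∧ ∀ t ∈ tab, t.1.1 = 1 → t.2 < A.1

theorem HC.hc {A : ℕ × ℕ × ℕ} {tab : List (Letter × ℕ)} (h : HC A tab) (s s' : Letter)
    (hs : s.1 = 0) (hs' : s'.1 = 0) :
    wLc A tab (1, s.2.1, s'.2.1) < wLc A tab s + wLc A tab s' := by
  have h1 : (tab.lookup (1, s.2.1, s'.2.1)).getD 0 < A.1 := by
    cases hl : tab.lookup (1, s.2.1, s'.2.1) with
    | none => exact h.1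
    | some w =>
      have : ((1, s.2.1, s'.2.1), w) ∈ tab := by
        obtain ⟨l₁, l₂, h1, _⟩ := List.lookup_eq_some_iff.1 hl
        rw [h1]; simp
      exact h.2 _ this rfl
  unfold wLc
  rw [hs, hs']
  simp only [le_refl, if_true, Nat.zero_le]
  omega

theorem HC_rem (m Q : ℕ) (hQ : 2 ≤ Q) :
    HC (Q ^ ((alph m).length + 1), Q ^ ((alph m).length + 2), Q ^ ((alph m).length + 3))
      ((alph m).map fun s => (s, rem m Q s)) := by
  refine ⟨Nat.pow_pos (by omega), ?_⟩
  intro t ht _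
  obtain ⟨s, _, rfl⟩ := List.mem_map.1 ht
  have h1 : rem m Q s < Q ^ (alph m).length := by
    refine digits_bound Q _ (fun p => lf m s (5 + p)) fun p => ?_
    unfold lf
    rw [if_neg (by omega), if_neg (by omega), if_neg (by omega), if_neg (by omega),
            if_neg (by omega)]
    rw [Nat.add_sub_cancel_left, List.getElem?_eq_getElem p.2]
    simp only [Option.elim_some]
    split_ifs <;> omega
  refine lt_of_lt_of_le h1 ?_
  exact Nat.pow_le_pow_right (by omega) (by omega)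

/-- Completeness of the certificates. -/
theorem exists_cert (m k : ℕ) (us : ℕ → MM) (hus : ∀ j, us j ∈ RR m) (z : MM) (hz : z ∈ RR m)
    (hzI : z ∉ Idl m (Set.range us)) :
    ∃ (L : List GE) (A : ℕ × ℕ × ℕ) (A' : ℕ × ℕ) (tab : List (Letter × ℕ)), HC A tab ∧
      SCert m k (fun j => emb (us j)) (emb z) (wLc A tab) (wKc A') L := by
  classical
  obtain ⟨L1, L2, L3, d, BB⟩ := exists_basis m k us hus
  set L := LL k L1 L2 L3 with hL
  have cls : ∀ x ∈ L, (x ∈ L1 ++ L2 ++ L3) ∨ (x ∈ L4 k) := by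
    intro x hx
    simp only [hL, LL, List.mem_append] at hx ⊢
    tauto
  have hld : ∀ x ∈ L, IsLd m (GE.g x) (GE.c x, GE.ν x) := by
    intro x hx
    rcases cls x hx with hx | hx
    · exact ld123 BB hx
    · obtain ⟨j, _, _, h1, h2, h3⟩ := mem_L4 hx
      rw [h1, h2, h3]; exact bas_IsLd _ _
  have hopU : ∀ x ∈ L4 k, ∀ w : List Letter, (∀ s ∈ w, s ∈ levS m (GE.lev x)) →
      opW w (GE.g x) ∈ UU m k := by
    intro x hx w hw
    obtain ⟨j, hj, h1, h2, h3, h4⟩ := mem_L4 hx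
    rw [h4]
    exact opW_stable _ (levS m 3) opS_UU (by rw [h1] at hw; exact hw) (e_mem_UU hj)
  have hVf : ∀ x ∈ L, ∀ w : List Letter, (∀ s ∈ w, s ∈ levS m (GE.lev x)) →
      opW w (GE.g x) ∈ Vf m k := by
    intro x hx w hw
    rcases cls x hx with hx | hx
    · exact Nt_le_Vf (opW_Nt123 BB hx hw)
    · exact UU_le_Vf (hopU x hx w hw)
  have hNtot : Ntot (famOf m L) ≤ Nt m k us ⊔ UU m k := by
    apply Submodule.span_le.2
    rintro v ⟨⟨x, hx⟩, w, hw, rfl⟩
    rcases cls x hx with hx' | hx'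
    · exact Submodule.mem_sup_left (opW_Nt123 BB hx' hw)
    · exact Submodule.mem_sup_right (hopU x hx' w hw)
  -- normal form
  obtain ⟨M, hM⟩ := exists_Klt m (emb z)
  obtain ⟨r, hr1, hr2⟩ := exists_nf m k L hVf hld M (emb z) (emb_RR_Vf hz) hM
  have hr0 : r ≠ 0 := by
    rintro rfl
    rw [sub_zero] at hr1
    exact hzI (mem_II_of_emb hz (hNtot hr1))
  obtain ⟨b, hb, hirr⟩ := hr2.resolve_left hr0
  -- membership of the generators
  have hgen : ∀ j < k, emb (us j) ∈ Ntot (famOf m L) := by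
    intro j hj
    obtain ⟨M, hM⟩ := exists_Klt m (emb (us j) - bas (4 + j) 0)
    have h1 := NK_le_Ntot (div1 BB (e_sub_mem_Nt hus hj) hM)
    obtain ⟨x, hx, e1, e2, e3, e4⟩ := exists_L4 hj
    have h2 : bas (4 + j) 0 ∈ Ntot (famOf m L) := by
      refine Submodule.subset_span ⟨⟨x, by simp [hL, LL, hx]⟩, [], by simp, ?_⟩
      exact e4.symm
    have := Submodule.add_mem _ h1 h2
    simpa using this
  -- stability
  have hstab : ∀ x ∈ L, ∀ i < 2 * m, (GE.lev x < 2 ∧ lam i (GE.g x) ∈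
      NT (famOf m L) (levS m (GE.lev x))) ∨ (2 ≤ GE.lev x ∧ GE.g x ∈ Vge) := by
    intro x hx i hi
    rcases cls x hx with hx | hx
    · rcases List.mem_append.1 hx with hx | hx
      · rcases List.mem_append.1 hx with hx | hx
        · obtain ⟨e1, e2, e3⟩ := BB.h1 x hx
          left
          rw [e1]
          refine ⟨by norm_num, ?_⟩
          obtain ⟨M, hM⟩ := exists_Klt m (lam i (GE.g x))
          exact NK_le_NT (div0 BB (lam_KE hi e2) hM)
        · obtain ⟨e1, e2, e3, e4⟩ := BB.h2 x hx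
          left
          rw [e1]
          refine ⟨by norm_num, ?_⟩
          obtain ⟨M, hM⟩ := exists_Klt m (lam i (GE.g x))
          exact NK_le_NT (div1 BB (lam_Nt hi e2) hM)
      · obtain ⟨e1, e2, e3⟩ := BB.h3 x hx
        right
        rw [e1]
        exact ⟨le_rfl, fun b hb => (e2.1 b hb).2⟩
    · obtain ⟨j, hj, h1, h2, h3, h4⟩ := mem_L4 hx
      right
      rw [h1, h4]
      exact ⟨by norm_num, bas_mem_Vge (by omega)⟩
  -- choose the base
  have ev1 : ∀ᶠ Q in Filter.atTop, ∀ x ∈ L, IsLead (wLQ m Q) (wKQ m Q) (GE.g x) (GE.c x)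
      (GE.ν x) := by
    have : ∀ᶠ Q in Filter.atTop, ∀ x ∈ L.toFinset, IsLead (wLQ m Q) (wKQ m Q) (GE.g x) (GE.c x)
      (GE.ν x) := by
      rw [Filter.eventually_all_finset]
      intro x hx
      exact (hld x (List.mem_toFinset.1 hx)).eventually
    filter_upwards [this] with Q hQ x hx
    exact hQ x (List.mem_toFinset.2 hx)
  have ev2 : ∀ᶠ Q in Filter.atTop, ∀ x ∈ L, ∀ y ∈ L, ∀ a b : Multiset Letter,
      (∀ s ∈ a, s ∈ levS m (GE.lev x)) →
      (∀ s ∈ b, s ∈ levS m (GE.lev y)) → GE.c x = GE.c y → a + GE.ν x = b + GE.ν y →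
      Disjoint a b →
      ∃ la lb : List Letter, (la : Multiset Letter) = a ∧ (lb : Multiset Letter) = b ∧
      ∃ p q : ℚ, p ≠ 0 ∧ q ≠ 0 ∧ p • opW la (GE.g x) - q • opW lb (GE.g y) ∈
        N (wLQ m Q) (wKQ m Q) (famOf m L) (levS m (GE.lev x) ∩ levS m (GE.lev y))
          (wM (wLQ m Q) a + wt (wLQ m Q) (wKQ m Q) (GE.c x, GE.ν x)) := by
    have : ∀ᶠ Q in Filter.atTop, ∀ x ∈ L.toFinset, ∀ y ∈ L.toFinset, ∀ a b : Multiset Letter,
      (∀ s ∈ a, s ∈ levS m (GE.lev x)) →
      (∀ s ∈ b, s ∈ levS m (GE.lev y)) → GE.c x = GE.c y → a + GE.ν x = b + GE.ν y →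
      Disjoint a b →
      ∃ la lb : List Letter, (la : Multiset Letter) = a ∧ (lb : Multiset Letter) = b ∧
      ∃ p q : ℚ, p ≠ 0 ∧ q ≠ 0 ∧ p • opW la (GE.g x) - q • opW lb (GE.g y) ∈
        N (wLQ m Q) (wKQ m Q) (famOf m L) (levS m (GE.lev x) ∩ levS m (GE.lev y))
          (wM (wLQ m Q) a + wt (wLQ m Q) (wKQ m Q) (GE.c x, GE.ν x)) := by
      rw [Filter.eventually_all_finset]
      intro x hx
      rw [Filter.eventually_all_finset]
      intro y hy
      exact (kpair BB x y (List.mem_toFinset.1 hx) (List.mem_toFinset.1 hy)).eventually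
    filter_upwards [this] with Q hQ x hx y hy
    exact hQ x (List.mem_toFinset.2 hx) y (List.mem_toFinset.2 hy)
  have ev3 : ∀ᶠ Q in Filter.atTop, IsLead (wLQ m Q) (wKQ m Q) r b.1 b.2 := hb.eventually
  obtain ⟨Q, h1, h2, h3, h4⟩ := (ev1.and (ev2.and (ev3.and
    (Filter.eventually_ge_atTop 2)))).exists
  have eL : wLQ m Q = wLc (Q ^ ((alph m).length + 1), Q ^ ((alph m).length + 2),
      Q ^ ((alph m).length + 3)) ((alph m).map fun s => (s, rem m Q s)) :=
    funext fun s => wLQ_eq m Q s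
  have eK : wKQ m Q = wKc (Q ^ ((alph m).length + 4), Q ^ (alph m).length) :=
    funext fun c => wKQ_eq m Q c
  refine ⟨L, _, (Q ^ ((alph m).length + 4), Q ^ (alph m).length), _, HC_rem m Q h4, ?_⟩
  rw [← eL, ← eK]
  refine ⟨h1, h2, hstab, hgen, r, hr1, b, hb.1, fun b' hb' => ?_, hirr⟩
  by_cases hne : b' = b
  · rw [hne]
  · exact (h3.2 b' hb' hne).le

end

end Pool.Agent.Lib.MP_79b5eb_lc.M2
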