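import Pool.Agent.Lib.MP_79b5eb_lc.M2.CertS1
import Pool.Agent.Lib.MP_79b5eb_lc.M2.Exist3

/-!
The existence of certificates is an existential statement, continued.
-/

set_option autoImplicit false

namespace Pool.Agent.Lib.MP_79b5eb_lc.M2

instance pcGE : Primcodable GE := inferInstance
instance pcWD : Primcodable WD := inferInstance
instance pcArg : Primcodable (ℕ × List SL × SL) := inferInstance
instance pcCert : Primcodable (List GE × WD) := inferInstance

/-! ### Stability -/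

def vgeB (L : SL) : Bool := L.all fun t => (!(nzB L t.2)) || decide (4 ≤ t.2.1)

@[fun_prop] theorem p_vgeB {α : Type*} [Primcodable α] {f : α → SL} (hf : Primrec f) :
    Primrec fun a => vgeB (f a) := by unfold vgeB; fun_prop

theorem vgeB_iff (L : SL) : vgeB L = true ↔ sval L ∈ Vge := by
  change _ ↔ ∀ b, (sval L) b ≠ 0 → 4 ≤ b.1
  rw [all_supp L fun b => 4 ≤ b.1]
  unfold vgeB
  rw [List.all_eq_true]
  refine forall₂_congr fun t _ => ?_
  rw [Bool.or_eq_true, Bool.not_eq_true', ← Bool.not_eq_true, decide_eq_true_eq]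
  tauto

def StabC (m : ℕ) (L : List GE) (x : GE) (i : ℕ) : Prop :=
  (x.lev < 2 ∧ lam i x.g ∈ NT (famOf m L) (levS m x.lev)) ∨ (2 ≤ x.lev ∧ x.g ∈ Vge)

theorem StabC_iff (m : ℕ) (L : List GE) (x : GE) (i : ℕ) : StabC m L x i ↔
    (decide (x.1 < 2) = true ∧ sval (lamL i x.2.2) ∈ NT (famOf m L) (levS m x.1)) ∨
      (decide (2 ≤ x.1) && vgeB x.2.2) = true := by
  rw [sval_lamL, Bool.and_eq_true, vgeB_iff, decide_eq_true_eq, decide_eq_true_eq]
  rfl

section s1
variable {α : Type*} [Primcodable α]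

theorem S1_StabC {fm fi : α → ℕ} {fL : α → List GE} {fx : α → GE}
    (h1 : Primrec fm) (h2 : Primrec fL) (h3 : Primrec fx) (h4 : Primrec fi) :
    S1 fun a => StabC (fm a) (fL a) (fx a) (fi a) := by
  refine S1.of_eq (S1.or (S1.and (S1.of_bool (f := fun a => decide ((fx a).1 < 2)) (by fun_prop)
    fun _ => Iff.rfl) (S1_NT (fm := fm) (fl := fun a => (fx a).1) (fL := fL)
      (fv := fun a => lamL (fi a) (fx a).2.2) h1 (by fun_prop) h2 (by fun_prop)))
    (S1.of_bool (f := fun a => (decide (2 ≤ (fx a).1) && vgeB (fx a).2.2)) (by fun_prop)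
      fun _ => Iff.rfl)) fun a => (StabC_iff _ _ _ _).symm

end s1

/-! ### Normal forms -/

def redB (m : ℕ) (x : GE) (t : Tm) : Bool :=
  decide (t.1 = x.2.1.1) && (t.2 ++ x.2.1.2).all fun s => decide (cntL s x.2.1.2 ≤ cntL s t.2) &&
    (levB m x.1 s || decide (cntL s x.2.1.2 = cntL s t.2))

@[fun_prop] theorem p_redB {α : Type*} [Primcodable α] {f : α → ℕ} {g : α → GE} {h : α → Tm}
    (hf : Primrec f) (hg : Primrec g) (hh : Primrec h) :
    Primrec fun a => redB (f a) (g a) (h a) := by unfold redB; fun_prop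

theorem redB_iff (m : ℕ) (x : GE) (t : Tm) : redB m x t = true ↔
    ∃ w : List Letter, (∀ s ∈ w, s ∈ levS m (GE.lev x)) ∧
      ((t.1, (t.2 : Multiset Letter)) : B) = (x.c, ↑w + x.ν) := by
  unfold redB
  rw [Bool.and_eq_true, decide_eq_true_eq, List.all_eq_true]
  constructor
  · rintro ⟨h1, h2⟩
    have h3 : ∀ s, (x.ν).count s ≤ (t.2 : Multiset Letter).count s ∧
        (s ∈ levS m x.lev ∨ (x.ν).count s = (t.2 : Multiset Letter).count s) := by
      intro s
      by_cases hs : s ∈ t.2 ++ x.2.1.2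
      · have := h2 s hs
        rw [Bool.and_eq_true, Bool.or_eq_true, decide_eq_true_eq, decide_eq_true_eq, cntL_eq,
          cntL_eq, levB_iff] at this
        exact this
      · rw [List.mem_append, not_or] at hs
        have e1 : (t.2 : Multiset Letter).count s = 0 :=
          Multiset.count_eq_zero_of_notMem (by simpa using hs.1)
        have e2 : (x.ν).count s = 0 :=
          Multiset.count_eq_zero_of_notMem (by simpa [GE.ν] using hs.2)
        rw [e1, e2]
        exact ⟨le_rfl, Or.inr rfl⟩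
    refine ⟨((t.2 : Multiset Letter) - x.ν).toList, ?_, ?_⟩
    · intro s hs
      rw [Multiset.mem_toList, ← Multiset.count_pos, Multiset.count_sub] at hs
      rcases (h3 s).2 with h | h
      · exact h
      · omega
    · rw [Multiset.coe_toList, Prod.mk.injEq]
      refine ⟨h1, ?_⟩
      exact (Multiset.sub_add_cancel (Multiset.le_iff_count.2 fun s => (h3 s).1)).symm
  · rintro ⟨w, hw, h⟩
    rw [Prod.mk.injEq] at h
    refine ⟨h.1, fun s _ => ?_⟩
    rw [Bool.and_eq_true, Bool.or_eq_true, decide_eq_true_eq, decide_eq_true_eq, cntL_eq,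
          cntL_eq, levB_iff, h.2, Multiset.count_add]
    change (x.ν).count s ≤ _ ∧ (_ ∨ (x.ν).count s = _)
    refine ⟨by omega, ?_⟩
    by_cases hs : s ∈ w
    · exact Or.inl (hw s hs)
    · right
      have e : (w : Multiset Letter).count s = 0 :=
        Multiset.count_eq_zero_of_notMem (by simpa using hs)
      rw [e]
      omega

def NfC (m : ℕ) (L : List GE) (W : WD) (z : V) : Prop :=
  ∃ r : V, z - r ∈ Ntot (famOf m L) ∧ ∃ b, r b ≠ 0 ∧
    (∀ b', r b' ≠ 0 → wt W.wL W.wK b' ≤ wt W.wL W.wK b) ∧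
    ¬ ∃ x ∈ L, ∃ w : List Letter, (∀ s ∈ w, s ∈ levS m (GE.lev x)) ∧ b = (x.c, ↑w + x.ν)

/-- Witnesses: an integer, the code of the remainder, the leading term. -/
abbrev NW : Type := ℕ × SL × Tm

def nfB (m : ℕ) (L : List GE) (W : WD) (t : NW) : Bool :=
  nzB t.2.1 t.2.2 && ((t.2.1.all fun t' => (!(nzB t.2.1 t'.2)) ||
    decide (wtB W t'.2 ≤ wtB W t.2.2)) && L.all fun x => !(redB m x t.2.2))

theorem nfB_iff (m : ℕ) (L : List GE) (W : WD) (t : NW) : nfB m L W t = true ↔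
    (sval t.2.1 (t.2.2.1, (t.2.2.2 : Multiset Letter)) ≠ 0 ∧
    (∀ b', sval t.2.1 b' ≠ 0 → wt W.wL W.wK b' ≤ wt W.wL W.wK (t.2.2.1, (t.2.2.2 : Multiset Letter))) ∧
    ¬ ∃ x ∈ L, ∃ w : List Letter, (∀ s ∈ w, s ∈ levS m (GE.lev x)) ∧
      ((t.2.2.1, (t.2.2.2 : Multiset Letter)) : B) = (x.c, ↑w + x.ν)) := by
  unfold nfB
  rw [Bool.and_eq_true, Bool.and_eq_true, nzB_iff, List.all_eq_true, List.all_eq_true,
    all_supp t.2.1 fun b' => wt W.wL W.wK b' ≤ wt W.wL W.wK (t.2.2.1, (t.2.2.2 : Multiset Letter))]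
  refine and_congr Iff.rfl (and_congr ?_ ?_)
  · refine forall₂_congr fun t' _ => ?_
    rw [Bool.or_eq_true, Bool.not_eq_true', ← Bool.not_eq_true, decide_eq_true_eq, wtB_eq, wtB_eq]
    tauto
  · rw [not_exists]
    refine forall_congr' fun x => ?_
    rw [not_and]
    refine forall_congr' fun _ => ?_
    rw [Bool.not_eq_true', ← Bool.not_eq_true, redB_iff]

theorem NfC_iff (m : ℕ) (L : List GE) (W : WD) (zc : SL) : NfC m L W (sval zc) ↔
    ∃ t : NW, nfB m L W t = true ∧ sval (repL (t.1 + 1) zc ++ negL t.2.1) ∈ Ntot (famOf m L) := by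
  constructor
  · rintro ⟨r, hr, b, hb, h1, h2⟩
    obtain ⟨N, hN, R, hR⟩ := exists_code r
    obtain ⟨n, rfl⟩ := Nat.exists_eq_succ_of_ne_zero hN.ne'
    have hN' : ((n.succ : ℕ) : ℚ) ≠ 0 := by positivity
    have hb' : b = (b.1, (b.2.toList : Multiset Letter)) := by
      rw [Multiset.coe_toList]
    refine ⟨(n, R, b.1, b.2.toList), (nfB_iff _ _ _ _).2 ?_, ?_⟩
    · simp only
      rw [← hb', hR]
      refine ⟨?_, ?_, h2⟩
      · rw [Finsupp.smul_apply, smul_eq_mul]
        exact mul_ne_zero hN' hb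
      · intro b' hb'
        rw [Finsupp.smul_apply, smul_eq_mul] at hb'
        exact h1 b' (right_ne_zero_of_mul hb')
    · simp only
      rw [sval_append, sval_repL, sval_negL, hR, ← sub_eq_add_neg, ← smul_sub]
      exact Submodule.smul_mem _ _ hr
  · rintro ⟨⟨n, R, b, l⟩, h1, h2⟩
    rw [nfB_iff] at h1
    obtain ⟨h3, h4, h5⟩ := h1
    simp only at h2 h3 h4 h5
    have hN' : ((n + 1 : ℕ) : ℚ) ≠ 0 := by positivity
    refine ⟨((n + 1 : ℕ) : ℚ)⁻¹ • sval R, ?_, (b, ↑l), ?_, ?_, h5⟩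
    · have := Submodule.smul_mem _ (((n + 1 : ℕ) : ℚ)⁻¹) h2
      rw [sval_append, sval_repL, sval_negL, ← sub_eq_add_neg, smul_sub, smul_smul,
        inv_mul_cancel₀ hN', one_smul] at this
      exact this
    · rw [Finsupp.smul_apply, smul_eq_mul]
      exact mul_ne_zero (inv_ne_zero hN') h3
    · intro b' hb'
      rw [Finsupp.smul_apply, smul_eq_mul] at hb'
      exact h4 b' (right_ne_zero_of_mul hb')

section s1
variable {α : Type*} [Primcodable α]

theorem S1_NfC {fm : α → ℕ} {fL : α → List GE} {fW : α → WD} {fz : α → SL}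
    (h1 : Primrec fm) (h2 : Primrec fL) (h3 : Primrec fW) (h4 : Primrec fz) :
    S1 fun a => NfC (fm a) (fL a) (fW a) (sval (fz a)) := by
  refine S1.of_eq (S1.exists (p := fun a (t : NW) => nfB (fm a) (fL a) (fW a) t = true ∧
    sval (repL (t.1 + 1) (fz a) ++ negL t.2.1) ∈ Ntot (famOf (fm a) (fL a))) ?_)
    fun a => (NfC_iff _ _ _ _).symm
  refine S1.and (S1.of_bool (f := fun x => nfB (fm x.1) (fL x.1) (fW x.1) x.2)
    (by unfold nfB; fun_prop) fun _ => Iff.rfl) ?_
  exact S1_Ntot (fm := fun x : α × NW => fm x.1) (fL := fun x => fL x.1)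
    (fv := fun x => repL (x.2.1 + 1) (fz x.1) ++ negL x.2.2.1) (by fun_prop) (by fun_prop)
    (by fun_prop)

end s1

/-! ### Certificates -/

def hcB (W : WD) : Bool := decide (0 < W.1.1) &&
  W.2.2.all fun t => (!(decide (t.1.1 = 1))) || decide (t.2 < W.1.1)

@[fun_prop] theorem p_hcB {α : Type*} [Primcodable α] {f : α → WD}
    (hf : Primrec f) : Primrec fun a => hcB (f a) := by unfold hcB; fun_prop

theorem hcB_iff (W : WD) : hcB W = true ↔ HC W.1 W.2.2 := by
  unfold hcB HC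
  rw [Bool.and_eq_true, decide_eq_true_eq, List.all_eq_true]
  refine and_congr Iff.rfl (forall₂_congr fun t _ => ?_)
  rw [Bool.or_eq_true, Bool.not_eq_true', ← Bool.not_eq_true, decide_eq_true_eq,
    decide_eq_true_eq]
  tauto

/-- The full certificates. -/
def CertC (m : ℕ) (us : List SL) (z : SL) (L : List GE) (W : WD) : Prop :=
  (hcB W = true ∧ (L.all fun x => leadB W x) = true) ∧
  ((∀ x ∈ L, ∀ y ∈ L, PairC m L W x y) ∧ (∀ x ∈ L, ∀ i < 2 * m, StabC m L x i)) ∧
  ((∀ u ∈ us, sval u ∈ Ntot (famOf m L)) ∧ NfC m L W (sval z))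

theorem CertC_iff (m : ℕ) (us : List SL) (z : SL) (L : List GE) (W : WD) :
    CertC m us z L W ↔ HC W.1 W.2.2 ∧
      SCert m us.length (fun j => sval (us.getD j [])) (sval z) W.wL W.wK L := by
  unfold CertC
  rw [hcB_iff, List.all_eq_true]
  simp only [leadB_iff]
  constructor
  · rintro ⟨⟨h1, h2⟩, ⟨h3, h4⟩, h5, h6⟩
    refine ⟨h1, ⟨h2, h3, h4, ?_, h6⟩⟩
    intro j hj
    refine h5 _ ?_
    rw [List.getD_eq_getElem _ _ hj]
    exact List.getElem_mem hj
  · rintro ⟨h1, h⟩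
    refine ⟨⟨h1, h.lead⟩, ⟨h.pair, h.stab⟩, ?_, h.nf⟩
    intro u hu
    obtain ⟨j, hj, rfl⟩ := List.mem_iff_getElem.1 hu
    have := h.gen j hj
    rwa [List.getD_eq_getElem _ _ hj] at this

theorem S1_cert : S1 fun a : ℕ × List SL × SL => ∃ t : List GE × WD,
    CertC a.1 a.2.1 a.2.2 t.1 t.2 := by
  refine S1.exists (p := fun (a : ℕ × List SL × SL) (t : List GE × WD) =>
    CertC a.1 a.2.1 a.2.2 t.1 t.2) ?_
  unfold CertC
  refine S1.and (S1.and (S1.of_bool (f := fun x => hcB x.2.2) (by fun_prop) fun _ => Iff.rfl)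
    (S1.of_bool (f := fun x => x.2.1.all fun y => leadB x.2.2 y) (by fun_prop) fun _ => Iff.rfl))
    (S1.and (S1.and ?_ ?_) (S1.and ?_ ?_))
  · refine S1.ball (p := fun (x : (ℕ × List SL × SL) × (List GE × WD)) (y : GE) =>
      ∀ z ∈ x.2.1, PairC x.1.1 x.2.1 x.2.2 y z) ?_ (by fun_prop)
    refine S1.ball (p := fun (x : ((ℕ × List SL × SL) × (List GE × WD)) × GE) (y : GE) =>
      PairC x.1.1.1 x.1.2.1 x.1.2.2 x.2 y) ?_ (by fun_prop)
    exact S1_PairC (fm := fun x : (((ℕ × List SL × SL) × (List GE × WD)) × GE) × GE =>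
      x.1.1.1.1) (by fun_prop) (by fun_prop) (by fun_prop) (by fun_prop) (by fun_prop)
  · refine S1.ball (p := fun (x : (ℕ × List SL × SL) × (List GE × WD)) (y : GE) =>
      ∀ i < 2 * x.1.1, StabC x.1.1 x.2.1 y i) ?_ (by fun_prop)
    refine S1.bforall (p := fun (x : ((ℕ × List SL × SL) × (List GE × WD)) × GE) (i : ℕ) =>
      StabC x.1.1.1 x.1.2.1 x.2 i) ?_ (by fun_prop)
    exact S1_StabC (fm := fun x : (((ℕ × List SL × SL) × (List GE × WD)) × GE) × ℕ =>
      x.1.1.1.1) (by fun_prop) (by fun_prop) (by fun_prop) (by fun_prop)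
  · refine S1.ball (p := fun (x : (ℕ × List SL × SL) × (List GE × WD)) (u : SL) =>
      sval u ∈ Ntot (famOf x.1.1 x.2.1)) ?_ (by fun_prop)
    exact S1_Ntot (fm := fun x : ((ℕ × List SL × SL) × (List GE × WD)) × SL => x.1.1.1)
      (by fun_prop) (by fun_prop) (by fun_prop)
  · exact S1_NfC (fm := fun x : (ℕ × List SL × SL) × (List GE × WD) => x.1.1)
      (by fun_prop) (by fun_prop) (by fun_prop) (by fun_prop)

/-- The certificates characterise non-membership in the ideal. -/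
theorem cert_iff (m : ℕ) (us : List SL) (zc : SL) (ums : ℕ → MM)
    (h0 : ∀ j, us.length ≤ j → ums j = 0) (h1 : ∀ j, ums j ∈ RR m)
    (h2 : ∀ j, emb (ums j) = sval (us.getD j [])) (z : MM) (hz : z ∈ RR m)
    (h3 : emb z = sval zc) :
    (∃ t : List GE × WD, CertC m us zc t.1 t.2) ↔ z ∉ Idl m (Set.range ums) := by
  have h2' : (fun j => sval (us.getD j [])) = fun j => emb (ums j) := funext fun j => (h2 j).symm
  constructor
  · rintro ⟨⟨L, W⟩, h⟩
    rw [CertC_iff, h2', ← h3] at h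
    exact SCert.sound (fun s s' hs hs' => h.1.hc s s' hs hs') h.2 h0
  · intro h
    obtain ⟨L, A, A', tab, hh, h⟩ := exists_cert m us.length ums h1 z hz h
    refine ⟨(L, A, A', tab), ?_⟩
    rw [CertC_iff, h2', ← h3]
    exact ⟨hh, h⟩

end Pool.Agent.Lib.MP_79b5eb_lc.M2
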