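import Pool.Agent.Lib.MP_79b5eb_lc.M2.Ord

/-!
Codes of elements with integral coefficients, semantic certificates.
-/

set_option autoImplicit false

namespace Pool.Agent.Lib.MP_79b5eb_lc.M2

/-- Terms: a component and a list of letters. -/
abbrev Tm : Type := ℕ × List Letter
/-- Signed lists of terms. -/
abbrev SL : Type := List (Bool × Tm)

noncomputable def tval (t : Tm) : V := bas t.1 ↑t.2
noncomputable def stval (t : Bool × Tm) : V := if t.1 then tval t.2 else - tval t.2
noncomputable def sval (L : SL) : V := (L.map stval).sum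

@[simp] theorem sval_nil : sval [] = 0 := rfl
@[simp] theorem sval_cons (t : Bool × Tm) (L : SL) : sval (t :: L) = stval t + sval L := by
  simp [sval]
@[simp] theorem sval_append (L L' : SL) : sval (L ++ L') = sval L + sval L' := by
  simp [sval]

/-- Every element has a positive multiple with a code. -/
theorem exists_code (v : V) : ∃ N : ℕ, 0 < N ∧ ∃ L : SL, sval L = (N : ℚ) • v := by
  induction v using Finsupp.induction_linear with
  | zero => exact ⟨1, Nat.one_pos, [], by simp⟩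
  | add f g hf hg =>
    obtain ⟨N, hN, L, hL⟩ := hf
    obtain ⟨N', hN', L', hL'⟩ := hg
    have hrep : ∀ (n : ℕ) (L : SL), sval (List.replicate n L).flatten = (n : ℚ) • sval L := by
      intro n L
      induction n with
      | zero => simp
      | succ n ih =>
        rw [List.replicate_succ, List.flatten_cons, sval_append, ih]
        push_cast
        rw [add_smul, one_smul, add_comm]
    refine ⟨N * N', Nat.mul_pos hN hN',
      (List.replicate N' L).flatten ++ (List.replicate N L').flatten, ?_⟩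
    rw [sval_append, hrep, hrep, hL, hL', smul_add, smul_smul, smul_smul]
    push_cast
    rw [mul_comm (N' : ℚ) N]
  | single b q =>
    obtain ⟨c, μ⟩ := b
    obtain ⟨l, rfl⟩ : ∃ l : List Letter, (l : Multiset Letter) = μ := Quotient.exists_rep μ
    have hs : ∀ (n : ℕ) (s : Bool), sval (List.replicate n (s, (c, l))) =
        (n : ℚ) • stval (s, (c, l)) := by
      intro n s
      induction n with
      | zero => simp
      | succ n ih =>
        rw [List.replicate_succ, sval_cons, ih]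
        push_cast
        rw [add_smul, one_smul, add_comm]
    refine ⟨q.den, q.den_pos, List.replicate q.num.natAbs (decide (0 ≤ q.num), (c, l)), ?_⟩
    rw [hs]
    have h1 : (Finsupp.single (c, (l : Multiset Letter)) q : V) = q • bas c ↑l := by
      simp [bas]
    rw [h1, smul_smul, Rat.den_mul_eq_num]
    by_cases h : 0 ≤ q.num
    · simp only [stval, h, decide_true, if_true, tval]
      congr 1
      rw [Nat.cast_natAbs, abs_of_nonneg h]
    · simp only [stval, h, decide_false, Bool.false_eq_true, if_false, tval, smul_neg]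
      rw [← neg_smul]
      congr 1
      rw [Nat.cast_natAbs, abs_of_nonpos (by omega)]
      push_cast
      rw [neg_neg]

/-- Marked elements: level, leading term, code. -/
abbrev GE : Type := ℕ × Tm × SL

noncomputable def GE.g (x : GE) : V := sval x.2.2
def GE.c (x : GE) : ℕ := x.2.1.1
def GE.l (x : GE) : List Letter := x.2.1.2
def GE.ν (x : GE) : Multiset Letter := (x.2.1.2 : Multiset Letter)
def GE.lev (x : GE) : ℕ := x.1

def levS (m l : ℕ) : Set Letter :=
  if l = 0 then Ay m ∪ At m else if l = 1 then At m else if l = 2 then At m ∪ Ax m else Ax m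

noncomputable def famOf (m : ℕ) (L : List GE) : Fam {x // x ∈ L} where
  g x := GE.g x.1
  c x := GE.c x.1
  ν x := GE.ν x.1
  S x := levS m (GE.lev x.1)

/-- The weights. -/
def wLc (A : ℕ × ℕ × ℕ) (tab : List (Letter × ℕ)) (s : Letter) : ℕ :=
  (if s.1 ≤ 1 then A.1 else if s.1 ≤ 3 then A.2.1 else if s.1 = 4 then A.2.2 else 0) +
    (tab.lookup s).getD 0
def wKc (A : ℕ × ℕ) (c : ℕ) : ℕ := (if c < 4 then A.1 else 0) + c * A.2

/-- Semantic certificates for `z` not in the ideal generated by the `us j`, `j < k`. -/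
structure SCert (m k : ℕ) (us : ℕ → V) (z : V) (wL : Letter → ℕ) (wK : ℕ → ℕ)
    (L : List GE) : Prop where
  lead : ∀ x ∈ L, IsLead wL wK x.g x.c x.ν
  pair : ∀ x ∈ L, ∀ y ∈ L, ∀ a b : Multiset Letter, (∀ s ∈ a, s ∈ levS m x.lev) →
    (∀ s ∈ b, s ∈ levS m y.lev) → x.c = y.c → a + x.ν = b + y.ν → Disjoint a b →
    ∃ la lb : List Letter, (la : Multiset Letter) = a ∧ (lb : Multiset Letter) = b ∧
    ∃ p q : ℚ, p ≠ 0 ∧ q ≠ 0 ∧ p • opW la x.g - q • opW lb y.g ∈
      N wL wK (famOf m L) (levS m x.lev ∩ levS m y.lev) (wM wL a + wt wL wK (x.c, x.ν))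
  stab : ∀ x ∈ L, ∀ i < 2 * m, (x.lev < 2 ∧ lam i x.g ∈ NT (famOf m L) (levS m x.lev)) ∨
    (2 ≤ x.lev ∧ x.g ∈ Vge)
  gen : ∀ j < k, us j ∈ Ntot (famOf m L)
  nf : ∃ r : V, z - r ∈ Ntot (famOf m L) ∧ ∃ b, r b ≠ 0 ∧
    (∀ b', r b' ≠ 0 → wt wL wK b' ≤ wt wL wK b) ∧
    ¬ ∃ x ∈ L, ∃ w : List Letter, (∀ s ∈ w, s ∈ levS m (GE.lev x)) ∧ b = (x.c, ↑w + x.ν)

theorem levS_comm {m l : ℕ} {s s' : Letter} (hs : s ∈ levS m l) (_hs' : s' ∈ levS m l)
    (h0 : s.1 = 0) (_h0' : s'.1 = 0) (hlt : s'.2.1 < s.2.1) : (1, s.2.1, s'.2.1) ∈ levS m l := by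
  have h1 : s ∈ Ax m → (1, s.2.1, s'.2.1) ∈ Ax m := by
    rintro (h | h)
    · exact Or.inr ⟨rfl, h.2.1, hlt⟩
    · omega
  have h2 : s ∉ At m := by rintro (h | h) <;> omega
  have h3 : s ∉ Ay m := by rintro ⟨h, _⟩; omega
  unfold levS at *
  split_ifs at * with e1 e2 e3
  · rcases hs with h | h
    · exact absurd h h3
    · exact absurd h h2
  · exact absurd hs h2
  · rcases hs with h | h
    · exact absurd h h2
    · exact Or.inr (h1 h)
  · exact h1 hs

theorem levS_ne {m l : ℕ} (hl : l < 2) {s : Letter} (hs : s ∈ levS m l) : s.1 ≠ 0 := by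
  unfold levS at hs
  split_ifs at hs
  · rcases hs with ⟨h, _⟩ | (h | h) <;> omega
  · rcases hs with h | h <;> omega
  · omega
  · omega

theorem levS_x {m l i : ℕ} (hl : 2 ≤ l) (hi : i < 2 * m) : (0, i, 0) ∈ levS m l := by
  unfold levS
  rw [if_neg (by omega), if_neg (by omega)]
  split_ifs
  · exact Or.inr (Or.inl ⟨rfl, hi, rfl⟩)
  · exact Or.inl ⟨rfl, hi, rfl⟩

/-- Soundness of the certificates. -/
theorem SCert.sound {m k : ℕ} {us : ℕ → MM} {z : MM} {wL : Letter → ℕ} {wK : ℕ → ℕ}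
    {L : List GE} (hc : ∀ s s' : Letter, s.1 = 0 → s'.1 = 0 →
      wL (1, s.2.1, s'.2.1) < wL s + wL s')
    (h : SCert m k (fun j => emb (us j)) (emb z) wL wK L) (hus : ∀ j, k ≤ j → us j = 0) :
    z ∉ Idl m (Set.range us) := by
  intro hz
  have hN : emb z ∈ Ntot (famOf m L) := by
    refine Idl_sound m _ _ (fun i hi v hv => ?_) ?_ hz
    · refine lam_Ntot (famOf m L) i (fun x => ?_) hv
      rcases h.stab x.1 x.2 i hi with ⟨h1, h2⟩ | ⟨h1, h2⟩
      · exact Or.inl ⟨fun s hs => levS_ne h1 hs, h2⟩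
      · exact Or.inr ⟨h2, levS_x h1 hi⟩
    · rintro _ ⟨j, rfl⟩
      by_cases hj : j < k
      · exact h.gen j hj
      · rw [hus j (by omega)]; simp
  obtain ⟨r, hr, b, hb, hmax, hirr⟩ := h.nf
  have hr' : r ∈ Ntot (famOf m L) := by
    have := Submodule.sub_mem _ hN hr
    simpa using this
  obtain ⟨x, w, hw, he⟩ := crit hc (famOf m L)
    (fun x s hs s' hs' h0 h0' hlt => levS_comm hs hs' h0 h0' hlt)
    (fun x => h.lead x.1 x.2)
    (fun x y a b ha hb hcc he hd => h.pair x.1 x.2 y.1 y.2 a b ha hb hcc he hd) r hr' b hb hmax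
  exact hirr ⟨x.1, x.2, w, hw, he⟩

end Pool.Agent.Lib.MP_79b5eb_lc.M2
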