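import Pool.Agent.Lib.MP_79b5eb_lc.M2.Free

/-!
The multi-level Buchberger criterion.
-/

set_option autoImplicit false

namespace Pool.Agent.Lib.MP_79b5eb_lc.M2

/-- A family of elements with marked leading terms and levels. -/
structure Fam (ι : Type) where
  g : ι → V
  c : ι → ℕ
  ν : ι → Multiset Letter
  S : ι → Set Letter

section
variable (wL : Letter → ℕ) (wK : ℕ → ℕ)

def wM (μ : Multiset Letter) : ℕ := (μ.map wL).sum
def wt (b : B) : ℕ := wK b.1 + wM wL b.2

@[simp] theorem wM_zero : wM wL 0 = 0 := by simp [wM]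
@[simp] theorem wM_cons (s : Letter) (μ : Multiset Letter) :
    wM wL (s ::ₘ μ) = wL s + wM wL μ := by simp [wM]
theorem wM_add (μ ν : Multiset Letter) : wM wL (μ + ν) = wM wL μ + wM wL ν := by simp [wM]

def Vlt (M : ℕ) : Submodule ℚ V where
  carrier := {v | ∀ b, v b ≠ 0 → wt wL wK b < M}
  zero_mem' := by intro b h; simp at h
  add_mem' := by
    intro x y hx hy b h
    rw [Finsupp.add_apply] at h
    by_cases h1 : x b = 0
    · exact hy b (by rw [h1, zero_add] at h; exact h)
    · exact hx b h1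
  smul_mem' := by
    intro a x hx b h
    rw [Finsupp.smul_apply] at h
    exact hx b (by intro h0; rw [h0] at h; simp at h)

variable {wL wK}

theorem mem_Vlt {M : ℕ} {v : V} : v ∈ Vlt wL wK M ↔ ∀ b, v b ≠ 0 → wt wL wK b < M := Iff.rfl

theorem Vlt_mono {M M' : ℕ} (h : M ≤ M') : Vlt wL wK M ≤ Vlt wL wK M' :=
  fun _ hv b hb => lt_of_lt_of_le (hv b hb) h

theorem bas_apply (c : ℕ) (μ : Multiset Letter) (b : B) :
    (bas c μ) b = if (c, μ) = b then 1 else 0 := by
  simp [bas, Finsupp.single_apply]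

theorem bas_mem_Vlt {c : ℕ} {μ : Multiset Letter} {M : ℕ} (h : wt wL wK (c, μ) < M) :
    bas c μ ∈ Vlt wL wK M := by
  intro b hb
  rw [bas_apply] at hb
  by_cases h' : (c, μ) = b
  · rw [← h']; exact h
  · simp [h'] at hb

/-- It is enough to look at the basis. -/
theorem map_Vlt {f : V →ₗ[ℚ] V} {k : ℕ}
    (h : ∀ c μ, f (bas c μ) ∈ Vlt wL wK (wt wL wK (c, μ) + k + 1))
    {M : ℕ} {v : V} (hv : v ∈ Vlt wL wK M) : f v ∈ Vlt wL wK (M + k) := by
  have : v = v.sum fun b r => r • bas b.1 b.2 := by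
    conv_lhs => rw [← Finsupp.sum_single v]
    refine Finsupp.sum_congr fun b _ => ?_
    simp [bas]
  rw [this, map_finsuppSum]
  refine Submodule.sum_mem _ fun b hb => ?_
  change f (v b • bas b.1 b.2) ∈ _
  rw [map_smul]
  refine Submodule.smul_mem _ _ ?_
  have h1 : wt wL wK (b.1, b.2) < M := hv b (Finsupp.mem_support_iff.1 hb)
  exact Vlt_mono (by omega) (h b.1 b.2)

theorem mulS_low (s : Letter) (c : ℕ) (μ : Multiset Letter) :
    mulS s (bas c μ) ∈ Vlt wL wK (wt wL wK (c, μ) + wL s + 1) := by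
  rw [mulS_bas]
  apply bas_mem_Vlt
  simp only [wt, wM_cons]
  omega

theorem mulS_Vlt (s : Letter) {M : ℕ} {v : V} (hv : v ∈ Vlt wL wK M) :
    mulS s v ∈ Vlt wL wK (M + wL s) :=
  map_Vlt (mulS_low s) hv

variable (hc : ∀ s s' : Letter, s.1 = 0 → s'.1 = 0 → wL (1, s.2.1, s'.2.1) < wL s + wL s')

include hc in
theorem der_low (s : Letter) (hs : s.1 = 0) (c : ℕ) (μ : Multiset Letter) :
    der s.2.1 (bas c μ) ∈ Vlt wL wK (wt wL wK (c, μ) + wL s) := by
  rw [der_bas, derB]
  refine multiset_sum_mem _ fun v hv => ?_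
  obtain ⟨s', hs', rfl⟩ := Multiset.mem_map.1 hv
  rw [Multiset.mem_filter] at hs'
  apply bas_mem_Vlt
  have h1 := hc s s' hs hs'.2.1
  have h2 : wM wL μ = wL s' + wM wL (μ.erase s') := by
    rw [← wM_cons, Multiset.cons_erase hs'.1]
  simp only [wt, wM_cons]
  omega

include hc in
theorem opS_sub_low (s : Letter) (c : ℕ) (μ : Multiset Letter) :
    opS s (bas c μ) - bas c (s ::ₘ μ) ∈ Vlt wL wK (wt wL wK (c, μ) + wL s) := by
  by_cases h : s.1 = 0
  · rw [opS_of_eq h, mulS_bas, add_sub_cancel_left]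
    exact der_low hc s h c μ
  · rw [opS_of_ne h, mulS_bas, sub_self]
    exact Submodule.zero_mem _

include hc in
theorem opS_Vlt (s : Letter) {M : ℕ} {v : V} (hv : v ∈ Vlt wL wK M) :
    opS s v ∈ Vlt wL wK (M + wL s) := by
  refine map_Vlt (fun c μ => ?_) hv
  have h1 := opS_sub_low (wK := wK) hc s c μ
  have h2 : bas c (s ::ₘ μ) ∈ Vlt wL wK (wt wL wK (c, μ) + wL s + 1) := by
    rw [← mulS_bas]; exact mulS_low s c μ
  have := Submodule.add_mem _ (Vlt_mono (Nat.le_succ _) h1) h2
  simpa using this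

include hc in
theorem opW_Vlt (w : List Letter) {M : ℕ} {v : V} (hv : v ∈ Vlt wL wK M) :
    opW w v ∈ Vlt wL wK (M + wM wL w) := by
  induction w with
  | nil => simpa using hv
  | cons s w ih =>
    rw [opW_cons, ← Multiset.cons_coe, wM_cons]
    have := opS_Vlt hc s ih
    exact Vlt_mono (by omega) this

/-- The marked term is the leading term. -/
def IsLead (wL : Letter → ℕ) (wK : ℕ → ℕ) (v : V) (c : ℕ) (ν : Multiset Letter) : Prop :=
  v (c, ν) ≠ 0 ∧ ∀ b, v b ≠ 0 → b ≠ (c, ν) → wt wL wK b < wt wL wK (c, ν)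

theorem IsLead.sub {v : V} {c : ℕ} {ν : Multiset Letter} (h : IsLead wL wK v c ν) :
    v - v (c, ν) • bas c ν ∈ Vlt wL wK (wt wL wK (c, ν)) := by
  intro b hb
  rw [Finsupp.sub_apply, Finsupp.smul_apply, bas_apply] at hb
  by_cases hb' : (c, ν) = b
  · simp [hb'] at hb
  · simp only [hb', if_false, smul_zero, sub_zero] at hb
    exact h.2 b hb (Ne.symm hb')

include hc in
theorem opW_lead {v : V} {c : ℕ} {ν : Multiset Letter} (h : IsLead wL wK v c ν)
    (w : List Letter) :
    opW w v - v (c, ν) • bas c (↑w + ν) ∈ Vlt wL wK (wM wL w + wt wL wK (c, ν)) := by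
  induction w with
  | nil => simpa using h.sub
  | cons s w ih =>
    rw [opW_cons, ← Multiset.cons_coe, Multiset.cons_add, wM_cons]
    have h1 := opS_Vlt hc s ih
    rw [map_sub, map_smul] at h1
    have h2 := Submodule.smul_mem _ (v (c, ν)) (opS_sub_low (wK := wK) hc s c (↑w + ν))
    have h3 : wM wL w + wt wL wK (c, ν) + wL s = wL s + wM wL w + wt wL wK (c, ν) := by ring
    have h4 : wt wL wK (c, ↑w + ν) + wL s = wL s + wM wL w + wt wL wK (c, ν) := by
      simp only [wt, wM_add]; ring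
    rw [h3] at h1
    rw [h4] at h2
    have := Submodule.add_mem _ h1 h2
    rw [smul_sub] at this
    simpa using this

include hc in
theorem opW_mem {v : V} {c : ℕ} {ν : Multiset Letter} (h : IsLead wL wK v c ν)
    (w : List Letter) :
    opW w v ∈ Vlt wL wK (wM wL w + wt wL wK (c, ν) + 1) := by
  have h1 := opW_lead hc h w
  have h2 : bas c (↑w + ν) ∈ Vlt wL wK (wM wL w + wt wL wK (c, ν) + 1) := by
    apply bas_mem_Vlt
    simp only [wt, wM_add]; omega
  have := Submodule.add_mem _ (Vlt_mono (Nat.le_succ _) h1)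
    (Submodule.smul_mem _ (v (c, ν)) h2)
  simpa using this

variable {ι : Type} (F : Fam ι)

variable (wL wK) in
/-- Generators of level containing `T` and weight below `M`. -/
def Gen (T : Set Letter) (M : ℕ) : Set V :=
  {z | ∃ i, ∃ w : List Letter, T ⊆ F.S i ∧ (∀ s ∈ w, s ∈ F.S i) ∧
    wM wL w + wt wL wK (F.c i, F.ν i) < M ∧ z = opW w (F.g i)}

variable (wL wK) in
noncomputable def N (T : Set Letter) (M : ℕ) : Submodule ℚ V := Submodule.span ℚ (Gen wL wK F T M)

noncomputable def Ntot : Submodule ℚ V :=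
  Submodule.span ℚ {z | ∃ i, ∃ w : List Letter, (∀ s ∈ w, s ∈ F.S i) ∧ z = opW w (F.g i)}

theorem N_mono {T T' : Set Letter} {M M' : ℕ} (hT : T' ⊆ T) (hM : M ≤ M') :
    N wL wK F T M ≤ N wL wK F T' M' := by
  apply Submodule.span_mono
  rintro z ⟨i, w, h1, h2, h3, h4⟩
  exact ⟨i, w, hT.trans h1, h2, lt_of_lt_of_le h3 hM, h4⟩

theorem N_le_Ntot (T : Set Letter) (M : ℕ) : N wL wK F T M ≤ Ntot F := by
  apply Submodule.span_mono
  rintro z ⟨i, w, _, h2, _, h4⟩
  exact ⟨i, w, h2, h4⟩

theorem exists_N {z : V} (hz : z ∈ Ntot F) : ∃ M, z ∈ N wL wK F ∅ M := by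
  induction hz using Submodule.span_induction with
  | mem x h =>
    obtain ⟨i, w, h1, rfl⟩ := h
    exact ⟨wM wL w + wt wL wK (F.c i, F.ν i) + 1,
      Submodule.subset_span ⟨i, w, Set.empty_subset _, h1, Nat.lt_succ_self _, rfl⟩⟩
  | zero => exact ⟨0, Submodule.zero_mem _⟩
  | add x y _ _ hx hy =>
    obtain ⟨M, hM⟩ := hx
    obtain ⟨M', hM'⟩ := hy
    exact ⟨max M M', Submodule.add_mem _ (N_mono F (le_refl _) (le_max_left _ _) hM)
      (N_mono F (le_refl _) (le_max_right _ _) hM')⟩
  | smul a x _ hx =>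
    obtain ⟨M, hM⟩ := hx
    exact ⟨M, Submodule.smul_mem _ _ hM⟩

theorem opS_N {T : Set Letter} {M : ℕ} {s : Letter} (hs : s ∈ T) {z : V}
    (hz : z ∈ N wL wK F T M) : opS s z ∈ N wL wK F T (M + wL s) := by
  induction hz using Submodule.span_induction with
  | mem x h =>
    obtain ⟨i, w, h1, h2, h3, rfl⟩ := h
    refine Submodule.subset_span ⟨i, s :: w, h1, ?_, ?_, rfl⟩
    · intro s' hs'
      rcases List.mem_cons.1 hs' with rfl | h
      · exact h1 hs
      · exact h2 s' h
    · rw [← Multiset.cons_coe, wM_cons]; omega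
  | zero => simp
  | add x y _ _ hx hy => rw [map_add]; exact Submodule.add_mem _ hx hy
  | smul a x _ hx => rw [map_smul]; exact Submodule.smul_mem _ _ hx

theorem opW_N {T : Set Letter} {M : ℕ} {w : List Letter} (hw : ∀ s ∈ w, s ∈ T) {z : V}
    (hz : z ∈ N wL wK F T M) : opW w z ∈ N wL wK F T (M + wM wL w) := by
  induction w with
  | nil => simpa using hz
  | cons s w ih =>
    rw [opW_cons, ← Multiset.cons_coe, wM_cons]
    have := opS_N F (hw s (by simp)) (ih fun s' hs' => hw s' (by simp [hs']))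
    exact N_mono F (le_refl _) (by omega) this

variable (hS : ∀ i, ∀ s ∈ F.S i, ∀ s' ∈ F.S i, s.1 = 0 → s'.1 = 0 → s'.2.1 < s.2.1 →
  (1, s.2.1, s'.2.1) ∈ F.S i)

include hc hS in
/-- Swapping two letters changes the product by lower terms. -/
theorem swap_N (i : ι) (s s' : Letter) (hs : s ∈ F.S i) (hs' : s' ∈ F.S i) (w : List Letter)
    (hw : ∀ s ∈ w, s ∈ F.S i) :
    opW (s :: s' :: w) (F.g i) - opW (s' :: s :: w) (F.g i) ∈
      N wL wK F (F.S i) (wM wL ↑(s :: s' :: w) + wt wL wK (F.c i, F.ν i)) := by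
  simp only [opW_cons]
  rw [opS_comm s s', add_sub_cancel_left]
  have key : ∀ t t' : Letter, t ∈ F.S i → t' ∈ F.S i → t.1 = 0 → t'.1 = 0 →
      t'.2.1 < t.2.1 → wL t + wL t' = wL s + wL s' →
      mulS (1, t.2.1, t'.2.1) (opW w (F.g i)) ∈
      N wL wK F (F.S i) (wM wL ↑(s :: s' :: w) + wt wL wK (F.c i, F.ν i)) := by
    intro t t' ht ht' h0 h0' hlt he
    refine Submodule.subset_span ⟨i, (1, t.2.1, t'.2.1) :: w, le_refl _, ?_, ?_, ?_⟩
    · intro s'' hs''
      rcases List.mem_cons.1 hs'' with rfl | h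
      · exact hS i t ht t' ht' h0 h0' hlt
      · exact hw _ h
    · have := hc t t' h0 h0'
      rw [← Multiset.cons_coe, ← Multiset.cons_coe, ← Multiset.cons_coe, wM_cons, wM_cons,
        wM_cons]
      omega
    · rw [opW_cons, opS_of_ne (by simp)]
  unfold kap
  by_cases h : s.1 = 0 ∧ s'.1 = 0
  · rw [if_pos h, LinearMap.sub_apply]
    refine Submodule.sub_mem _ ?_ ?_
    · split_ifs with hlt
      · exact key s s' hs hs' h.1 h.2 hlt rfl
      · simp
    · split_ifs with hlt
      · exact key s' s hs' hs h.2 h.1 hlt (by omega)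
      · simp
  · rw [if_neg h]
    simp

include hc hS in
theorem perm_N (i : ι) {w w' : List Letter} (hp : w.Perm w') (hw : ∀ s ∈ w, s ∈ F.S i) :
    opW w (F.g i) - opW w' (F.g i) ∈
      N wL wK F (F.S i) (wM wL w + wt wL wK (F.c i, F.ν i)) := by
  induction hp with
  | nil => simp
  | cons s hp ih =>
    rename_i l₁ l₂
    have h1 := ih fun s' hs' => hw s' (by simp [hs'])
    have h2 := opS_N F (hw s (by simp)) h1
    rw [map_sub] at h2
    simp only [opW_cons]
    rw [← Multiset.cons_coe, wM_cons]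
    exact N_mono F (le_refl _) (by omega) h2
  | swap s s' w => 
    exact swap_N hc F hS i s' s (hw _ (by simp)) (hw _ (by simp)) w
      (fun t ht => hw t (by simp [ht]))
  | trans hp₁ hp₂ ih₁ ih₂ =>
    have h1 := ih₁ hw
    have h2 := ih₂ fun s hs => hw s (hp₁.mem_iff.2 hs)
    rw [← Multiset.coe_eq_coe.2 hp₁] at h2
    have := Submodule.add_mem _ h1 h2
    simpa using this

variable (h1 : ∀ i, IsLead wL wK (F.g i) (F.c i) (F.ν i))
variable (hpair : ∀ i j, ∀ a b : Multiset Letter, (∀ s ∈ a, s ∈ F.S i) → (∀ s ∈ b, s ∈ F.S j) →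
  F.c i = F.c j → a + F.ν i = b + F.ν j → Disjoint a b →
  ∃ la lb : List Letter, (la : Multiset Letter) = a ∧ (lb : Multiset Letter) = b ∧
    ∃ p q : ℚ, p ≠ 0 ∧ q ≠ 0 ∧ p • opW la (F.g i) - q • opW lb (F.g j) ∈
      N wL wK F (F.S i ∩ F.S j) (wM wL a + wt wL wK (F.c i, F.ν i)))

include hc h1 in
theorem N_le_Vlt (T : Set Letter) (M : ℕ) : N wL wK F T M ≤ Vlt wL wK M := by
  apply Submodule.span_le.2
  rintro z ⟨i, w, _, _, h3, rfl⟩
  exact Vlt_mono h3 (opW_mem hc (h1 i) w)

include hc hS hpair in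
theorem pair_N (i j : ι) (w w' : List Letter) (hw : ∀ s ∈ w, s ∈ F.S i)
    (hw' : ∀ s ∈ w', s ∈ F.S j) (hcc : F.c i = F.c j)
    (he : (w : Multiset Letter) + F.ν i = ↑w' + F.ν j) :
    ∃ p q : ℚ, p ≠ 0 ∧ q ≠ 0 ∧ p • opW w (F.g i) - q • opW w' (F.g j) ∈
      N wL wK F ∅ (wM wL w + wt wL wK (F.c i, F.ν i)) := by
  classical
  set δ : Multiset Letter := (w : Multiset Letter) ∩ ↑w' with hδ
  set a : Multiset Letter := ↑w - ↑w' with ha
  set b : Multiset Letter := ↑w' - ↑w with hb
  have hwa : (w : Multiset Letter) = δ + a := by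
    rw [hδ, ha, add_comm, Multiset.sub_add_inter]
  have hwb : (w' : Multiset Letter) = δ + b := by
    rw [hδ, hb, add_comm, Multiset.inter_comm, Multiset.sub_add_inter]
  have hab : Disjoint a b := by
    rw [Multiset.disjoint_iff_ne] 
    rintro x hx y hy rfl
    rw [ha] at hx; rw [hb] at hy
    rw [Multiset.mem_sub] at hx hy
    omega
  have he' : a + F.ν i = b + F.ν j := by
    rw [hwa, hwb, add_assoc, add_assoc] at he
    exact add_left_cancel he
  have hδi : ∀ s ∈ δ, s ∈ F.S i := fun s hs => hw s (by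
    have : s ∈ (w : Multiset Letter) := by rw [hwa]; exact Multiset.mem_add.2 (Or.inl hs)
    exact this)
  have hδj : ∀ s ∈ δ, s ∈ F.S j := fun s hs => hw' s (by
    have : s ∈ (w' : Multiset Letter) := by rw [hwb]; exact Multiset.mem_add.2 (Or.inl hs)
    exact this)
  have hai : ∀ s ∈ a, s ∈ F.S i := fun s hs => hw s (by
    have : s ∈ (w : Multiset Letter) := by rw [hwa]; exact Multiset.mem_add.2 (Or.inr hs)
    exact this)
  have hbj : ∀ s ∈ b, s ∈ F.S j := fun s hs => hw' s (by
    have : s ∈ (w' : Multiset Letter) := by rw [hwb]; exact Multiset.mem_add.2 (Or.inr hs)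
    exact this)
  obtain ⟨la, lb, hla, hlb, p, q, hp, hq, hpq⟩ := hpair i j a b hai hbj hcc he' hab
  set d := δ.toList with hd
  have hdδ : (d : Multiset Letter) = δ := Multiset.coe_toList δ
  have hdT : ∀ s ∈ d, s ∈ F.S i ∩ F.S j := fun s hs => by
    have : s ∈ δ := by rw [← hdδ]; exact hs
    exact ⟨hδi s this, hδj s this⟩
  have h3 := opW_N F hdT hpq
  -- reorder
  have hw1 : w.Perm (d ++ la) := by
    rw [← Multiset.coe_eq_coe, ← Multiset.coe_add, hdδ, hla, ← hwa]
  have hw2 : w'.Perm (d ++ lb) := by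
    rw [← Multiset.coe_eq_coe, ← Multiset.coe_add, hdδ, hlb, ← hwb]
  have e1 := perm_N (wK := wK) hc F hS i hw1 hw
  have e2 := perm_N (wK := wK) hc F hS j hw2 hw'
  have hwt : wM wL w + wt wL wK (F.c i, F.ν i) = wM wL w' + wt wL wK (F.c j, F.ν j) := by
    have := congrArg (wM wL) he
    simp only [wM_add] at this
    simp only [wt, hcc]
    omega
  rw [← hwt] at e2
  have h4 : wM wL a + wt wL wK (F.c i, F.ν i) + wM wL d
      = wM wL w + wt wL wK (F.c i, F.ν i) := by
    rw [hwa, hdδ, wM_add]; ring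
  rw [h4] at h3
  refine ⟨p, q, hp, hq, ?_⟩
  have e1' := Submodule.smul_mem _ p (N_mono (wL := wL) (wK := wK) F (Set.empty_subset _)
    (le_refl _) e1)
  have e2' := Submodule.smul_mem _ q (N_mono (wL := wL) (wK := wK) F (Set.empty_subset _)
    (le_refl _) e2)
  have h3' := N_mono (wL := wL) (wK := wK) F (Set.empty_subset _) (le_refl _) h3
  have h5 : opW d (p • opW la (F.g i) - q • opW lb (F.g j)) =
      p • opW (d ++ la) (F.g i) - q • opW (d ++ lb) (F.g j) := by
    have hlin : ∀ (l : List Letter) (x y : V), opW l (p • x - q • y) = p • opW l x - q • opW l y := by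
      intro l x y
      induction l with
      | nil => rfl
      | cons s l ih => simp [ih]
    rw [hlin, opW_append, opW_append]
  rw [h5] at h3'
  have h6 := Submodule.sub_mem _ (Submodule.add_mem _ h3' e1') e2'
  convert h6 using 1
  module

include hc h1 hS hpair in
theorem rep_aux (i j : ι) (w w' : List Letter) (hw : ∀ s ∈ w, s ∈ F.S i)
    (hw' : ∀ s ∈ w', s ∈ F.S j) (hcc : F.c i = F.c j)
    (he : (w : Multiset Letter) + F.ν i = ↑w' + F.ν j) :
    opW w (F.g i) - F.g i (F.c i, F.ν i) • (F.g j (F.c j, F.ν j))⁻¹ • opW w' (F.g j) ∈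
      N wL wK F ∅ (wM wL w + wt wL wK (F.c i, F.ν i)) := by
  obtain ⟨p, q, hp, hq, hpq⟩ := pair_N hc F hS hpair i j w w' hw hw' hcc he
  have hi := (h1 i).1
  have hj := (h1 j).1
  have e2 := opW_lead (wK := wK) hc (h1 i) w
  have e3 := opW_lead (wK := wK) hc (h1 j) w'
  have e1 := N_le_Vlt hc F h1 _ _ hpq
  generalize F.g i (F.c i, F.ν i) = ci at *
  generalize F.g j (F.c j, F.ν j) = cj at *
  -- compare coefficients at the common monomial
  have hcoef : p * ci = q * cj := by
    have hwt : wM wL w' + wt wL wK (F.c j, F.ν j) = wM wL w + wt wL wK (F.c i, F.ν i) := by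
      have := congrArg (wM wL) he
      simp only [wM_add] at this
      simp only [wt, hcc]
      omega
    rw [hwt] at e3
    have e4 := Submodule.sub_mem _ (Submodule.sub_mem _ e1 (Submodule.smul_mem _ p e2))
      (Submodule.smul_mem _ (-q) e3)
    have e5 : p • opW w (F.g i) - q • opW w' (F.g j)
        - p • (opW w (F.g i) - ci • bas (F.c i) (↑w + F.ν i))
        - (-q) • (opW w' (F.g j) - cj • bas (F.c j) (↑w' + F.ν j))
        = (p * ci - q * cj) • bas (F.c i) (↑w + F.ν i) := by
      rw [← hcc, ← he]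
      module
    rw [e5] at e4
    by_contra hne
    have := e4 (F.c i, ↑w + F.ν i) (by
      rw [Finsupp.smul_apply, bas_apply, if_pos rfl, smul_eq_mul, mul_one]
      exact sub_ne_zero.2 hne)
    simp only [wt, wM_add] at this
    omega
  have h2 := Submodule.smul_mem _ (p⁻¹) hpq
  convert h2 using 1
  rw [smul_sub, smul_smul, smul_smul, smul_smul, inv_mul_cancel₀ hp, one_smul]
  congr 2
  field_simp
  linear_combination hcoef

open Classical in
/-- chosen representatives of the reducible monomials -/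
noncomputable def rep (b : B) : V :=
  if h : ∃ i, ∃ w : List Letter, (∀ s ∈ w, s ∈ F.S i) ∧ b = (F.c i, ↑w + F.ν i) then
    (F.g h.choose (F.c h.choose, F.ν h.choose))⁻¹ • opW h.choose_spec.choose (F.g h.choose)
  else 0

include hc h1 hS hpair in
theorem rep_spec (i : ι) (w : List Letter) (hw : ∀ s ∈ w, s ∈ F.S i) :
    opW w (F.g i) - F.g i (F.c i, F.ν i) • rep F (F.c i, ↑w + F.ν i) ∈
      N wL wK F ∅ (wM wL w + wt wL wK (F.c i, F.ν i)) := by
  have h : ∃ j, ∃ w' : List Letter, (∀ s ∈ w', s ∈ F.S j) ∧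
      (F.c i, ↑w + F.ν i) = (F.c j, ↑w' + F.ν j) := ⟨i, w, hw, rfl⟩
  unfold rep
  rw [dif_pos h]
  obtain ⟨hw', he⟩ := h.choose_spec.choose_spec
  rw [Prod.mk.injEq] at he
  exact rep_aux hc F hS h1 hpair i _ w _ hw hw' he.1 he.2

include hc h1 hS hpair in
theorem theta_spec (M : ℕ) (z : V) (hz : z ∈ N wL wK F ∅ (M + 1)) :
    z - Finsupp.linearCombination ℚ
      (fun b => if wt wL wK b = M then rep F b else 0) z ∈ N wL wK F ∅ M := by
  induction hz using Submodule.span_induction with
  | mem x h =>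
    obtain ⟨i, w, _, hw, h3, rfl⟩ := h
    rcases Nat.lt_succ_iff_lt_or_eq.1 h3 with h4 | h4
    · have h5 : opW w (F.g i) ∈ N wL wK F ∅ M :=
        Submodule.subset_span ⟨i, w, Set.empty_subset _, hw, h4, rfl⟩
      have h6 := N_le_Vlt hc F h1 _ _ h5
      have h7 : Finsupp.linearCombination ℚ
          (fun b => if wt wL wK b = M then rep F b else 0) (opW w (F.g i)) = 0 := by
        rw [Finsupp.linearCombination_apply]
        refine Finset.sum_eq_zero fun b hb => ?_
        have := h6 b (Finsupp.mem_support_iff.1 hb)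
        change _ • (if wt wL wK b = M then rep F b else 0) = 0
        rw [if_neg (by omega), smul_zero]
      rw [h7, sub_zero]
      exact h5
    · have h5 := rep_spec hc F hS h1 hpair i w hw
      have h6 := opW_lead hc (h1 i) w
      set u := opW w (F.g i)
      set cc := F.g i (F.c i, F.ν i)
      have h7 : Finsupp.linearCombination ℚ
          (fun b => if wt wL wK b = M then rep F b else 0)
            (u - cc • bas (F.c i) (↑w + F.ν i)) = 0 := by
        rw [Finsupp.linearCombination_apply]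
        refine Finset.sum_eq_zero fun b hb => ?_
        have := h6 b (Finsupp.mem_support_iff.1 hb)
        change _ • (if wt wL wK b = M then rep F b else 0) = 0
        rw [if_neg (by omega), smul_zero]
      have h8 : Finsupp.linearCombination ℚ
          (fun b => if wt wL wK b = M then rep F b else 0) (bas (F.c i) (↑w + F.ν i)) =
          rep F (F.c i, ↑w + F.ν i) := by
        rw [bas, Finsupp.linearCombination_single, one_smul, if_pos]
        rw [← h4]; simp only [wt, wM_add]; omega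
      rw [map_sub, map_smul, h8, sub_eq_zero] at h7
      rw [h7]
      rw [h4] at h5
      exact h5
  | zero => simp
  | add x y _ _ hx hy =>
    rw [map_add]
    have := Submodule.add_mem _ hx hy
    convert this using 1
    abel
  | smul a x _ hx =>
    rw [map_smul, ← smul_sub]
    exact Submodule.smul_mem _ _ hx

include hc h1 in
theorem coeff_zero (M : ℕ) (z : V) (hz : z ∈ N wL wK F ∅ (M + 1)) (b : B)
    (hb : wt wL wK b = M)
    (hd : ¬ ∃ i, ∃ w : List Letter, (∀ s ∈ w, s ∈ F.S i) ∧ b = (F.c i, ↑w + F.ν i)) :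
    z b = 0 := by
  induction hz using Submodule.span_induction with
  | mem x h =>
    obtain ⟨i, w, _, hw, h3, rfl⟩ := h
    by_contra hne
    have h6 := opW_lead hc (h1 i) w
    have h7 : b ≠ (F.c i, ↑w + F.ν i) := fun h => hd ⟨i, w, hw, h⟩
    have := h6 b (by
      rw [Finsupp.sub_apply, Finsupp.smul_apply, bas_apply, if_neg (Ne.symm h7)]
      simpa using hne)
    omega
  | zero => rfl
  | add x y _ _ hx hy => rw [Finsupp.add_apply, hx, hy, add_zero]
  | smul a x _ hx => rw [Finsupp.smul_apply, hx, smul_zero]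

include hc h1 hS hpair in
/-- The criterion: the leading monomials of a nonzero element of `Ntot F` are reducible. -/
theorem crit (r : V) (hr : r ∈ Ntot F) (b : B) (hb : r b ≠ 0)
    (hmax : ∀ b', r b' ≠ 0 → wt wL wK b' ≤ wt wL wK b) :
    ∃ i, ∃ w : List Letter, (∀ s ∈ w, s ∈ F.S i) ∧ b = (F.c i, ↑w + F.ν i) := by
  classical
  have hex := exists_N (wL := wL) (wK := wK) F hr
  set M := Nat.find hex with hM
  have hrM : r ∈ N wL wK F ∅ M := Nat.find_spec hex
  have h1' := N_le_Vlt hc F h1 _ _ hrM b hb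
  obtain ⟨M', hM'⟩ : ∃ M', M = M' + 1 := ⟨M - 1, by omega⟩
  by_cases hbM : wt wL wK b = M'
  · by_contra hd
    exact hb (coeff_zero hc F h1 M' r (hM' ▸ hrM) b hbM hd)
  · exfalso
    have h2 : r ∈ Vlt wL wK M' := fun b' hb' => by have := hmax b' hb'; omega
    have h3 := theta_spec hc F hS h1 hpair M' r (hM' ▸ hrM)
    have h4 : Finsupp.linearCombination ℚ
          (fun b => if wt wL wK b = M' then rep F b else 0) r = 0 := by
        rw [Finsupp.linearCombination_apply]
        refine Finset.sum_eq_zero fun b hb => ?_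
        have := h2 b (Finsupp.mem_support_iff.1 hb)
        change _ • (if wt wL wK b = M' then rep F b else 0) = 0
        rw [if_neg (by omega), smul_zero]
    rw [h4, sub_zero] at h3
    have := Nat.find_min hex (m := M') (by omega)
    exact this h3

end

end Pool.Agent.Lib.MP_79b5eb_lc.M2
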