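import Pool.Agent.Lib.MP_79b5eb_lc.M2.Input

/-!
Decidability of the equality problem in the variety `M(2)`.
-/

set_option autoImplicit false

universe u

namespace Pool.Agent.Lib.MP_79b5eb_lc.M2

def posB (x : QI × (SL × (List ℕ × List ℕ))) : Bool :=
  ((x.1.1.map codeP).any fun c => decide (c = x.2.1)) &&
    (x.2.2.1.all (fun i => decide (i < bnd x.1)) && x.2.2.2.all (fun i => decide (i < bnd x.1)))

theorem p_posB : Primrec posB := by
  unfold posB
  refine p_and ?_ (p_and ?_ ?_)
  · exact p_any (g := fun (x : QI × (SL × (List ℕ × List ℕ))) (c : SL) => decide (c = x.2.1))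
      (by fun_prop) (by fun_prop)
  · exact p_all (g := fun (x : QI × (SL × (List ℕ × List ℕ))) (i : ℕ) => decide (i < bnd x.1))
      (by fun_prop) (by fun_prop)
  · exact p_all (g := fun (x : QI × (SL × (List ℕ × List ℕ))) (i : ℕ) => decide (i < bnd x.1))
      (by fun_prop) (by fun_prop)

def posC (x : QI × (SL × (List ℕ × List ℕ))) : SL := lamWL x.2.2.1 x.2.2.2 x.2.1

theorem p_posC : Primrec posC := by
  unfold posC
  exact p_lamWL (by fun_prop) (by fun_prop) (by fun_prop)

theorem S1_pos : S1 fun q : QI => genQ q.2 ∈ JQ (bnd q) q.1 :=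
  S1.of_eq (S1_span (τ := SL × (List ℕ × List ℕ)) p_posB p_posC
    (p_codeP (f := fun q : QI => q.2) (by fun_prop))) fun q => (pos_iff q).symm

/-- The equality problem is decidable in the variety `M(2)`. -/
theorem decidable_two (F : Type u) [Field F] [CharZero F] : EqualityDecidableM F 2 := by
  have h := computable_of_S1 S1_pos S1_neg
  refine ComputablePred.of_eq h fun q => ?_
  exact (holds_iff F q (bnd q) (lt_bnd q)).symm

end Pool.Agent.Lib.MP_79b5eb_lc.M2
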