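import Pool.Agent.Lib.MP_79b5eb_lc.M2.Code

/-!
Existence of certificates.
-/

set_option autoImplicit false

namespace Pool.Agent.Lib.MP_79b5eb_lc.M2

/-! ### Leading terms -/

def Klt (m : ℕ) (M : KT m) : Submodule ℚ V := SupP fun b => key m b < M

theorem Klt_mono {m : ℕ} {M M' : KT m} (h : M ≤ M') : Klt m M ≤ Klt m M' :=
  fun _ hv b hb => lt_of_lt_of_le (hv b hb) h

theorem opS_low (m : ℕ) (s : Letter) (c : ℕ) (μ : Multiset Letter) :
    opS s (bas c μ) - bas c (s ::ₘ μ) ∈ Klt m (key m (c, s ::ₘ μ)) := by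
  by_cases h : s.1 = 0
  · rw [opS_of_eq h, mulS_bas, add_sub_cancel_left, der_bas, derB]
    refine multiset_sum_mem _ fun v hv => ?_
    obtain ⟨s', hs', rfl⟩ := Multiset.mem_map.1 hv
    rw [Multiset.mem_filter] at hs'
    apply bas_mem_SupP
    have e : key m (c, μ) = kl m s' + key m (c, μ.erase s') := by
      rw [← key_cons, Multiset.cons_erase hs'.1]
    rw [key_cons, key_cons, e, ← add_assoc]
    exact add_lt_add_left (kl_lt m h hs'.2.1 _ _) _
  · rw [opS_of_ne h, mulS_bas, sub_self]; exact Submodule.zero_mem _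

theorem opS_Klt {m : ℕ} (s : Letter) {M : KT m} {v : V} (hv : v ∈ Klt m M) :
    opS s v ∈ Klt m (kl m s + M) := by
  refine map_SupP (fun c μ h => ?_) hv
  have h0 : key m (c, s ::ₘ μ) < kl m s + M := by rw [key_cons]; exact add_lt_add_right h _
  have h1 := Klt_mono h0.le (opS_low m s c μ)
  have h2 : bas c (s ::ₘ μ) ∈ Klt m (kl m s + M) := bas_mem_SupP h0
  have := Submodule.add_mem _ h1 h2
  rw [sub_add_cancel] at this
  exact this

/-- `b` is the leading term. -/
def IsLd (m : ℕ) (v : V) (b : B) : Prop := v b ≠ 0 ∧ ∀ b', v b' ≠ 0 → b' ≠ b → key m b' < key m b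

theorem IsLd.sub {m : ℕ} {v : V} {b : B} (h : IsLd m v b) :
    v - v b • bas b.1 b.2 ∈ Klt m (key m b) := by
  intro b' hb
  rw [Finsupp.sub_apply, Finsupp.smul_apply, bas_apply] at hb
  by_cases hb' : b = b'
  · subst hb'; simp at hb
  · simp only [Prod.mk.eta, hb', if_false, smul_zero, sub_zero] at hb
    exact h.2 b' hb (Ne.symm hb')

theorem IsLd_of {m : ℕ} {v : V} {b : B} {a : ℚ} (ha : a ≠ 0)
    (h : v - a • bas b.1 b.2 ∈ Klt m (key m b)) : IsLd m v b ∧ v b = a := by
  have h1 : v b = a := by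
    by_contra hne
    have := h b (by
      rw [Finsupp.sub_apply, Finsupp.smul_apply, bas_apply, if_pos rfl, smul_eq_mul, mul_one]
      exact sub_ne_zero.2 hne)
    exact lt_irrefl _ this
  refine ⟨⟨by rw [h1]; exact ha, fun b' hb' hne => h b' ?_⟩, h1⟩
  rw [Finsupp.sub_apply, Finsupp.smul_apply, bas_apply, if_neg (by simpa using hne.symm)]
  simpa using hb'

theorem opW_IsLd {m : ℕ} {v : V} {b : B} (h : IsLd m v b) (w : List Letter) :
    IsLd m (opW w v) (b.1, ↑w + b.2) ∧ opW w v (b.1, ↑w + b.2) = v b := by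
  induction w with
  | nil => simpa using h
  | cons s w ih =>
    obtain ⟨h1, h2⟩ := ih
    rw [← Multiset.cons_coe, Multiset.cons_add]
    refine IsLd_of (b := (b.1, s ::ₘ (↑w + b.2))) h.1 ?_
    have e1 := opS_Klt s h1.sub
    rw [h2, map_sub, map_smul, ← key_cons] at e1
    have e2 := Submodule.smul_mem _ (v b) (opS_low m s b.1 (↑w + b.2))
    have := Submodule.add_mem _ e1 e2
    rw [smul_sub] at this
    simpa using this

theorem exists_IsLd {m k : ℕ} {v : V} (hv : v ∈ Vf m k) (h0 : v ≠ 0) : ∃ b, IsLd m v b := by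
  have hne : v.support.Nonempty := Finsupp.support_nonempty_iff.2 h0
  obtain ⟨b, hb, hmax⟩ := Finset.exists_max_image v.support (key m) hne
  refine ⟨b, Finsupp.mem_support_iff.1 hb, fun b' hb' hne => ?_⟩
  refine lt_of_le_of_ne (hmax b' (Finsupp.mem_support_iff.2 hb')) fun he => hne ?_
  exact key_inj (hv b' hb') (hv b (Finsupp.mem_support_iff.1 hb)) he

theorem exists_Klt (m : ℕ) (v : V) : ∃ M, v ∈ Klt m M := by
  by_cases h0 : v = 0
  · exact ⟨0, by rw [h0]; exact Submodule.zero_mem _⟩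
  · have hne : v.support.Nonempty := Finsupp.support_nonempty_iff.2 h0
    obtain ⟨b, hb, hmax⟩ := Finset.exists_max_image v.support (key m) hne
    refine ⟨key m (b.1, (0, 0, 0) ::ₘ b.2), fun b' hb' => ?_⟩
    refine lt_of_le_of_lt (hmax b' (Finsupp.mem_support_iff.2 hb')) ?_
    rw [key_cons]
    refine lt_of_kf 3 (by omega) ?_ ?_ |>.trans_eq (key_cons m b.1 (0,0,0) b.2)
    · intro j hj
      rw [kf_cons]
      have : j = 0 ∨ j = 1 ∨ j = 2 := by omega
      rcases this with rfl | rfl | rfl <;> simp [lf, isY, isT]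
    · rw [kf_cons]
      simp [lf, isX]

/-- `key`-bounded spans. -/
noncomputable def NK (m : ℕ) (L : List GE) (T : Set Letter) (M : KT m) : Submodule ℚ V :=
  Submodule.span ℚ {z | ∃ x ∈ L, ∃ w : List Letter, T ⊆ levS m (GE.lev x) ∧
    (∀ s ∈ w, s ∈ levS m (GE.lev x)) ∧ key m (GE.c x, ↑w + GE.ν x) < M ∧ z = opW w (GE.g x)}

theorem NK_mono {m : ℕ} {L L' : List GE} (hL : L ⊆ L') {T T' : Set Letter} (hT : T' ⊆ T)
    {M M' : KT m} (hM : M ≤ M') : NK m L T M ≤ NK m L' T' M' := by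
  apply Submodule.span_mono
  rintro z ⟨x, hx, w, h1, h2, h3, h4⟩
  exact ⟨x, hL hx, w, hT.trans h1, h2, lt_of_lt_of_le h3 hM, h4⟩

theorem NK_le_NT {m : ℕ} {L : List GE} {T : Set Letter} {M : KT m} :
    NK m L T M ≤ NT (famOf m L) T := by
  apply Submodule.span_mono
  rintro z ⟨x, hx, w, h1, h2, h3, h4⟩
  exact ⟨⟨x, hx⟩, w, h1, h2, h4⟩

theorem NK_le_Ntot {m : ℕ} {L : List GE} {T : Set Letter} {M : KT m} :
    NK m L T M ≤ Ntot (famOf m L) := by
  apply Submodule.span_mono
  rintro z ⟨x, hx, w, h1, h2, h3, h4⟩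
  exact ⟨⟨x, hx⟩, w, h2, h4⟩

theorem division {m : ℕ} {L : List GE} {T : Set Letter} (W : Submodule ℚ V)
    (hT : ∀ x ∈ L, T ⊆ levS m (GE.lev x))
    (hW : ∀ x ∈ L, ∀ w : List Letter, (∀ s ∈ w, s ∈ levS m (GE.lev x)) → opW w (GE.g x) ∈ W)
    (hld : ∀ x ∈ L, IsLd m (GE.g x) (GE.c x, GE.ν x))
    (hred : ∀ f ∈ W, f ≠ 0 → ∃ x ∈ L, ∃ w : List Letter, (∀ s ∈ w, s ∈ levS m (GE.lev x)) ∧
      IsLd m f (GE.c x, ↑w + GE.ν x)) (M : KT m) : ∀ f ∈ W, f ∈ Klt m M → f ∈ NK m L T M := by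
  induction M using WellFoundedLT.induction with
  | ind M ih =>
    intro f hf hfM
    by_cases h0 : f = 0
    · rw [h0]; exact Submodule.zero_mem _
    obtain ⟨x, hx, w, hw, hl⟩ := hred f hf h0
    have hbM : key m (GE.c x, ↑w + GE.ν x) < M := hfM _ hl.1
    obtain ⟨h1, h2⟩ := opW_IsLd (hld x hx) w
    simp only at h1 h2
    set b : B := (GE.c x, ↑w + GE.ν x) with hb
    set α : ℚ := f b / (GE.g x) (GE.c x, GE.ν x) with hα
    have hα' : α * (opW w (GE.g x)) b = f b := by
      rw [h2, hα, div_mul_cancel₀ _ (hld x hx).1]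
    have h3 : f - α • opW w (GE.g x) ∈ Klt m (key m b) := by
      have e1 := hl.sub
      have e2 := Submodule.smul_mem _ α h1.sub
      have := Submodule.sub_mem _ e1 e2
      rw [smul_sub, smul_smul, hα'] at this
      simpa using this
    have h4 := ih (key m b) hbM _ (Submodule.sub_mem _ hf (Submodule.smul_mem _ α (hW x hx w hw))) h3
    have h5 := NK_mono (List.Subset.refl L) (subset_refl T) hbM.le h4
    have h6 : opW w (GE.g x) ∈ NK m L T M :=
      Submodule.subset_span ⟨x, hx, w, hT x hx, hw, hbM, rfl⟩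
    have := Submodule.add_mem _ h5 (Submodule.smul_mem _ α h6)
    simpa using this

/-! ### Finite bases -/

/-- The functions for Dickson's lemma. -/
def Fd (m k d : ℕ) (b : B) (i : ℕ) : ℕ :=
  if i = 0 then b.1 else if i = 1 then (4 + k) - b.1
  else if i < 2 + (alph m).length then ((alph m)[i - 2]?).elim 0 fun a => b.2.count a
  else ((alph m)[i - 2 - (alph m).length]?).elim 0 fun a => if a.1 = 4 then d - b.2.count a else 0

theorem Fd_le {m k d : ℕ} {b b' : B} (hb : okB m k b) (hb' : okB m k b')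
    (h : (fun i : Fin (2 + 2 * (alph m).length) => Fd m k d b i) ≤
      fun i : Fin (2 + 2 * (alph m).length) => Fd m k d b' i) :
    b.1 = b'.1 ∧ b.2 ≤ b'.2 ∧ ∀ a ∈ alph m, a.1 = 4 → d - b.2.count a ≤ d - b'.2.count a := by
  have h' : ∀ i, i < 2 + 2 * (alph m).length → Fd m k d b i ≤ Fd m k d b' i :=
    fun i hi => h ⟨i, hi⟩
  have hbk : b.1 < 4 + k := by rcases hb with h | h <;> omega
  have hbk' : b'.1 < 4 + k := by rcases hb' with h | h <;> omega
  refine ⟨?_, ?_, ?_⟩
  · have h0 := h' 0 (by omega)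
    have h1 := h' 1 (by omega)
    simp only [Fd, if_true] at h0 h1
    simp only [Nat.one_ne_zero, if_false] at h1
    omega
  · rw [Multiset.le_iff_count]
    intro a
    by_cases ha : a ∈ alph m
    · obtain ⟨p, hp, rfl⟩ := List.getElem_of_mem ha
      have := h' (p + 2) (by omega)
      simp only [Fd] at this
      rw [if_neg (by omega), if_neg (by omega), if_pos (by omega), if_neg (by omega),
        if_neg (by omega), if_pos (by omega), Nat.add_sub_cancel,
        List.getElem?_eq_getElem hp] at this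
      exact this
    · rw [Multiset.count_eq_zero_of_notMem fun h => ha (okB_alph hb a h)]
      exact Nat.zero_le _
  · intro a ha ha4
    obtain ⟨p, hp, rfl⟩ := List.getElem_of_mem ha
    have := h' (p + 2 + (alph m).length) (by omega)
    simp only [Fd] at this
    rw [if_neg (by omega), if_neg (by omega), if_neg (by omega), if_neg (by omega),
        if_neg (by omega), if_neg (by omega),
        show p + 2 + (alph m).length - 2 - (alph m).length = p by omega,
        List.getElem?_eq_getElem hp] at this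
    simp only [Option.elim_some, ha4, if_true] at this
    exact this

theorem IsLd_smul {m : ℕ} {v : V} {b : B} (h : IsLd m v b) {a : ℚ} (ha : a ≠ 0) :
    IsLd m (a • v) b := by
  refine ⟨by rw [Finsupp.smul_apply]; exact smul_ne_zero ha h.1, fun b' hb' => h.2 b' ?_⟩
  intro h0
  rw [Finsupp.smul_apply, h0, smul_zero] at hb'
  exact hb' rfl

/-- A finite basis of the leading terms of the elements of a subspace satisfying `P`. -/
theorem exists_list (m k d lv : ℕ) (W : Submodule ℚ V) (hW : W ≤ Vf m k) (P : B → Prop) :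
    ∃ L : List GE, (∀ x ∈ L, GE.lev x = lv ∧ GE.g x ∈ W ∧ IsLd m (GE.g x) (GE.c x, GE.ν x) ∧
      P (GE.c x, GE.ν x)) ∧
    ∀ f ∈ W, ∀ b, IsLd m f b → P b → ∃ x ∈ L, GE.c x = b.1 ∧ GE.ν x ≤ b.2 ∧
      ∀ a ∈ alph m, a.1 = 4 → d - (GE.ν x).count a ≤ d - b.2.count a := by
  classical
  obtain ⟨T, hfin, hsub, hT⟩ := dickson
    (fun (b : B) (i : Fin (2 + 2 * (alph m).length)) => Fd m k d b i)
    {b : B | (∃ f ∈ W, IsLd m f b) ∧ P b}
  have hch : ∀ b ∈ T, ∃ x : GE, GE.lev x = lv ∧ GE.g x ∈ W ∧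
      IsLd m (GE.g x) (GE.c x, GE.ν x) ∧ (GE.c x, GE.ν x) = b := by
    intro b hb
    obtain ⟨⟨f, hf, hl⟩, hP⟩ := hsub hb
    obtain ⟨N, hN, C, hC⟩ := exists_code f
    obtain ⟨l, hl'⟩ : ∃ l : List Letter, (l : Multiset Letter) = b.2 := Quotient.exists_rep b.2
    have hb' : ((b.1, (l : Multiset Letter)) : B) = b := by rw [hl']
    refine ⟨(lv, (b.1, l), C), rfl, ?_, ?_, hb'⟩
    · change sval C ∈ W
      rw [hC]; exact Submodule.smul_mem _ _ hf
    · change IsLd m (sval C) (b.1, (l : Multiset Letter))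
      rw [hC, hb']
      exact IsLd_smul hl (by exact_mod_cast hN.ne')
  choose! φ h1 h2 h3 h4 using hch
  refine ⟨hfin.toFinset.toList.map φ, ?_, ?_⟩
  · intro x hx
    obtain ⟨b, hb, rfl⟩ := List.mem_map.1 hx
    have hb' : b ∈ T := by simpa using hb
    refine ⟨h1 b hb', h2 b hb', h3 b hb', ?_⟩
    rw [h4 b hb']
    exact (hsub hb').2
  · intro f hf b hl hP
    obtain ⟨t, ht, htb⟩ := hT b ⟨⟨f, hf, hl⟩, hP⟩
    have e := h4 t ht
    have hok : okB m k t := by
      have := hW (h2 t ht) _ (h3 t ht).1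
      rwa [e] at this
    have := Fd_le hok (hW hf b hl.1) htb
    refine ⟨φ t, List.mem_map.2 ⟨t, by simpa using ht, rfl⟩, ?_⟩
    rw [← e] at this
    exact this

end Pool.Agent.Lib.MP_79b5eb_lc.M2
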