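import Pool.Agent.Lib.MP_79b5eb_lc.M2.Exist

/-!
Existence of certificates, continued.
-/

set_option autoImplicit false

namespace Pool.Agent.Lib.MP_79b5eb_lc.M2

theorem levS_zero (m : ℕ) : levS m 0 = Ay m ∪ At m := rfl
theorem levS_one (m : ℕ) : levS m 1 = At m := rfl
theorem levS_two (m : ℕ) : levS m 2 = At m ∪ Ax m := rfl
theorem levS_three (m : ℕ) : levS m 3 = Ax m := rfl

section
variable {m k : ℕ} {us : ℕ → MM}

theorem opW_stable (W : Submodule ℚ V) (S : Set Letter) (h : ∀ s ∈ S, ∀ v ∈ W, opS s v ∈ W)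
    {w : List Letter} (hw : ∀ s ∈ w, s ∈ S) {v : V} (hv : v ∈ W) : opW w v ∈ W := by
  induction w with
  | nil => exact hv
  | cons s w ih => exact h s (hw s (by simp)) _ (ih fun t ht => hw t (by simp [ht]))

theorem At_ne {s : Letter} (hs : s ∈ At m) : s.1 ≠ 0 := by rcases hs with h | h <;> omega
theorem Ay_ne {s : Letter} (hs : s ∈ Ay m) : s.1 ≠ 0 := by obtain ⟨h, _⟩ := hs; omega

theorem opS_KE (s : Letter) (hs : s ∈ levS m 0) (v : V) (hv : v ∈ KE m k) :
    opS s v ∈ KE m k := by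
  rw [levS_zero] at hs
  rw [opS_of_ne (by rcases hs with h | h; exacts [Ay_ne h, At_ne h])]
  exact mulS_KE hs hv

theorem opS_Nt (s : Letter) (hs : s ∈ levS m 1) (v : V) (hv : v ∈ Nt m k us) :
    opS s v ∈ Nt m k us := by
  rw [levS_one] at hs
  rw [opS_of_ne (At_ne hs)]
  exact mulS_Nt hs hv

theorem opS_PP' (s : Letter) (hs : s ∈ levS m 2) (v : V) (hv : v ∈ PP m k us) :
    opS s v ∈ PP m k us := opS_PP hs hv

theorem opS_UU (s : Letter) (hs : s ∈ levS m 3) (v : V) (hv : v ∈ UU m k) :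
    opS s v ∈ UU m k := by
  rw [levS_three] at hs
  refine map_SupP (fun c μ h => ?_) hv
  obtain ⟨h1, h2, h3⟩ := h
  simp only at h1 h2 h3
  have key : ∀ μ' : Multiset Letter, (∀ t ∈ μ', t ∈ Ax m) → bas c μ' ∈ SupP fun b : B =>
      4 ≤ b.1 ∧ b.1 < 4 + k ∧ ∀ s ∈ b.2, s ∈ Ax m := fun μ' h' => bas_mem_SupP ⟨h1, h2, h'⟩
  have h5 : mulS s (bas c μ) ∈ SupP fun b : B =>
      4 ≤ b.1 ∧ b.1 < 4 + k ∧ ∀ s ∈ b.2, s ∈ Ax m := by
    rw [mulS_bas]
    apply key
    intro t ht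
    rcases Multiset.mem_cons.1 ht with rfl | h
    · exact hs
    · exact h3 t h
  by_cases h : s.1 = 0
  · rw [opS_of_eq h]
    refine Submodule.add_mem _ h5 ?_
    rw [der_bas, derB]
    refine multiset_sum_mem _ fun v hv => ?_
    obtain ⟨s', hs', rfl⟩ := Multiset.mem_map.1 hv
    rw [Multiset.mem_filter] at hs'
    apply key
    intro t ht
    rcases Multiset.mem_cons.1 ht with rfl | h'
    · refine Or.inr ⟨rfl, ?_, hs'.2.2⟩
      rcases hs with hs | hs
      · exact hs.2.1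
      · omega
    · exact h3 t (Multiset.mem_of_mem_erase h')
  · rw [opS_of_ne h]; exact h5

theorem UU_le_Vf : UU m k ≤ Vf m k := by
  intro v hv b hb
  obtain ⟨h1, h2, h3⟩ := hv b hb
  exact Or.inr ⟨h1, h2, fun s hs => Or.inr (h3 s hs)⟩

theorem pr_apply (f : V) (b : B) : (pr f) b = if b.1 < 4 then 0 else f b := by
  have : (Finsupp.lapply b) ∘ₗ pr = if b.1 < 4 then 0 else (Finsupp.lapply b : V →ₗ[ℚ] ℚ) := by
    apply V_ext
    intro c μ
    simp only [LinearMap.comp_apply, pr_bas, Finsupp.lapply_apply]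
    by_cases hc : c < 4
    · rw [if_pos hc]
      split_ifs with h
      · simp
      · simp only [Finsupp.coe_zero, Pi.zero_apply, Finsupp.lapply_apply, bas_apply]
        rw [if_neg]
        rintro rfl
        exact h hc
    · rw [if_neg hc]
      split_ifs with h
      · simp only [LinearMap.zero_apply, bas_apply]
        rw [if_neg]
        rintro rfl
        exact hc h
      · rfl
  have := LinearMap.congr_fun this f
  rw [LinearMap.comp_apply, Finsupp.lapply_apply] at this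
  rw [this]
  split_ifs <;> simp

theorem toList_sub {μ ν : Multiset Letter} (h : ν ≤ μ) :
    ((μ - ν).toList : Multiset Letter) + ν = μ := by
  rw [Multiset.coe_toList, Multiset.sub_add_cancel h]

theorem cnt_eq_zero {p : Letter → Bool} {μ : Multiset Letter} :
    cnt p μ = 0 ↔ ∀ s ∈ μ, p s = false := by
  unfold cnt
  rw [Multiset.card_eq_zero, Multiset.filter_eq_nil]
  simp

/-! ### Data of a finite basis -/

structure Basis (m k : ℕ) (us : ℕ → MM) (L1 L2 L3 : List GE) (d : ℕ) : Prop where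
  h1 : ∀ x ∈ L1, GE.lev x = 0 ∧ GE.g x ∈ KE m k ∧ IsLd m (GE.g x) (GE.c x, GE.ν x)
  r1 : ∀ f ∈ KE m k, ∀ b, IsLd m f b → ∃ x ∈ L1, GE.c x = b.1 ∧ GE.ν x ≤ b.2
  h2 : ∀ x ∈ L2, GE.lev x = 1 ∧ GE.g x ∈ Nt m k us ∧ IsLd m (GE.g x) (GE.c x, GE.ν x) ∧
    GE.c x < 4
  r2 : ∀ f ∈ Nt m k us, ∀ b, IsLd m f b → b.1 < 4 → ydeg b < d → ∃ x ∈ L2, GE.c x = b.1 ∧
    GE.ν x ≤ b.2 ∧ ∀ a ∈ alph m, a.1 = 4 → d - (GE.ν x).count a ≤ d - b.2.count a
  h3 : ∀ x ∈ L3, GE.lev x = 2 ∧ GE.g x ∈ PP m k us ∧ IsLd m (GE.g x) (GE.c x, GE.ν x)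
  r3 : ∀ f ∈ PP m k us, ∀ b, IsLd m f b → ∃ x ∈ L3, GE.c x = b.1 ∧ GE.ν x ≤ b.2
  lift : ∀ z ∈ CI m us, ∃ γ ∈ Vf m k, (∀ b, γ b ≠ 0 → b.1 < 4 ∧ ydeg b < d) ∧ ev m γ = z

theorem KE_le_Vf : KE m k ≤ Vf m k := fun _ hv => hv.1.1
theorem Nt_le_Vf : Nt m k us ≤ Vf m k := fun _ hv => hv.1
theorem PP_le_Vf : PP m k us ≤ Vf m k := fun _ hv b hb => (hv.1 b hb).1

theorem exists_basis (m k : ℕ) (us : ℕ → MM) (hus : ∀ j, us j ∈ RR m) :
    ∃ L1 L2 L3 d, Basis m k us L1 L2 L3 d := by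
  obtain ⟨d, hd⟩ := exists_lifts (k := k) hus
  obtain ⟨L1, h1, r1⟩ := exists_list m k 0 0 (KE m k) KE_le_Vf (fun _ => True)
  obtain ⟨L2, h2, r2⟩ := exists_list m k d 1 (Nt m k us) Nt_le_Vf (fun b => b.1 < 4 ∧ ydeg b < d)
  obtain ⟨L3, h3, r3⟩ := exists_list m k 0 2 (PP m k us) PP_le_Vf (fun _ => True)
  refine ⟨L1, L2, L3, d, ⟨fun x hx => ?_, fun f hf b hb => ?_, fun x hx => ?_,
    fun f hf b hb h4 hy => ?_, fun x hx => ?_, fun f hf b hb => ?_, hd⟩⟩
  · obtain ⟨e1, e2, e3, _⟩ := h1 x hx; exact ⟨e1, e2, e3⟩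
  · obtain ⟨x, hx, e1, e2, _⟩ := r1 f hf b hb trivial; exact ⟨x, hx, e1, e2⟩
  · obtain ⟨e1, e2, e3, e4, _⟩ := h2 x hx; exact ⟨e1, e2, e3, e4⟩
  · exact r2 f hf b hb ⟨h4, hy⟩
  · obtain ⟨e1, e2, e3, _⟩ := h3 x hx; exact ⟨e1, e2, e3⟩
  · obtain ⟨x, hx, e1, e2, _⟩ := r3 f hf b hb trivial; exact ⟨x, hx, e1, e2⟩

def L4 (k : ℕ) : List GE := (List.range k).map fun j => (3, (4 + j, []), [(true, (4 + j, []))])

theorem mem_L4 {x : GE} (hx : x ∈ L4 k) : ∃ j < k, GE.lev x = 3 ∧ GE.c x = 4 + j ∧ GE.ν x = 0 ∧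
    GE.g x = bas (4 + j) 0 := by
  obtain ⟨j, hj, rfl⟩ := List.mem_map.1 hx
  refine ⟨j, by simpa using hj, rfl, rfl, rfl, ?_⟩
  simp [GE.g, sval, stval, tval]

theorem exists_L4 {j : ℕ} (hj : j < k) : ∃ x ∈ L4 k, GE.lev x = 3 ∧ GE.c x = 4 + j ∧
    GE.ν x = 0 ∧ GE.g x = bas (4 + j) 0 :=
  ⟨(3, (4 + j, []), [(true, (4 + j, []))]), List.mem_map.2 ⟨j, by simpa using hj, rfl⟩,
    rfl, rfl, rfl, by simp [GE.g, sval, stval, tval]⟩

theorem bas_IsLd (c : ℕ) (μ : Multiset Letter) : IsLd m (bas c μ) (c, μ) := by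
  refine ⟨by rw [bas_apply, if_pos rfl]; exact one_ne_zero, fun b' hb' hne => ?_⟩
  rw [bas_apply, if_neg (Ne.symm hne)] at hb'
  exact absurd rfl hb'

theorem e_mem_UU {j : ℕ} (hj : j < k) : bas (4 + j) 0 ∈ UU m k :=
  bas_mem_SupP ⟨by simp, by simpa using hj, by simp⟩

theorem okB_lt {b : B} (h : okB m k b) (hb : b.1 < 4) : ∀ s ∈ b.2, s ∈ Ay m ∪ At m := by
  rcases h with ⟨_, h⟩ | ⟨h, _⟩
  · exact h
  · omega

theorem okB_ge {b : B} (h : okB m k b) (hb : 4 ≤ b.1) :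
    b.1 < 4 + k ∧ ∀ s ∈ b.2, s ∈ At m ∪ Ax m := by
  rcases h with ⟨h, _⟩ | ⟨_, h⟩
  · omega
  · exact h

variable {L1 L2 L3 : List GE} {d : ℕ} (BB : Basis m k us L1 L2 L3 d)
include BB

theorem red1 (f : V) (hf : f ∈ KE m k) (h0 : f ≠ 0) : ∃ x ∈ L1, ∃ w : List Letter,
    (∀ s ∈ w, s ∈ levS m (GE.lev x)) ∧ IsLd m f (GE.c x, ↑w + GE.ν x) := by
  obtain ⟨b, hb⟩ := exists_IsLd (KE_le_Vf hf) h0
  obtain ⟨x, hx, hc, hν⟩ := BB.r1 f hf b hb
  refine ⟨x, hx, (b.2 - GE.ν x).toList, ?_, ?_⟩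
  · intro s hs
    rw [(BB.h1 x hx).1, levS_zero]
    have hs' : s ∈ b.2 - GE.ν x := by simpa using hs
    exact okB_lt (hf.1.1 b hb.1) (hf.1.2 b hb.1) s (Multiset.mem_of_le (Multiset.sub_le_self _ _) hs')
  · rw [toList_sub hν, hc]; exact hb

theorem red3 (f : V) (hf : f ∈ PP m k us) (h0 : f ≠ 0) : ∃ x ∈ L3, ∃ w : List Letter,
    (∀ s ∈ w, s ∈ levS m (GE.lev x)) ∧ IsLd m f (GE.c x, ↑w + GE.ν x) := by
  obtain ⟨b, hb⟩ := exists_IsLd (PP_le_Vf hf) h0
  obtain ⟨x, hx, hc, hν⟩ := BB.r3 f hf b hb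
  refine ⟨x, hx, (b.2 - GE.ν x).toList, ?_, ?_⟩
  · intro s hs
    rw [(BB.h3 x hx).1, levS_two]
    have hs' : s ∈ b.2 - GE.ν x := by simpa using hs
    exact (okB_ge (hf.1 b hb.1).1 (hf.1 b hb.1).2).2 s
      (Multiset.mem_of_le (Multiset.sub_le_self _ _) hs')
  · rw [toList_sub hν, hc]; exact hb

theorem red2 (f : V) (hf : f ∈ Nt m k us) (h0 : f ≠ 0) : ∃ x ∈ L1 ++ L2 ++ L3,
    ∃ w : List Letter, (∀ s ∈ w, s ∈ levS m (GE.lev x)) ∧ IsLd m f (GE.c x, ↑w + GE.ν x) := by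
  obtain ⟨b, hb⟩ := exists_IsLd (Nt_le_Vf hf) h0
  by_cases h4 : b.1 < 4
  · by_cases hy : ydeg b < d
    · obtain ⟨x, hx, hc, hν, hcount⟩ := BB.r2 f hf b hb h4 hy
      refine ⟨x, by simp [hx], (b.2 - GE.ν x).toList, ?_, ?_⟩
      · intro s hs
        rw [(BB.h2 x hx).1, levS_one]
        have hs' : s ∈ b.2 - GE.ν x := by simpa using hs
        have hsb := Multiset.mem_of_le (Multiset.sub_le_self _ _) hs'
        rcases okB_lt (hf.1 b hb.1) h4 s hsb with h | h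
        · exfalso
          have hc1 := hcount s (Ay_sub_alph h) h.1
          have hc2 : b.2.count s ≤ ydeg b := by
            unfold ydeg
            have e : Multiset.count s b.2 = Multiset.count s
                (b.2.filter fun s : Letter => s.1 = 4) :=
              (Multiset.count_filter_of_pos (p := fun s : Letter => s.1 = 4) h.1).symm
            rw [e]
            exact Multiset.count_le_card _ _
          have hc3 := (Multiset.mem_sub.1 hs')
          omega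
        · exact h
      · rw [toList_sub hν, hc]; exact hb
    · -- reduce to the kernel of `ev`
      obtain ⟨γ, hγ, hγ2, hγ3⟩ := BB.lift _ (ev_Nt hf)
      have hprVf : pr f ∈ Vf m k := by
        intro b' hb'
        rw [pr_apply] at hb'
        split_ifs at hb' with h
        · exact absurd rfl hb'
        · exact hf.1 b' hb'
      have hprge : pr f ∈ Vge := by
        intro b' hb'
        rw [pr_apply] at hb'
        split_ifs at hb' with h
        · exact absurd rfl hb'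
        · omega
      have hval : ∀ b', (f - pr f - γ) b' = (if b'.1 < 4 then f b' else 0) - γ b' := by
        intro b'
        rw [Finsupp.sub_apply, Finsupp.sub_apply, pr_apply]
        split_ifs <;> ring
      have hγb : ∀ b', ¬ b'.1 < 4 → γ b' = 0 := by
        intro b' h
        by_contra hne
        exact h (hγ2 b' hne).1
      have hκ : f - pr f - γ ∈ KE m k := by
        refine ⟨⟨Submodule.sub_mem _ (Submodule.sub_mem _ hf.1 hprVf) hγ, ?_⟩, ?_⟩
        · intro b' hb'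
          rw [hval] at hb'
          by_contra h
          rw [if_neg h, hγb b' h] at hb'
          simp at hb'
        · rw [SetLike.mem_coe, LinearMap.mem_ker, map_sub, map_sub, hγ3, ev_of_Vge hprge]
          simp
      have hκld : IsLd m (f - pr f - γ) b := by
        have hγ0 : γ b = 0 := by
          by_contra hne
          exact hy (hγ2 b hne).2
        refine ⟨by rw [hval, if_pos h4, hγ0, sub_zero]; exact hb.1, fun b' hb' hne => ?_⟩
        rw [hval] at hb'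
        by_cases h : b'.1 < 4
        · by_cases h' : γ b' = 0
          · rw [if_pos h, h', sub_zero] at hb'
            exact hb.2 b' hb' hne
          · exact key_ydeg h h4 (by have := (hγ2 b' h').2; omega)
        · rw [if_neg h, hγb b' h] at hb'
          simp at hb'
      obtain ⟨x, hx, hc, hν⟩ := BB.r1 _ hκ b hκld
      refine ⟨x, by simp [hx], (b.2 - GE.ν x).toList, ?_, ?_⟩
      · intro s hs
        rw [(BB.h1 x hx).1, levS_zero]
        have hs' : s ∈ b.2 - GE.ν x := by simpa using hs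
        exact okB_lt (hf.1 b hb.1) h4 s (Multiset.mem_of_le (Multiset.sub_le_self _ _) hs')
      · rw [toList_sub hν, hc]; exact hb
  · have hge : f ∈ Vge := by
      intro b' hb'
      by_contra h
      have hne : b' ≠ b := by rintro rfl; omega
      have e1 := hb.2 b' hb' hne
      have e2 := key_class (m := m) (b := b) (b' := b') (by omega) (by omega)
      exact lt_irrefl _ (e1.trans e2)
    obtain ⟨x, hx, w, hw, hl⟩ := red3 BB f (PP_of_Nt hf hge) h0
    exact ⟨x, by simp [hx], w, hw, hl⟩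

omit BB in
theorem red4 (f : V) (hf : f ∈ UU m k) (h0 : f ≠ 0) : ∃ x ∈ L4 k, ∃ w : List Letter,
    (∀ s ∈ w, s ∈ levS m (GE.lev x)) ∧ IsLd m f (GE.c x, ↑w + GE.ν x) := by
  obtain ⟨b, hb⟩ := exists_IsLd (UU_le_Vf hf) h0
  obtain ⟨h1, h2, h3⟩ := hf b hb.1
  obtain ⟨j, hj⟩ := Nat.exists_eq_add_of_le h1
  obtain ⟨x, hx, e1, e2, e3, _⟩ := exists_L4 (k := k) (j := j) (by omega)
  refine ⟨x, hx, b.2.toList, ?_, ?_⟩
  · intro s hs
    rw [e1, levS_three]
    exact h3 s (by simpa using hs)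
  · rw [e2, e3, Multiset.coe_toList, add_zero, ← hj]
    exact hb

abbrev LL (k : ℕ) (L1 L2 L3 : List GE) : List GE := L1 ++ L2 ++ L3 ++ L4 k

/-! ### Divisions -/

theorem div0 {f : V} (hf : f ∈ KE m k) {M : KT m} (hM : f ∈ Klt m M) :
    f ∈ NK m (LL k L1 L2 L3) (levS m 0) M := by
  have := division (m := m) (L := L1) (T := levS m 0) (KE m k)
    (fun x hx => by rw [(BB.h1 x hx).1])
    (fun x hx w hw => opW_stable _ (levS m 0) opS_KE (by rw [(BB.h1 x hx).1] at hw; exact hw)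
      (BB.h1 x hx).2.1)
    (fun x hx => (BB.h1 x hx).2.2) (red1 BB) M f hf hM
  exact NK_mono (fun x hx => by simp [hx]) (subset_refl _) le_rfl this

theorem div2 {f : V} (hf : f ∈ PP m k us) {M : KT m} (hM : f ∈ Klt m M) :
    f ∈ NK m (LL k L1 L2 L3) (levS m 2) M := by
  have := division (m := m) (L := L3) (T := levS m 2) (PP m k us)
    (fun x hx => by rw [(BB.h3 x hx).1])
    (fun x hx w hw => opW_stable _ (levS m 2) opS_PP' (by rw [(BB.h3 x hx).1] at hw; exact hw)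
      (BB.h3 x hx).2.1)
    (fun x hx => (BB.h3 x hx).2.2) (red3 BB) M f hf hM
  exact NK_mono (fun x hx => by simp [hx]) (subset_refl _) le_rfl this

omit BB in
theorem div3 {f : V} (hf : f ∈ UU m k) {M : KT m} (hM : f ∈ Klt m M) :
    f ∈ NK m (LL k L1 L2 L3) (levS m 3) M := by
  have := division (m := m) (L := L4 k) (T := levS m 3) (UU m k)
    (fun x hx => by obtain ⟨j, _, h, _⟩ := mem_L4 hx; rw [h])
    (fun x hx w hw => by
      obtain ⟨j, hj, h1, h2, h3, h4⟩ := mem_L4 hx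
      rw [h4]
      exact opW_stable _ (levS m 3) opS_UU (by rw [h1] at hw; exact hw) (e_mem_UU hj))
    (fun x hx => by
      obtain ⟨j, hj, h1, h2, h3, h4⟩ := mem_L4 hx
      rw [h2, h3, h4]; exact bas_IsLd _ _) red4 M f hf hM
  exact NK_mono (fun x hx => by simp [hx]) (subset_refl _) le_rfl this

theorem opW_Nt123 {x : GE} (hx : x ∈ L1 ++ L2 ++ L3) {w : List Letter}
    (hw : ∀ s ∈ w, s ∈ levS m (GE.lev x)) : opW w (GE.g x) ∈ Nt m k us := by
  rcases List.mem_append.1 hx with hx | hx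
  · rcases List.mem_append.1 hx with hx | hx
    · rw [(BB.h1 x hx).1] at hw
      exact KE_le_Nt (opW_stable _ (levS m 0) opS_KE hw (BB.h1 x hx).2.1)
    · rw [(BB.h2 x hx).1] at hw
      exact opW_stable _ (levS m 1) opS_Nt hw (BB.h2 x hx).2.1
  · rw [(BB.h3 x hx).1] at hw
    exact PP_le_Nt (opW_stable _ (levS m 2) opS_PP' hw (BB.h3 x hx).2.1)

theorem ld123 {x : GE} (hx : x ∈ L1 ++ L2 ++ L3) : IsLd m (GE.g x) (GE.c x, GE.ν x) := by
  rcases List.mem_append.1 hx with hx | hx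
  · rcases List.mem_append.1 hx with hx | hx
    · exact (BB.h1 x hx).2.2
    · exact (BB.h2 x hx).2.2.1
  · exact (BB.h3 x hx).2.2

theorem div1 {f : V} (hf : f ∈ Nt m k us) {M : KT m} (hM : f ∈ Klt m M) :
    f ∈ NK m (LL k L1 L2 L3) (levS m 1) M := by
  have := division (m := m) (L := L1 ++ L2 ++ L3) (T := levS m 1) (Nt m k us)
    (fun x hx => by
      rcases List.mem_append.1 hx with hx | hx
      · rcases List.mem_append.1 hx with hx | hx
        · rw [(BB.h1 x hx).1]; exact Set.subset_union_right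
        · rw [(BB.h2 x hx).1]
      · rw [(BB.h3 x hx).1]; exact Set.subset_union_left)
    (fun x hx w hw => opW_Nt123 BB hx hw)
    (fun x hx => ld123 BB hx) (red2 BB) M f hf hM
  exact NK_mono (fun x hx => List.mem_append.2 (Or.inl hx)) (subset_refl _) le_rfl this

end

end Pool.Agent.Lib.MP_79b5eb_lc.M2
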