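import Pool.Agent.Lib.MP_79b5eb_lc.M2.Dec2
import Pool.Agent.Lib.MP_79b5eb_lc.Undec

/-!
The equality problem in the variety `M(n)` is decidable exactly for `n ≤ 2`.
-/

set_option autoImplicit false

universe u

namespace Pool.Agent.Lib.MP_79b5eb_lc.M2

/-! ### Commutative algebras -/

section comm
variable {F : Type u} [Field F]

/-- The entry of `1 × 1`-matrices. -/
def ent1 : Matrix (Fin 1) (Fin 1) F →ₐ[F] F where
  toFun M := M 0 0
  map_one' := by simp
  map_mul' := by intro x y; simp [Matrix.mul_apply]
  map_zero' := rfl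
  map_add' := by intro x y; rfl
  commutes' := by intro r; simp [Matrix.algebraMap_matrix_apply]

theorem unit_comm {B : Type u} [NonUnitalRing B] [Module F B] [IsScalarTower F B B]
    [SMulCommClass F B B] (hc : ∀ x y : B, x * y = y * x) (x y : Unitization F B) :
    x * y = y * x := by
  ext
  · simp [mul_comm]
  · simp only [Unitization.snd_mul, hc]
    abel

theorem inM_one_of_comm [Infinite F] {B : Type u} [NonUnitalRing B] [Module F B]
    [IsScalarTower F B B] [SMulCommClass F B B] (hc : ∀ x y : B, x * y = y * x) : InM F 1 B := by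
  intro P hP w
  have hQ : evalP (fun i => (MvPolynomial.X i : MvPolynomial ℕ F)) P = 0 := by
    apply MvPolynomial.funext
    intro x
    have h1 := evalP_mapA (MvPolynomial.aeval x : MvPolynomial ℕ F →ₐ[F] F)
      (fun i => (MvPolynomial.X i : MvPolynomial ℕ F)) P
    have h2 := evalP_mapA (ent1 (F := F)) (fun i => Matrix.of fun _ _ => x i) P
    rw [hP, map_zero] at h2
    have h3 : (fun j => (MvPolynomial.aeval x : MvPolynomial ℕ F →ₐ[F] F) (MvPolynomial.X j)) =
        fun j => ent1 (F := F) (Matrix.of fun _ _ => x j) := by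
      funext j
      simp [ent1]
    rw [h3, ← h2] at h1
    rw [map_zero]
    exact h1
  let CR : CommRing (Unitization F B) :=
    { (inferInstance : Ring (Unitization F B)) with mul_comm := unit_comm hc }
  have h1 := evalP_map (Unitization.inrNonUnitalAlgHom F B) w P
  have h2 := evalP_mapA (MvPolynomial.aeval (fun j => ((w j : B) : Unitization F B)) :
    MvPolynomial ℕ F →ₐ[F] Unitization F B) (fun i => (MvPolynomial.X i : MvPolynomial ℕ F)) P
  rw [hQ, map_zero] at h2
  have h3 : (fun j => (MvPolynomial.aeval (fun j => ((w j : B) : Unitization F B)) :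
    MvPolynomial ℕ F →ₐ[F] Unitization F B) (MvPolynomial.X j)) =
      fun j => (Unitization.inrNonUnitalAlgHom F B) (w j) := by
    funext j
    simp
  rw [h3] at h2
  apply Unitization.inr_injective (R := F)
  exact h1.trans h2.symm

end comm

/-- The commutator of two variables. -/
def commP (i j : ℕ) : QPoly := [((1, 0, 0), (i, [j])), ((0, 1, 0), (j, [i]))]

theorem evalP_commP (F : Type u) [Field F] {A : Type u} [NonUnitalRing A] [Module F A]
    (v : ℕ → A) (i j : ℕ) : evalP v (QPoly.toF F (commP i j)) = v i * v j - v j * v i := by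
  simp [evalP, QPoly.toF, commP, wval, sub_eq_add_neg]

theorem comm_of_inM (F : Type u) [Field F] {A : Type u} [NonUnitalRing A] [Module F A]
    (h : InM F 1 A) (x y : A) : x * y = y * x := by
  have h1 := h (QPoly.toF F (commP 0 1)) (fun v => by
    rw [evalP_commP, sub_eq_zero]
    ext a b
    have ha : a = 0 := Subsingleton.elim _ _
    have hb : b = 0 := Subsingleton.elim _ _
    subst ha hb
    simp [Matrix.mul_apply, mul_comm]) (fun i => if i = 0 then x else y)
  rw [evalP_commP, sub_eq_zero] at h1
  simpa using h1

theorem inM_two_of_one (F : Type u) [Field F] {A : Type u} [NonUnitalRing A] [Module F A]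
    (h : InM F 1 A) : InM F 2 A := by
  intro P hP
  apply h P
  intro v
  have h1 := evalP_mapA ((Algebra.ofId F (Matrix (Fin 2) (Fin 2) F)).comp (ent1 (F := F))) v P
  rw [hP] at h1
  have h2 : evalP v P = 0 := by
    ext a b
    have h3 : Function.Injective (Algebra.ofId F (Matrix (Fin 2) (Fin 2) F)) :=
      (algebraMap F (Matrix (Fin 2) (Fin 2) F)).injective
    have h4 : ent1 (F := F) (evalP v P) = 0 := h3 (by rw [map_zero]; exact h1)
    have ha : a = 0 := Subsingleton.elim _ _
    have hb : b = 0 := Subsingleton.elim _ _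
    rw [ha, hb]
    exact h4
  exact h2

/-- Adding commutators to the premises. -/
def addC (q : QI) : QI :=
  (((List.range (bnd q)).flatMap fun i => (List.range (bnd q)).map fun j => commP i j) ++ q.1, q.2)

theorem p_addC : Primrec addC := by
  unfold addC commP
  refine p_pair (p_append ?_ (by fun_prop)) (by fun_prop)
  refine p_flatMap (g := fun (q : QI) (i : ℕ) => (List.range (bnd q)).map fun j =>
    ([((1, 0, 0), (i, [j])), ((0, 1, 0), (j, [i]))] : QPoly)) (by fun_prop) ?_
  refine p_map (f := fun x : QI × ℕ => List.range (bnd x.1)) (g := fun (x : QI × ℕ) (j : ℕ) =>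
    ([((1, 0, 0), (x.2, [j])), ((0, 1, 0), (j, [x.2]))] : QPoly)) (by fun_prop) (by fun_prop)

theorem mem_addC {q : QI} {i j : ℕ} (hi : i < bnd q) (hj : j < bnd q) :
    commP i j ∈ (addC q).1 := by
  unfold addC
  exact List.mem_append.2 (Or.inl (List.mem_flatMap.2 ⟨i, by simpa using hi,
    List.mem_map.2 ⟨j, by simpa using hj, rfl⟩⟩))

theorem one_iff (F : Type u) [Field F] [CharZero F] (q : QI) :
    (∀ (A : Type u) [NonUnitalRing A] [Module F A] [IsScalarTower F A A] [SMulCommClass F A A],
      InM F 1 A → Holds F A q) ↔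
    (∀ (A : Type u) [NonUnitalRing A] [Module F A] [IsScalarTower F A A] [SMulCommClass F A A],
      InM F 2 A → Holds F A (addC q)) := by
  classical
  have : Infinite F := CharZero.infinite F
  constructor
  · intro h A _ _ _ _ _ v hv
    set s : Set A := {a | ∃ i < bnd q, a = v i} with hs
    have hcomm : ∀ x ∈ NonUnitalAlgebra.adjoin F s, ∀ y ∈ NonUnitalAlgebra.adjoin F s,
        x * y = y * x := by
      intro x hx y hy
      induction hx, hy using NonUnitalAlgebra.adjoin_induction₂ with
      | mem_mem x y hx hy =>
        obtain ⟨i, hi, rfl⟩ := hx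
        obtain ⟨j, hj, rfl⟩ := hy
        have := hv _ (mem_addC hi hj)
        rw [evalP_commP, sub_eq_zero] at this
        exact this
      | zero_left x _ => simp
      | zero_right x _ => simp
      | add_left x y z _ _ _ h1 h2 => rw [add_mul, mul_add, h1, h2]
      | add_right x y z _ _ _ h1 h2 => rw [add_mul, mul_add, h1, h2]
      | mul_left x y z _ _ _ h1 h2 => rw [mul_assoc, h2, ← mul_assoc, h1, mul_assoc]
      | mul_right x y z _ _ _ h1 h2 => rw [← mul_assoc, h1, mul_assoc, h2, mul_assoc]
      | smul_left r x y _ _ h => rw [smul_mul_assoc, mul_smul_comm, h]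
      | smul_right r x y _ _ h => rw [smul_mul_assoc, mul_smul_comm, h]
    let B := NonUnitalAlgebra.adjoin F s
    have hB : InM F 1 B := inM_one_of_comm fun x y => Subtype.ext (hcomm x x.2 y y.2)
    have h1 := h B hB
    set w : ℕ → B := fun i => if hi : i < bnd q then
      ⟨v i, NonUnitalAlgebra.subset_adjoin F ⟨i, hi, rfl⟩⟩ else 0 with hw
    have key : ∀ p ∈ q.2 :: q.1, ((evalP w (QPoly.toF F p) : B) : A) = evalP v (QPoly.toF F p) := by
      intro p hp
      have h2 := evalP_map (NonUnitalSubalgebraClass.subtype B) w (QPoly.toF F p)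
      refine h2.trans ?_
      apply evalP_congr
      intro t ht j hj
      obtain ⟨t', ht', rfl⟩ := List.mem_map.1 ht
      have hj' : j < bnd q := lt_bnd q p hp t' ht' j hj
      simp [hw, hj']
    have h2 := h1 w (fun p hp => by
      apply Subtype.ext
      rw [key p (by simp [hp])]
      exact hv p (List.mem_append.2 (Or.inr hp)))
    have h3 := key q.2 (by simp)
    rw [h2] at h3
    exact h3.symm
  · intro h A _ _ _ _ hA v hv
    refine h A (inM_two_of_one F hA) v fun p hp => ?_
    rcases List.mem_append.1 hp with hp | hp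
    · obtain ⟨i, _, hp⟩ := List.mem_flatMap.1 hp
      obtain ⟨j, _, rfl⟩ := List.mem_map.1 hp
      rw [evalP_commP, comm_of_inM F hA, sub_self]
    · exact hv p hp

/-- The equality problem is decidable in the variety `M(1)` of commutative algebras. -/
theorem decidable_one (F : Type u) [Field F] [CharZero F] : EqualityDecidableM F 1 := by
  have h := computable_of_S1 (S1_pos.comp p_addC) (S1_neg.comp p_addC)
  refine ComputablePred.of_eq h fun q => ?_
  rw [one_iff]
  exact (holds_iff F (addC q) (bnd (addC q)) (lt_bnd (addC q))).symm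

/-- The equality problem in the variety `M(n)` is decidable exactly for `n ≤ 2`. -/
theorem decidable_iff (F : Type u) [Field F] [CharZero F] (n : ℕ) (hn : 1 ≤ n) :
    EqualityDecidableM F n ↔ n ≤ 2 := by
  constructor
  · intro h
    by_contra hn2
    exact undecidable_M F n (by omega) h
  · intro h
    obtain rfl | rfl : n = 1 ∨ n = 2 := by omega
    · exact decidable_one F
    · exact decidable_two F

end Pool.Agent.Lib.MP_79b5eb_lc.M2
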