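import Mathlib

/-!
The vector space `V` of polynomials with components, the operators `opS s`.
-/

set_option autoImplicit false

namespace Pool.Agent.Lib.MP_79b5eb_lc.M2

abbrev Letter : Type := ℕ × ℕ × ℕ
abbrev B : Type := ℕ × Multiset Letter
abbrev V : Type := B →₀ ℚ

noncomputable def bas (c : ℕ) (μ : Multiset Letter) : V := Finsupp.single (c, μ) 1

theorem V_ext {M : Type*} [AddCommMonoid M] [Module ℚ M] {f g : V →ₗ[ℚ] M}
    (h : ∀ c μ, f (bas c μ) = g (bas c μ)) : f = g := by
  refine Finsupp.lhom_ext' fun b => LinearMap.ext_ring ?_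
  simpa [bas] using h b.1 b.2

noncomputable def mulS (s : Letter) : V →ₗ[ℚ] V :=
  Finsupp.lmapDomain ℚ ℚ fun b => (b.1, s ::ₘ b.2)

@[simp] theorem mulS_bas (s : Letter) (c : ℕ) (μ : Multiset Letter) :
    mulS s (bas c μ) = bas c (s ::ₘ μ) := by
  simp [mulS, bas]

theorem mulS_comm (s s' : Letter) (v : V) : mulS s (mulS s' v) = mulS s' (mulS s v) := by
  have : (mulS s) ∘ₗ (mulS s') = (mulS s') ∘ₗ (mulS s) := by
    apply V_ext; intro c μ
    simp [Multiset.cons_swap]
  exact LinearMap.congr_fun this v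

noncomputable def derB (i : ℕ) (b : B) : V :=
  ((b.2.filter fun s => s.1 = 0 ∧ s.2.1 < i).map
    fun s => bas b.1 ((1, i, s.2.1) ::ₘ b.2.erase s)).sum

noncomputable def der (i : ℕ) : V →ₗ[ℚ] V := Finsupp.linearCombination ℚ (derB i)

@[simp] theorem der_bas (i c : ℕ) (μ : Multiset Letter) : der i (bas c μ) = derB i (c, μ) := by
  simp [der, bas]

@[simp] theorem derB_zero (i c : ℕ) : derB i (c, 0) = 0 := by simp [derB]

noncomputable def eps (i : ℕ) (s : Letter) : V →ₗ[ℚ] V :=
  if s.1 = 0 ∧ s.2.1 < i then mulS (1, i, s.2.1) else 0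

theorem derB_cons (i c : ℕ) (s : Letter) (μ : Multiset Letter) :
    derB i (c, s ::ₘ μ) = mulS s (derB i (c, μ)) + eps i s (bas c μ) := by
  have key : ∀ s' ∈ μ.filter (fun s => s.1 = 0 ∧ s.2.1 < i),
      bas c ((1, i, s'.2.1) ::ₘ (s ::ₘ μ).erase s') =
        mulS s (bas c ((1, i, s'.2.1) ::ₘ μ.erase s')) := by
    intro s' hs'
    have hs'' : s' ∈ μ := (Multiset.mem_filter.1 hs').1
    rw [mulS_bas, Multiset.cons_swap]
    congr 2
    by_cases h : s = s'
    · subst h
      rw [Multiset.erase_cons_head, Multiset.cons_erase hs'']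
    · rw [Multiset.erase_cons_tail _ (Ne.symm (Ne.symm h))]
  unfold derB eps
  by_cases h : s.1 = 0 ∧ s.2.1 < i
  · rw [Multiset.filter_cons_of_pos (p := fun s : Letter => s.1 = 0 ∧ s.2.1 < i) _ h,
      Multiset.map_cons, Multiset.sum_cons, if_pos h, map_multiset_sum, Multiset.map_map]
    simp only [Multiset.erase_cons_head, mulS_bas]
    rw [add_comm]
    congr 1
    refine congrArg Multiset.sum (Multiset.map_congr rfl fun s' hs' => ?_)
    simpa using key s' hs'
  · rw [Multiset.filter_cons_of_neg (p := fun s : Letter => s.1 = 0 ∧ s.2.1 < i) _ h, if_neg h,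
      map_multiset_sum, Multiset.map_map]
    simp only [LinearMap.zero_apply, add_zero]
    refine congrArg Multiset.sum (Multiset.map_congr rfl fun s' hs' => ?_)
    simpa using key s' hs'

theorem der_mulS (i : ℕ) (s : Letter) (v : V) :
    der i (mulS s v) = mulS s (der i v) + eps i s v := by
  have : (der i) ∘ₗ (mulS s) = (mulS s) ∘ₗ (der i) + eps i s := by
    apply V_ext; intro c μ
    simp [derB_cons]
  exact LinearMap.congr_fun this v

theorem eps_mulS (i : ℕ) (s s' : Letter) (v : V) :
    eps i s (mulS s' v) = mulS s' (eps i s v) := by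
  unfold eps
  split_ifs
  · exact mulS_comm _ _ _
  · simp

theorem der_mulS_of_ne (i : ℕ) (s : Letter) (h : s.1 ≠ 0) (v : V) :
    der i (mulS s v) = mulS s (der i v) := by
  rw [der_mulS, eps, if_neg (fun h' => h h'.1)]
  simp

theorem der_eps (i j : ℕ) (s : Letter) (v : V) : der i (eps j s v) = eps j s (der i v) := by
  unfold eps
  split_ifs
  · exact der_mulS_of_ne _ _ (by simp) _
  · simp

theorem der_comm (i j : ℕ) (v : V) : der i (der j v) = der j (der i v) := by
  have : (der i) ∘ₗ (der j) = (der j) ∘ₗ (der i) := by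
    apply V_ext; intro c μ
    induction μ using Multiset.induction_on with
    | empty => simp
    | cons s μ ih =>
      rw [← mulS_bas]
      simp only [LinearMap.comp_apply] at ih ⊢
      rw [der_mulS, map_add, der_mulS, der_eps, ih, der_mulS, map_add, der_mulS, der_eps]
      abel
  exact LinearMap.congr_fun this v

noncomputable def opS (s : Letter) : V →ₗ[ℚ] V := mulS s + if s.1 = 0 then der s.2.1 else 0

theorem opS_of_ne {s : Letter} (h : s.1 ≠ 0) : opS s = mulS s := by simp [opS, h]

theorem opS_of_eq {s : Letter} (h : s.1 = 0) (v : V) : opS s v = mulS s v + der s.2.1 v := by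
  simp [opS, h]

/-- The commutator of two operators. -/
noncomputable def kap (s s' : Letter) : V →ₗ[ℚ] V :=
  if s.1 = 0 ∧ s'.1 = 0 then
    (if s'.2.1 < s.2.1 then mulS (1, s.2.1, s'.2.1) else 0)
      - (if s.2.1 < s'.2.1 then mulS (1, s'.2.1, s.2.1) else 0)
  else 0

theorem opS_comm (s s' : Letter) (v : V) :
    opS s (opS s' v) = opS s' (opS s v) + kap s s' v := by
  by_cases h : s.1 = 0 <;> by_cases h' : s'.1 = 0
  · rw [opS_of_eq h, opS_of_eq h', opS_of_eq h, opS_of_eq h', map_add, map_add, map_add, map_add,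
      der_mulS, der_mulS, mulS_comm s s', der_comm]
    simp only [eps, kap, h, h', true_and, and_self, if_true, LinearMap.sub_apply]
    split_ifs <;> (try simp only [LinearMap.zero_apply]) <;> abel
  · rw [opS_of_eq h, opS_of_ne h', opS_of_eq h, map_add, der_mulS_of_ne _ _ h', mulS_comm s s']
    simp [kap, h']
  · rw [opS_of_eq h', opS_of_ne h, opS_of_eq h', map_add, der_mulS_of_ne _ _ h, mulS_comm s s']
    simp [kap, h]
  · rw [opS_of_ne h, opS_of_ne h', mulS_comm]
    simp [kap, h]

/-- Products of the operators along a word. -/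
noncomputable def opW (w : List Letter) (v : V) : V := w.foldr (fun s f => opS s f) v

@[simp] theorem opW_nil (v : V) : opW [] v = v := rfl
@[simp] theorem opW_cons (s : Letter) (w : List Letter) (v : V) :
    opW (s :: w) v = opS s (opW w v) := rfl
theorem opW_append (w w' : List Letter) (v : V) : opW (w ++ w') v = opW w (opW w' v) := by
  induction w with
  | nil => rfl
  | cons s w ih => simp [ih]

end Pool.Agent.Lib.MP_79b5eb_lc.M2
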