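import Pool.Agent.Lib.MP_79b5eb_lc.Alg
import Pool.Agent.Lib.MP_79b5eb_lc.M2.Alg

/-!
A quasi-identity holds in the variety `M(2)` iff the conclusion lies in the ideal generated by the
premises in the algebra of generic matrices.
-/

set_option autoImplicit false

universe u

namespace Pool.Agent.Lib.MP_79b5eb_lc.M2

/-! ### Formal polynomials -/

section formal
variable {F A : Type u} [Field F] [NonUnitalRing A] [Module F A]

@[simp] theorem evalP_nil (v : ℕ → A) : evalP v ([] : List (F × (ℕ × List ℕ))) = 0 := rfl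
theorem evalP_cons (v : ℕ → A) (t : F × (ℕ × List ℕ)) (p : List (F × (ℕ × List ℕ))) :
    evalP v (t :: p) = t.1 • wval v t.2.1 t.2.2 + evalP v p := by simp [evalP]
theorem evalP_append (v : ℕ → A) (p p' : List (F × (ℕ × List ℕ))) :
    evalP v (p ++ p') = evalP v p + evalP v p' := by simp [evalP]

/-- Multiplication of a formal polynomial by a scalar. -/
def fsmul (c : F) (p : List (F × (ℕ × List ℕ))) : List (F × (ℕ × List ℕ)) :=
  p.map fun t => (c * t.1, t.2)
/-- Multiplication of a formal polynomial by a letter from the left. -/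
def fleft (j : ℕ) (p : List (F × (ℕ × List ℕ))) : List (F × (ℕ × List ℕ)) :=
  p.map fun t => (t.1, j, t.2.1 :: t.2.2)
/-- Multiplication of a formal polynomial by a letter from the right. -/
def fright (j : ℕ) (p : List (F × (ℕ × List ℕ))) : List (F × (ℕ × List ℕ)) :=
  p.map fun t => (t.1, t.2.1, t.2.2 ++ [j])

theorem evalP_fsmul (v : ℕ → A) (c : F) (p : List (F × (ℕ × List ℕ))) :
    evalP v (fsmul c p) = c • evalP v p := by
  induction p with
  | nil => simp [fsmul]
  | cons t p ih =>
    have : fsmul c (t :: p) = (c * t.1, t.2) :: fsmul c p := rfl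
    rw [this, evalP_cons, evalP_cons, ih, smul_add, mul_smul]

theorem evalP_fleft [SMulCommClass F A A] (v : ℕ → A) (j : ℕ) (p : List (F × (ℕ × List ℕ))) :
    evalP v (fleft j p) = v j * evalP v p := by
  induction p with
  | nil => simp [fleft]
  | cons t p ih =>
    have : fleft j (t :: p) = (t.1, j, t.2.1 :: t.2.2) :: fleft j p := rfl
    rw [this, evalP_cons, evalP_cons, ih, mul_add, mul_smul_comm]
    rfl

theorem wval_concat (v : ℕ → A) (i j : ℕ) (l : List ℕ) :
    wval v i (l ++ [j]) = wval v i l * v j := by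
  induction l generalizing i with
  | nil => rfl
  | cons k l ih =>
    change v i * wval v k (l ++ [j]) = v i * wval v k l * v j
    rw [ih, mul_assoc]

theorem evalP_fright [IsScalarTower F A A] (v : ℕ → A) (j : ℕ) (p : List (F × (ℕ × List ℕ))) :
    evalP v (fright j p) = evalP v p * v j := by
  induction p with
  | nil => simp [fright]
  | cons t p ih =>
    have : fright j (t :: p) = (t.1, t.2.1, t.2.2 ++ [j]) :: fright j p := rfl
    rw [this, evalP_cons, evalP_cons, ih, add_mul, smul_mul_assoc]
    simp only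
    rw [wval_concat]

theorem wval_congr {v v' : ℕ → A} (i : ℕ) (l : List ℕ) (h : ∀ j ∈ i :: l, v j = v' j) :
    wval v i l = wval v' i l := by
  induction l generalizing i with
  | nil => exact h i (by simp)
  | cons k l ih =>
    change v i * wval v k l = v' i * wval v' k l
    rw [h i (by simp), ih k fun j hj => h j (by simp at hj ⊢; tauto)]

theorem evalP_congr {v v' : ℕ → A} (p : List (F × (ℕ × List ℕ)))
    (h : ∀ t ∈ p, ∀ j ∈ t.2.1 :: t.2.2, v j = v' j) : evalP v p = evalP v' p := by
  induction p with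
  | nil => rfl
  | cons t p ih =>
    rw [evalP_cons, evalP_cons, ih fun t ht => h t (by simp [ht]), wval_congr _ _ (h t (by simp))]

end formal

/-! ### Generic matrices over `F` -/

section generic
variable (F : Type u) [Field F] [CharZero F]

abbrev MF : Type u := Matrix (Fin 2) (Fin 2) (MvPolynomial Letter F)

noncomputable def gXF (i : ℕ) : MF F :=
  !![MvPolynomial.X (4, i, 0), MvPolynomial.X (4, i, 1);
     MvPolynomial.X (4, i, 2), MvPolynomial.X (4, i, 3)]

noncomputable def gvalF (w : List ℕ) : MF F := (w.map (gXF F)).prod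

/-- Extension of scalars. -/
noncomputable def ext : MM →+* MF F := (MvPolynomial.map (algebraMap ℚ F)).mapMatrix

theorem ext_gX (i : ℕ) : ext F (gX i) = gXF F i := by
  unfold ext gX gXF
  ext a b
  fin_cases a <;> fin_cases b <;> simp

theorem ext_gval (w : List ℕ) : ext F (gval w) = gvalF F w := by
  unfold gval gvalF
  rw [map_list_prod, List.map_map]
  congr 1
  apply List.map_congr_left
  intro i _
  exact ext_gX F i

theorem ext_smul (r : ℚ) (z : MM) : ext F (r • z) = (algebraMap ℚ F r) • ext F z := by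
  unfold ext
  ext a b
  simp [MvPolynomial.smul_eq_C_mul]

theorem QPoly_toF (p : QPoly) :
    QPoly.toF F p = (QPoly.toF ℚ p).map fun t => (algebraMap ℚ F t.1, t.2) := by
  unfold QPoly.toF
  rw [List.map_map]
  apply List.map_congr_left
  intro t _
  simp

theorem wval_gX (i : ℕ) (l : List ℕ) : wval gX i l = gval (i :: l) := wval_eq_prod gX i l

theorem wval_gXF (i : ℕ) (l : List ℕ) : wval (gXF F) i l = gvalF F (i :: l) :=
  wval_eq_prod (gXF F) i l

/-- The generic value. -/
noncomputable def genQ (p : QPoly) : MM := evalP gX (QPoly.toF ℚ p)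
noncomputable def genF (p : QPoly) : MF F := evalP (gXF F) (QPoly.toF F p)

theorem ext_genQ (p : QPoly) : ext F (genQ p) = genF F p := by
  unfold genQ genF
  rw [QPoly_toF F p]
  generalize QPoly.toF ℚ p = P
  induction P with
  | nil => simp
  | cons t P ih =>
    rw [evalP_cons, List.map_cons, evalP_cons, map_add, ih, ext_smul, wval_gX, wval_gXF, ext_gval]

/-! ### Specialisation -/

/-- Specialisation of the generic matrices. -/
noncomputable def spec (V : ℕ → Matrix (Fin 2) (Fin 2) F) : MF F →ₐ[F] Matrix (Fin 2) (Fin 2) F :=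
  (MvPolynomial.aeval fun s : Letter => V s.2.1 (if s.2.2 / 2 = 0 then 0 else 1)
    (if s.2.2 % 2 = 0 then 0 else 1)).mapMatrix

theorem spec_gXF (V : ℕ → Matrix (Fin 2) (Fin 2) F) (i : ℕ) : spec F V (gXF F i) = V i := by
  unfold spec gXF
  ext a b
  fin_cases a <;> fin_cases b <;> simp

theorem spec_evalP (V : ℕ → Matrix (Fin 2) (Fin 2) F) (P : List (F × (ℕ × List ℕ))) :
    spec F V (evalP (gXF F) P) = evalP V P := by
  rw [evalP_mapA]
  simp only [spec_gXF]

/-- Identities of `2 × 2`-matrices hold over polynomial rings. -/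
theorem identity_MF (P : List (F × (ℕ × List ℕ)))
    (h : ∀ v : ℕ → Matrix (Fin 2) (Fin 2) F, evalP v P = 0) (v : ℕ → MF F) : evalP v P = 0 := by
  have : Infinite F := CharZero.infinite F
  ext1 a b
  apply MvPolynomial.funext
  intro x
  have h1 := evalP_mapA ((MvPolynomial.aeval x : MvPolynomial Letter F →ₐ[F] F).mapMatrix (m := Fin 2)) v P
  rw [h] at h1
  have h2 := congrFun (congrFun h1 a) b
  simpa using h2

end generic

/-- The ideal generated by the generic values of the polynomials. -/
noncomputable def JQ (m : ℕ) (ps : List QPoly) : Submodule ℚ MM :=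
  Idl m {z | ∃ p ∈ ps, z = genQ p}

/-! ### Sufficiency -/

section suff
variable {F A : Type u} [Field F] [CharZero F] [NonUnitalRing A] [Module F A]
  [IsScalarTower F A A] [SMulCommClass F A A]

theorem gvalF_cons (j : ℕ) (w : List ℕ) : gval (j :: w) = gX j * gval w := by simp [gval]

theorem good_of_mem {v : ℕ → A} {ps : List QPoly}
    (hv : ∀ p ∈ ps, evalP v (QPoly.toF F p) = 0) {m : ℕ} {z : MM} (hz : z ∈ JQ m ps) :
    ∃ P : List (F × (ℕ × List ℕ)), (∀ V, evalP V P = spec F V (ext F z)) ∧ evalP v P = 0 := by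
  induction hz using Submodule.span_induction with
  | mem z hz =>
    obtain ⟨_, ⟨p, hp, rfl⟩, w, w', _, _, rfl⟩ := hz
    have h1 : ∀ w : List ℕ, ∀ z : MM,
        (∃ P : List (F × (ℕ × List ℕ)), (∀ V, evalP V P = spec F V (ext F z)) ∧ evalP v P = 0) →
        (∃ P : List (F × (ℕ × List ℕ)), (∀ V, evalP V P = spec F V (ext F (gval w * z))) ∧
          evalP v P = 0) := by
      intro w z hz
      induction w with
      | nil => simpa [gval] using hz
      | cons j w ih =>
        obtain ⟨P, h1, h2⟩ := ih
        refine ⟨fleft j P, fun V => ?_, ?_⟩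
        · rw [evalP_fleft, h1, gvalF_cons, mul_assoc, map_mul (ext F) (gX j), map_mul (spec F V),
            ext_gX, spec_gXF]
        · rw [evalP_fleft, h2, mul_zero]
    have h2 : ∀ w : List ℕ, ∀ z : MM,
        (∃ P : List (F × (ℕ × List ℕ)), (∀ V, evalP V P = spec F V (ext F z)) ∧ evalP v P = 0) →
        (∃ P : List (F × (ℕ × List ℕ)), (∀ V, evalP V P = spec F V (ext F (z * gval w))) ∧
          evalP v P = 0) := by
      intro w
      induction w with
      | nil => intro z hz; simpa [gval] using hz
      | cons j w ih =>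
        rintro z ⟨P, h1, h2⟩
        rw [gvalF_cons, ← mul_assoc]
        refine ih _ ⟨fright j P, fun V => ?_, ?_⟩
        · rw [evalP_fright, h1, map_mul (ext F), map_mul (spec F V), ext_gX, spec_gXF]
        · rw [evalP_fright, h2, zero_mul]
    refine h2 w' _ (h1 w _ ⟨QPoly.toF F p, fun V => ?_, hv p hp⟩)
    rw [ext_genQ, genF, spec_evalP]
  | zero => exact ⟨[], fun V => by simp, by simp⟩
  | add x y _ _ hx hy =>
    obtain ⟨P, h1, h2⟩ := hx
    obtain ⟨P', h1', h2'⟩ := hy
    refine ⟨P ++ P', fun V => ?_, ?_⟩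
    · rw [evalP_append, h1, h1', map_add, map_add]
    · rw [evalP_append, h2, h2', add_zero]
  | smul a x _ hx =>
    obtain ⟨P, h1, h2⟩ := hx
    refine ⟨fsmul (algebraMap ℚ F a) P, fun V => ?_, ?_⟩
    · rw [evalP_fsmul, h1, ext_smul, map_smul]
    · rw [evalP_fsmul, h2, smul_zero]

theorem holds_of_mem (hA : InM F 2 A) {q : QI} {m : ℕ} (h : genQ q.2 ∈ JQ m q.1) :
    Holds F A q := by
  intro v hv
  obtain ⟨P, h1, h2⟩ := good_of_mem (F := F) hv h
  have h3 := hA (QPoly.toF F q.2 ++ fsmul (-1) P) (fun V => by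
    rw [evalP_append, evalP_fsmul, h1, ext_genQ, genF, spec_evalP, neg_smul, one_smul,
      add_neg_cancel]) v
  rw [evalP_append, evalP_fsmul, h2, smul_zero, add_zero] at h3
  exact h3

end suff

/-! ### Necessity -/

section nec
variable (F : Type u) [Field F] [CharZero F] (m : ℕ) (ps : List QPoly)

/-- The algebra generated by the first `m` generic matrices. -/
noncomputable def SF : Subalgebra F (MF F) := Algebra.adjoin F {z | ∃ i < m, z = gXF F i}

/-- The ideal over `F`. -/
noncomputable def IF : Submodule F (MF F) :=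
  Submodule.span F {z | ∃ p ∈ ps, ∃ w w' : List ℕ, (∀ i ∈ w, i < m) ∧ (∀ i ∈ w', i < m) ∧
    z = gvalF F w * genF F p * gvalF F w'}

theorem IF_left {s z : MF F} (hs : s ∈ SF F m) (hz : z ∈ IF F m ps) : s * z ∈ IF F m ps := by
  induction hs using Algebra.adjoin_induction generalizing z with
  | mem s hs =>
    obtain ⟨i, hi, rfl⟩ := hs
    induction hz using Submodule.span_induction with
    | mem z hz =>
      obtain ⟨p, hp, w, w', hw, hw', rfl⟩ := hz
      refine Submodule.subset_span ⟨p, hp, i :: w, w', ?_, hw', ?_⟩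
      · intro j hj
        rcases List.mem_cons.1 hj with rfl | hj
        · exact hi
        · exact hw j hj
      · simp [gvalF, mul_assoc]
    | zero => rw [mul_zero]; exact Submodule.zero_mem _
    | add x y _ _ hx hy => rw [mul_add]; exact Submodule.add_mem _ hx hy
    | smul a x _ hx => rw [mul_smul_comm]; exact Submodule.smul_mem _ _ hx
  | algebraMap r => rw [← Algebra.smul_def]; exact Submodule.smul_mem _ _ hz
  | add x y _ _ hx hy => rw [add_mul]; exact Submodule.add_mem _ (hx hz) (hy hz)
  | mul x y _ _ hx hy => rw [mul_assoc]; exact hx (hy hz)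

theorem IF_right {s z : MF F} (hs : s ∈ SF F m) (hz : z ∈ IF F m ps) : z * s ∈ IF F m ps := by
  induction hs using Algebra.adjoin_induction generalizing z with
  | mem s hs =>
    obtain ⟨i, hi, rfl⟩ := hs
    induction hz using Submodule.span_induction with
    | mem z hz =>
      obtain ⟨p, hp, w, w', hw, hw', rfl⟩ := hz
      refine Submodule.subset_span ⟨p, hp, w, w' ++ [i], hw, ?_, ?_⟩
      · intro j hj
        rcases List.mem_append.1 hj with hj | hj
        · exact hw' j hj
        · rw [List.mem_singleton.1 hj]; exact hi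
      · simp [gvalF, mul_assoc]
    | zero => rw [zero_mul]; exact Submodule.zero_mem _
    | add x y _ _ hx hy => rw [add_mul]; exact Submodule.add_mem _ hx hy
    | smul a x _ hx => rw [smul_mul_assoc]; exact Submodule.smul_mem _ _ hx
  | algebraMap r => rw [← Algebra.commutes, ← Algebra.smul_def]; exact Submodule.smul_mem _ _ hz
  | add x y _ _ hx hy => rw [mul_add]; exact Submodule.add_mem _ (hx hz) (hy hz)
  | mul x y _ _ hx hy => rw [← mul_assoc]; exact hy (hx hz)

/-- The congruence. -/
noncomputable def conF : RingCon (SF F m) where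
  r x y := (x : MF F) - (y : MF F) ∈ IF F m ps
  iseqv := ⟨fun x => by rw [sub_self]; exact Submodule.zero_mem _,
    fun {x y} h => by rw [← neg_sub]; exact Submodule.neg_mem _ h,
    fun {x y z} h h' => by
      have := Submodule.add_mem _ h h'
      simpa using this⟩
  add' {w x y z} h h' := by
    have := Submodule.add_mem _ h h'
    have e : ((w + y : SF F m) : MF F) - ((x + z : SF F m) : MF F) =
      ((w : MF F) - x) + ((y : MF F) - z) := by push_cast; abel
    rw [e]
    exact this
  mul' {w x y z} h h' := by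
    have e : ((w * y : SF F m) : MF F) - ((x * z : SF F m) : MF F) =
      ((w : MF F) - x) * y + x * ((y : MF F) - z) := by
        push_cast
        rw [sub_mul, mul_sub]
        abel
    rw [e]
    exact Submodule.add_mem _ (IF_right F m ps y.2 h) (IF_left F m ps x.2 h')

/-- The quotient. -/
abbrev QF : Type u := (conF F m ps).Quotient

/-- The projection. -/
noncomputable def piF : @AlgHom F (SF F m) (QF F m ps) _ Ring.toSemiring Ring.toSemiring _ _ :=
  (conF F m ps).mkₐ (α := F)

theorem piF_surjective : Function.Surjective (piF F m ps) :=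
  (conF F m ps).mkₐ_surjective (α := F)

theorem piF_eq_zero (x : SF F m) : piF F m ps x = 0 ↔ (x : MF F) ∈ IF F m ps := by
  have : piF F m ps x = 0 ↔ (conF F m ps) x 0 := by
    rw [← map_zero (piF F m ps)]
    exact (conF F m ps).eq
  rw [this]
  change (x : MF F) - ((0 : SF F m) : MF F) ∈ _ ↔ _
  simp

theorem inM_QF : InM F 2 (QF F m ps) := by
  intro P hP v
  choose v' hv' using fun i => piF_surjective F m ps (v i)
  have h1 := evalP_mapA (F := F) (A := SF F m) (B := QF F m ps) (piF F m ps) v' P
  simp only [hv'] at h1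
  rw [← h1]
  have h2 : evalP v' P = 0 := by
    apply Subtype.ext
    have h3 := evalP_mapA (SF F m).val v' P
    rw [identity_MF F P hP] at h3
    exact h3
  rw [h2, map_zero]

theorem mem_IF_of_holds {q : QI} (hl : ∀ p ∈ q.2 :: q.1, ∀ t ∈ p, ∀ j ∈ t.2.1 :: t.2.2, j < m)
    (h : Holds F (QF F m q.1) q) : genF F q.2 ∈ IF F m q.1 := by
  classical
  set v' : ℕ → SF F m := fun i => if hi : i < m then
    ⟨gXF F i, Algebra.subset_adjoin ⟨i, hi, rfl⟩⟩ else 0 with hv'
  have e1 : ∀ p ∈ q.2 :: q.1, ((evalP v' (QPoly.toF F p) : SF F m) : MF F) = genF F p := by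
    intro p hp
    have h3 := evalP_mapA (SF F m).val v' (QPoly.toF F p)
    refine h3.trans ?_
    unfold genF
    apply evalP_congr
    intro t ht j hj
    obtain ⟨t', ht', rfl⟩ := List.mem_map.1 ht
    have hj' : j < m := hl p hp t' ht' j hj
    simp [hv', hj']
  have e2 : ∀ p ∈ q.2 :: q.1, evalP (fun j => piF F m q.1 (v' j)) (QPoly.toF F p) =
      piF F m q.1 (evalP v' (QPoly.toF F p)) := by
    intro p _
    exact (evalP_mapA (F := F) (A := SF F m) (B := QF F m q.1) (piF F m q.1) v' (QPoly.toF F p)).symm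
  have h1 := h (fun j => piF F m q.1 (v' j)) (fun p hp => by
    have hp' : p ∈ q.2 :: q.1 := by simp [hp]
    rw [e2 p hp', piF_eq_zero, e1 p hp']
    refine Submodule.subset_span ⟨p, hp, [], [], by simp, by simp, ?_⟩
    simp [gvalF])
  rw [e2 q.2 (by simp), piF_eq_zero, e1 q.2 (by simp)] at h1
  exact h1

end nec

/-! ### Descent -/

theorem descent (F : Type u) [Field F] [CharZero F] (s : Set MM) (x : MM)
    (h : ext F x ∈ Submodule.span F (ext F '' s)) : x ∈ Submodule.span ℚ s := by
  obtain ⟨ρ, hρ⟩ := LinearMap.exists_leftInverse_of_injective (Algebra.linearMap ℚ F)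
    (LinearMap.ker_eq_bot.2 (algebraMap ℚ F).injective)
  have hρ' : ∀ r : ℚ, ρ (algebraMap ℚ F r) = r := fun r => LinearMap.congr_fun hρ r
  rw [Submodule.mem_span_set'] at h
  obtain ⟨n, f, g, hg⟩ := h
  choose z hz hz' using fun i => (g i).2
  have hx : x = ∑ i, (ρ (f i)) • z i := by
    ext a b α
    have h1 := congrArg (fun M : MF F => MvPolynomial.coeff α (M a b)) hg
    simp only [← hz'] at h1
    have e1 : ∀ y : MM, MvPolynomial.coeff α ((ext F y) a b) =
        algebraMap ℚ F (MvPolynomial.coeff α (y a b)) := by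
      intro y
      unfold ext
      simp [MvPolynomial.coeff_map]
    have h2 := congrArg ρ h1
    rw [e1, hρ'] at h2
    rw [← h2]
    simp only [Matrix.sum_apply, Matrix.smul_apply, MvPolynomial.coeff_sum, MvPolynomial.coeff_smul,
      e1, map_sum, smul_eq_mul]
    refine Finset.sum_congr rfl fun i _ => ?_
    rw [mul_comm (f i), ← Algebra.smul_def, map_smul, smul_eq_mul, mul_comm]
  rw [hx]
  exact Submodule.sum_mem _ fun i _ => Submodule.smul_mem _ _ (Submodule.subset_span (hz i))

/-- A quasi-identity holds in `M(2)` iff the conclusion is in the ideal generated by the premises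
in the algebra of generic matrices. -/
theorem holds_iff (F : Type u) [Field F] [CharZero F] (q : QI) (m : ℕ)
    (hl : ∀ p ∈ q.2 :: q.1, ∀ t ∈ p, ∀ j ∈ t.2.1 :: t.2.2, j < m) :
    (∀ (A : Type u) [NonUnitalRing A] [Module F A] [IsScalarTower F A A] [SMulCommClass F A A],
      InM F 2 A → Holds F A q) ↔ genQ q.2 ∈ JQ m q.1 := by
  constructor
  · intro h
    have h1 := mem_IF_of_holds F m hl (h (QF F m q.1) (inM_QF F m q.1))
    apply descent F
    rw [ext_genQ]
    refine Submodule.span_mono ?_ h1
    rintro z ⟨p, hp, w, w', hw, hw', rfl⟩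
    refine ⟨gval w * genQ p * gval w', ⟨genQ p, ⟨p, hp, rfl⟩, w, w', hw, hw', rfl⟩, ?_⟩
    rw [map_mul, map_mul, ext_gval, ext_gval, ext_genQ]
  · intro h A _ _ _ _ hA
    exact holds_of_mem hA h

end Pool.Agent.Lib.MP_79b5eb_lc.M2
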