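import Pool.Agent.Lib.MP_79b5eb_lc.M2.Holds
import Pool.Agent.Lib.MP_79b5eb_lc.M2.CertS2

/-!
Codes of the inputs, positive and negative side.
-/

set_option autoImplicit false

universe u

namespace Pool.Agent.Lib.MP_79b5eb_lc.M2

/-! ### Codes of words and polynomials -/

def wcode (l : List ℕ) : SL := l.foldr (fun i L => lamL (2 * i) L) [(true, 0, []), (true, 3, [])]

theorem sval_wcode (l : List ℕ) : sval (wcode l) = emb (gval l) := by
  induction l with
  | nil =>
    have : gval [] = 1 := by simp [gval]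
    rw [this, emb_one]
    simp [wcode, stval_eq, sgn]
  | cons i l ih =>
    have : wcode (i :: l) = lamL (2 * i) (wcode l) := rfl
    rw [this, sval_lamL, ih, gvalF_cons, emb_left]

def cstep (t : (ℕ × ℕ × ℕ) × (ℕ × List ℕ)) (st : ℕ × SL) : ℕ × SL :=
  ((t.1.2.2 + 1) * st.1, repL (st.1 * t.1.1) (wcode (t.2.1 :: t.2.2)) ++
    (repL (st.1 * t.1.2.1) (negL (wcode (t.2.1 :: t.2.2))) ++ repL (t.1.2.2 + 1) st.2))

def cpoly (p : QPoly) : ℕ × SL := p.foldr cstep (1, [])

def codeP (p : QPoly) : SL := (cpoly p).2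
def den (p : QPoly) : ℕ := (cpoly p).1

section prims
variable {α : Type*} [Primcodable α]

@[fun_prop] theorem p_wcode {f : α → List ℕ} (hf : Primrec f) :
    Primrec fun a => wcode (f a) := by unfold wcode; fun_prop

@[fun_prop] theorem p_cpoly {f : α → QPoly} (hf : Primrec f) :
    Primrec fun a => cpoly (f a) := by unfold cpoly cstep; fun_prop

@[fun_prop] theorem p_codeP {f : α → QPoly} (hf : Primrec f) :
    Primrec fun a => codeP (f a) := by unfold codeP; fun_prop

end prims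

theorem den_pos (p : QPoly) : 0 < den p := by
  unfold den cpoly
  induction p with
  | nil => exact Nat.one_pos
  | cons t p ih => exact Nat.mul_pos (Nat.succ_pos _) ih

theorem sval_codeP (p : QPoly) : sval (codeP p) = emb ((den p : ℚ) • genQ p) := by
  induction p with
  | nil => simp [codeP, cpoly, genQ, QPoly.toF, evalP]
  | cons t p ih =>
    have h1 : codeP (t :: p) = repL (den p * t.1.1) (wcode (t.2.1 :: t.2.2)) ++
      (repL (den p * t.1.2.1) (negL (wcode (t.2.1 :: t.2.2))) ++ repL (t.1.2.2 + 1) (codeP p)) := rfl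
    have h2 : den (t :: p) = (t.1.2.2 + 1) * den p := rfl
    have h3 : genQ (t :: p) = (((t.1.1 : ℚ) - (t.1.2.1 : ℚ)) / ((t.1.2.2 : ℚ) + 1)) •
        gval (t.2.1 :: t.2.2) + genQ p := by
      unfold genQ
      have : QPoly.toF ℚ (t :: p) = (((t.1.1 : ℚ) - (t.1.2.1 : ℚ)) / ((t.1.2.2 : ℚ) + 1), t.2) ::
        QPoly.toF ℚ p := rfl
      rw [this, evalP_cons, wval_gX]
    rw [h1, h2, h3, sval_append, sval_append, sval_repL, sval_repL, sval_repL, sval_negL, ih,
      sval_wcode, smul_add, smul_smul, map_add, map_smul, map_smul, map_smul]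
    have h4 : ((t.1.2.2 : ℚ) + 1) ≠ 0 := by positivity
    have h5 : (((t.1.2.2 + 1) * den p : ℕ) : ℚ) *
        (((t.1.1 : ℚ) - (t.1.2.1 : ℚ)) / ((t.1.2.2 : ℚ) + 1)) =
        (den p : ℚ) * t.1.1 - (den p : ℚ) * t.1.2.1 := by
      push_cast
      field_simp
    rw [h5, sub_smul, smul_neg, smul_smul]
    push_cast
    abel

/-! ### Letters -/

def lets (p : QPoly) : List ℕ := p.flatMap fun t => t.2.1 :: t.2.2
def letsQ (q : QI) : List ℕ := (q.2 :: q.1).flatMap lets
def bnd (q : QI) : ℕ := (letsQ q).foldr (fun a b => a + b) 1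

@[fun_prop] theorem p_letsQ {α : Type*} [Primcodable α] {f : α → QI} (hf : Primrec f) :
    Primrec fun a => letsQ (f a) := by unfold letsQ lets; fun_prop
@[fun_prop] theorem p_bnd {α : Type*} [Primcodable α] {f : α → QI} (hf : Primrec f) :
    Primrec fun a => bnd (f a) := by unfold bnd; fun_prop

theorem lt_foldr (l : List ℕ) : ∀ i ∈ l, i < l.foldr (fun a b => a + b) 1 := by
  have h0 : ∀ l : List ℕ, 1 ≤ l.foldr (fun a b => a + b) 1 := by
    intro l
    induction l with
    | nil => exact le_rfl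
    | cons a l ih => rw [List.foldr_cons]; omega
  induction l with
  | nil => simp
  | cons a l ih =>
    intro i hi
    have := h0 l
    rw [List.foldr_cons]
    rcases List.mem_cons.1 hi with rfl | hi
    · omega
    · have := ih i hi; omega

theorem lt_bnd (q : QI) : ∀ p ∈ q.2 :: q.1, ∀ t ∈ p, ∀ j ∈ t.2.1 :: t.2.2, j < bnd q := by
  intro p hp t ht j hj
  apply lt_foldr
  unfold letsQ lets
  exact List.mem_flatMap.2 ⟨p, hp, List.mem_flatMap.2 ⟨t, ht, hj⟩⟩

theorem genQ_mem_RR {m : ℕ} {p : QPoly} (h : ∀ t ∈ p, ∀ j ∈ t.2.1 :: t.2.2, j < m) :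
    genQ p ∈ RR m := by
  induction p with
  | nil => exact Submodule.zero_mem _
  | cons t p ih =>
    have : genQ (t :: p) = (((t.1.1 : ℚ) - (t.1.2.1 : ℚ)) / ((t.1.2.2 : ℚ) + 1)) •
        gval (t.2.1 :: t.2.2) + genQ p := by
      unfold genQ
      have : QPoly.toF ℚ (t :: p) = (((t.1.1 : ℚ) - (t.1.2.1 : ℚ)) / ((t.1.2.2 : ℚ) + 1), t.2) ::
        QPoly.toF ℚ p := rfl
      rw [this, evalP_cons, wval_gX]
    rw [this]
    exact Submodule.add_mem _ (Submodule.smul_mem _ _ (Submodule.subset_span ⟨_, h t (by simp), rfl⟩))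
      (ih fun t ht => h t (by simp [ht]))

/-! ### The ideal -/

noncomputable def ums (ps : List QPoly) (j : ℕ) : MM :=
  (ps.map fun p => (den p : ℚ) • genQ p).getD j 0

theorem ums_zero (ps : List QPoly) (j : ℕ) (h : ps.length ≤ j) : ums ps j = 0 := by
  unfold ums
  rw [List.getD_eq_default]
  simpa using h

theorem ums_lt (ps : List QPoly) (j : ℕ) (h : j < ps.length) :
    ums ps j = (den ps[j] : ℚ) • genQ ps[j] := by
  unfold ums
  rw [List.getD_eq_getElem _ _ (by simpa using h)]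
  simp

theorem ums_RR {m : ℕ} {ps : List QPoly} (h : ∀ p ∈ ps, ∀ t ∈ p, ∀ j ∈ t.2.1 :: t.2.2, j < m)
    (j : ℕ) : ums ps j ∈ RR m := by
  by_cases hj : j < ps.length
  · rw [ums_lt _ _ hj]
    exact Submodule.smul_mem _ _ (genQ_mem_RR (h _ (List.getElem_mem hj)))
  · rw [ums_zero _ _ (by omega)]
    exact Submodule.zero_mem _

theorem emb_ums (ps : List QPoly) (j : ℕ) :
    emb (ums ps j) = sval ((ps.map codeP).getD j []) := by
  by_cases hj : j < ps.length
  · rw [ums_lt _ _ hj, List.getD_eq_getElem _ _ (by simpa using hj), List.getElem_map, sval_codeP]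
  · rw [ums_zero _ _ (by omega), List.getD_eq_default _ _ (by simpa using hj)]
    simp

theorem Idl_ums (m : ℕ) (ps : List QPoly) : Idl m (Set.range (ums ps)) = JQ m ps := by
  apply le_antisymm
  · apply Submodule.span_le.2
    rintro z ⟨_, ⟨j, rfl⟩, w, w', hw, hw', rfl⟩
    by_cases hj : j < ps.length
    · rw [ums_lt _ _ hj, mul_smul_comm, smul_mul_assoc]
      exact Submodule.smul_mem _ _ (Submodule.subset_span
        ⟨_, ⟨_, List.getElem_mem hj, rfl⟩, w, w', hw, hw', rfl⟩)
    · rw [ums_zero _ _ (by omega), mul_zero, zero_mul]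
      exact Submodule.zero_mem _
  · apply Submodule.span_le.2
    rintro z ⟨_, ⟨p, hp, rfl⟩, w, w', hw, hw', rfl⟩
    obtain ⟨j, hj, rfl⟩ := List.mem_iff_getElem.1 hp
    have h1 : gval w * ums ps j * gval w' ∈ Idl m (Set.range (ums ps)) :=
      Submodule.subset_span ⟨_, ⟨j, rfl⟩, w, w', hw, hw', rfl⟩
    rw [ums_lt _ _ hj, mul_smul_comm, smul_mul_assoc] at h1
    have h2 := Submodule.smul_mem _ ((den ps[j] : ℚ)⁻¹) h1
    have h3 : (den ps[j] : ℚ) ≠ 0 := by
      have := den_pos ps[j]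
      positivity
    rwa [smul_smul, inv_mul_cancel₀ h3, one_smul] at h2

theorem smul_mem_JQ {m : ℕ} {ps : List QPoly} (p : QPoly) :
    (den p : ℚ) • genQ p ∈ JQ m ps ↔ genQ p ∈ JQ m ps := by
  have h3 : (den p : ℚ) ≠ 0 := by
    have := den_pos p
    positivity
  constructor
  · intro h
    have h2 := Submodule.smul_mem _ ((den p : ℚ)⁻¹) h
    rwa [smul_smul, inv_mul_cancel₀ h3, one_smul] at h2
  · exact Submodule.smul_mem _ _

/-! ### Negative side -/

theorem neg_iff (q : QI) : (∃ t : List GE × WD, CertC (bnd q) (q.1.map codeP) (codeP q.2) t.1 t.2) ↔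
    ¬ genQ q.2 ∈ JQ (bnd q) q.1 := by
  have hb := lt_bnd q
  rw [← smul_mem_JQ, ← Idl_ums]
  refine cert_iff (bnd q) (q.1.map codeP) (codeP q.2) (ums q.1) ?_ ?_ ?_ _ ?_ ?_
  · intro j hj
    exact ums_zero _ _ (by simpa using hj)
  · exact ums_RR fun p hp => hb p (by simp [hp])
  · exact emb_ums q.1
  · exact Submodule.smul_mem _ _ (genQ_mem_RR (hb _ (by simp)))
  · exact (sval_codeP _).symm

theorem S1_neg : S1 fun q : QI => ¬ genQ q.2 ∈ JQ (bnd q) q.1 := by
  refine S1.of_eq (S1.comp (p := fun a : ℕ × List SL × SL => ∃ t : List GE × WD,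
    CertC a.1 a.2.1 a.2.2 t.1 t.2) (g := fun q : QI => (bnd q, q.1.map codeP, codeP q.2))
    S1_cert (by fun_prop)) fun q => neg_iff q

/-! ### Positive side -/

def lamWL (w w' : List ℕ) (L : SL) : SL :=
  w.foldr (fun i L => lamL (2 * i) L) (w'.foldr (fun i L => lamL (2 * i + 1) L) L)

@[fun_prop] theorem p_lamWL {α : Type*} [Primcodable α] {f g : α → List ℕ} {h : α → SL}
    (hf : Primrec f) (hg : Primrec g) (hh : Primrec h) :
    Primrec fun a => lamWL (f a) (g a) (h a) := by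
  unfold lamWL
  exact p_foldr (h := fun _ i L => lamL (2 * i) L) hf
    (p_foldr (h := fun _ i L => lamL (2 * i + 1) L) hg hh (by fun_prop)) (by fun_prop)

theorem sval_lamWL (w w' : List ℕ) (L : SL) (M : MM) (h : sval L = emb M) :
    sval (lamWL w w' L) = emb (gval w * M * gval w'.reverse) := by
  have h1 : sval (w'.foldr (fun i L => lamL (2 * i + 1) L) L) = emb (M * gval w'.reverse) := by
    induction w' with
    | nil => simpa [gval] using h
    | cons i w' ih =>
      rw [List.foldr_cons, sval_lamL, ih, ← emb_right]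
      simp [gval, mul_assoc]
  unfold lamWL
  generalize w'.foldr (fun i L => lamL (2 * i + 1) L) L = L' at h1
  induction w with
  | nil => simpa [gval] using h1
  | cons i w ih =>
    rw [List.foldr_cons, sval_lamL, ih, ← emb_left]
    simp [gval, mul_assoc]

theorem pos_iff (q : QI) : genQ q.2 ∈ JQ (bnd q) q.1 ↔ sval (codeP q.2) ∈
    Submodule.span ℚ {z | ∃ t : SL × (List ℕ × List ℕ), (((q.1.map codeP).any fun c =>
      decide (c = t.1)) && (t.2.1.all (fun i => decide (i < bnd q)) &&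
        t.2.2.all (fun i => decide (i < bnd q)))) = true ∧ z = sval (lamWL t.2.1 t.2.2 t.1)} := by
  have hb := lt_bnd q
  have hset : {z | ∃ t : SL × (List ℕ × List ℕ), (((q.1.map codeP).any fun c =>
      decide (c = t.1)) && (t.2.1.all (fun i => decide (i < bnd q)) &&
        t.2.2.all (fun i => decide (i < bnd q)))) = true ∧ z = sval (lamWL t.2.1 t.2.2 t.1)} =
      emb '' {z | ∃ u ∈ {z | ∃ p ∈ q.1, z = (den p : ℚ) • genQ p}, ∃ w w' : List ℕ,
        (∀ i ∈ w, i < bnd q) ∧ (∀ i ∈ w', i < bnd q) ∧ z = gval w * u * gval w'} := by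
    ext z
    constructor
    · rintro ⟨⟨c, w, w'⟩, h, rfl⟩
      simp only [Bool.and_eq_true, List.any_eq_true, List.all_eq_true, decide_eq_true_eq,
        List.mem_map] at h
      obtain ⟨⟨_, ⟨p, hp, rfl⟩, rfl⟩, h2, h3⟩ := h
      refine ⟨gval w * ((den p : ℚ) • genQ p) * gval w'.reverse, ⟨_, ⟨p, hp, rfl⟩, w, w'.reverse,
        h2, fun i hi => h3 i (by simpa using hi), rfl⟩, ?_⟩
      exact (sval_lamWL w w' _ _ (sval_codeP p)).symm
    · rintro ⟨_, ⟨_, ⟨p, hp, rfl⟩, w, w', hw, hw', rfl⟩, rfl⟩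
      refine ⟨(codeP p, w, w'.reverse), ?_, ?_⟩
      · simp only [Bool.and_eq_true, List.any_eq_true, List.all_eq_true, decide_eq_true_eq,
          List.mem_map]
        exact ⟨⟨_, ⟨p, hp, rfl⟩, rfl⟩, hw, fun i hi => hw' i (by simpa using hi)⟩
      · have := sval_lamWL w w'.reverse _ _ (sval_codeP p)
        rw [List.reverse_reverse] at this
        exact this.symm
  have hJ : JQ (bnd q) q.1 = Submodule.span ℚ {z | ∃ u ∈ {z | ∃ p ∈ q.1, z = (den p : ℚ) • genQ p},
      ∃ w w' : List ℕ,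
        (∀ i ∈ w, i < bnd q) ∧ (∀ i ∈ w', i < bnd q) ∧ z = gval w * u * gval w'} := by
    unfold JQ Idl
    apply le_antisymm
    · apply Submodule.span_le.2
      rintro z ⟨_, ⟨p, hp, rfl⟩, w, w', hw, hw', rfl⟩
      have h3 : (den p : ℚ) ≠ 0 := by
        have := den_pos p
        positivity
      have : gval w * genQ p * gval w' = (den p : ℚ)⁻¹ • (gval w * ((den p : ℚ) • genQ p) * gval w') := by
        rw [mul_smul_comm, smul_mul_assoc, smul_smul, inv_mul_cancel₀ h3, one_smul]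
      rw [this]
      exact Submodule.smul_mem _ _ (Submodule.subset_span ⟨_, ⟨p, hp, rfl⟩, w, w', hw, hw', rfl⟩)
    · apply Submodule.span_le.2
      rintro z ⟨_, ⟨p, hp, rfl⟩, w, w', hw, hw', rfl⟩
      rw [mul_smul_comm, smul_mul_assoc]
      exact Submodule.smul_mem _ _ (Submodule.subset_span ⟨_, ⟨p, hp, rfl⟩, w, w', hw, hw', rfl⟩)
  rw [hset, ← Submodule.map_span, ← hJ, sval_codeP, ← smul_mem_JQ]
  constructor
  · intro h
    exact ⟨_, h, rfl⟩
  · rintro ⟨z, hz, e⟩
    have hz' : z ∈ RR (bnd q) := by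
      have : JQ (bnd q) q.1 ≤ RR (bnd q) := by
        apply Submodule.span_le.2
        rintro z ⟨_, ⟨p, hp, rfl⟩, w, w', hw, hw', rfl⟩
        exact mul_mem_RR (mul_mem_RR (Submodule.subset_span ⟨w, hw, rfl⟩)
          (genQ_mem_RR (hb p (by simp [hp])))) (Submodule.subset_span ⟨w', hw', rfl⟩)
      exact this hz
    have h2 : (den q.2 : ℚ) • genQ q.2 ∈ RR (bnd q) :=
      Submodule.smul_mem _ _ (genQ_mem_RR (hb _ (by simp)))
    have h3 := ev_emb hz'
    rw [e, ev_emb h2] at h3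
    rw [h3]
    exact hz

end Pool.Agent.Lib.MP_79b5eb_lc.M2
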