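import Pool.Agent.Lib.MP_79b5eb_lc.M2.Crit

/-!
The diagonal operators `lam`, the embedding of `2 × 2`-matrices of polynomials, and stability.
-/

set_option autoImplicit false

namespace Pool.Agent.Lib.MP_79b5eb_lc.M2

/-- Value of `lam i` on a basis element. -/
noncomputable def lamB (i : ℕ) (b : B) : V :=
  if b.1 < 4 then
    if i % 2 = 0 then
      bas (b.1 % 2) ((4, i / 2, b.1 / 2) ::ₘ b.2) + bas (2 + b.1 % 2) ((4, i / 2, 2 + b.1 / 2) ::ₘ b.2)
    else
      bas (2 * (b.1 / 2)) ((4, i / 2, 2 * (b.1 % 2)) ::ₘ b.2) +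
        bas (2 * (b.1 / 2) + 1) ((4, i / 2, 2 * (b.1 % 2) + 1) ::ₘ b.2)
  else opS (0, i, 0) (bas b.1 b.2)

noncomputable def lam (i : ℕ) : V →ₗ[ℚ] V := Finsupp.linearCombination ℚ (lamB i)

@[simp] theorem lam_bas (i c : ℕ) (μ : Multiset Letter) : lam i (bas c μ) = lamB i (c, μ) := by
  simp [lam, bas]

theorem lam_mulS (i : ℕ) (s : Letter) (hs : s.1 ≠ 0) (v : V) :
    lam i (mulS s v) = mulS s (lam i v) := by
  have : (lam i) ∘ₗ (mulS s) = (mulS s) ∘ₗ (lam i) := by
    apply V_ext; intro c μ
    simp only [LinearMap.comp_apply, mulS_bas, lam_bas, lamB]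
    split_ifs
    · simp only [map_add, mulS_bas, Multiset.cons_swap]
    · simp only [map_add, mulS_bas, Multiset.cons_swap]
    · rw [opS_of_eq rfl, opS_of_eq rfl, map_add, ← mulS_bas, der_mulS_of_ne _ _ hs,
        mulS_comm]
  exact LinearMap.congr_fun this v

theorem lam_opW (i : ℕ) (w : List Letter) (hw : ∀ s ∈ w, s.1 ≠ 0) (v : V) :
    lam i (opW w v) = opW w (lam i v) := by
  induction w with
  | nil => rfl
  | cons s w ih =>
    have hs := hw s (by simp)
    rw [opW_cons, opW_cons, opS_of_ne hs, lam_mulS _ _ hs, ih fun t ht => hw t (by simp [ht])]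

/-- Elements without matrix components. -/
def Vge : Submodule ℚ V where
  carrier := {v | ∀ b, v b ≠ 0 → 4 ≤ b.1}
  zero_mem' := by intro b h; simp at h
  add_mem' := by
    intro x y hx hy b h
    rw [Finsupp.add_apply] at h
    by_cases h1 : x b = 0
    · exact hy b (by rw [h1, zero_add] at h; exact h)
    · exact hx b h1
  smul_mem' := by
    intro a x hx b h
    rw [Finsupp.smul_apply] at h
    exact hx b (by intro h0; rw [h0] at h; simp at h)

theorem bas_mem_Vge {c : ℕ} {μ : Multiset Letter} (h : 4 ≤ c) : bas c μ ∈ Vge := by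
  intro b hb
  rw [bas_apply] at hb
  by_cases h' : (c, μ) = b
  · rw [← h']; exact h
  · simp [h'] at hb

theorem V_decomp (v : V) : v = v.sum fun b r => r • bas b.1 b.2 := by
  conv_lhs => rw [← Finsupp.sum_single v]
  refine Finsupp.sum_congr fun b _ => ?_
  simp [bas]

theorem Vge_map {f : V →ₗ[ℚ] V} (h : ∀ c μ, 4 ≤ c → f (bas c μ) ∈ Vge) {v : V} (hv : v ∈ Vge) :
    f v ∈ Vge := by
  rw [V_decomp v, map_finsuppSum]
  refine Submodule.sum_mem _ fun b hb => ?_
  change f (v b • bas b.1 b.2) ∈ _
  rw [map_smul]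
  exact Submodule.smul_mem _ _ (h _ _ (hv b (Finsupp.mem_support_iff.1 hb)))

theorem opS_Vge (s : Letter) {v : V} (hv : v ∈ Vge) : opS s v ∈ Vge := by
  refine Vge_map (fun c μ hc => ?_) hv
  have h1 : mulS s (bas c μ) ∈ Vge := by rw [mulS_bas]; exact bas_mem_Vge hc
  by_cases h : s.1 = 0
  · rw [opS_of_eq h]
    refine Submodule.add_mem _ h1 ?_
    rw [der_bas, derB]
    refine multiset_sum_mem _ fun v hv => ?_
    obtain ⟨s', hs', rfl⟩ := Multiset.mem_map.1 hv
    exact bas_mem_Vge hc
  · rw [opS_of_ne h]; exact h1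

theorem opW_Vge (w : List Letter) {v : V} (hv : v ∈ Vge) : opW w v ∈ Vge := by
  induction w with
  | nil => exact hv
  | cons s w ih => exact opS_Vge s ih

theorem lam_of_Vge (i : ℕ) {v : V} (hv : v ∈ Vge) : lam i v = opS (0, i, 0) v := by
  have h1 : ∀ v : V, v ∈ Vge → lam i v = opS (0, i, 0) v := by
    intro v hv
    rw [V_decomp v, map_finsuppSum, map_finsuppSum]
    refine Finset.sum_congr rfl fun b hb => ?_
    change lam i (v b • bas b.1 b.2) = opS (0, i, 0) (v b • bas b.1 b.2)
    rw [map_smul, map_smul, lam_bas, lamB, if_neg]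
    have := hv b (Finsupp.mem_support_iff.1 hb)
    simp only
    omega
  exact h1 v hv

/-- Generators of level containing `T`. -/
noncomputable def NT {ι : Type} (F : Fam ι) (T : Set Letter) : Submodule ℚ V :=
  Submodule.span ℚ {z | ∃ i, ∃ w : List Letter, T ⊆ F.S i ∧ (∀ s ∈ w, s ∈ F.S i) ∧
    z = opW w (F.g i)}

theorem opW_NT {ι : Type} (F : Fam ι) {T : Set Letter} {w : List Letter} (hw : ∀ s ∈ w, s ∈ T)
    {z : V} (hz : z ∈ NT F T) : opW w z ∈ Ntot F := by
  have hadd : ∀ (w : List Letter) (x y : V), opW w (x + y) = opW w x + opW w y := by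
    intro w x y
    induction w with
    | nil => rfl
    | cons s l ih => simp [ih]
  have hsmul : ∀ (w : List Letter) (a : ℚ) (x : V), opW w (a • x) = a • opW w x := by
    intro w a x
    induction w with
    | nil => rfl
    | cons s l ih => simp [ih]
  induction hz using Submodule.span_induction with
  | mem x h =>
    obtain ⟨i, w', h1, h2, rfl⟩ := h
    rw [← opW_append]
    refine Submodule.subset_span ⟨i, w ++ w', ?_, rfl⟩
    intro s hs
    rcases List.mem_append.1 hs with h | h
    · exact h1 (hw s h)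
    · exact h2 s h
  | zero =>
    have : opW w (0 : V) = 0 := by
      have := hsmul w 0 0
      simpa using this
    rw [this]; exact Submodule.zero_mem _
  | add x y _ _ hx hy => rw [hadd]; exact Submodule.add_mem _ hx hy
  | smul a x _ hx => rw [hsmul]; exact Submodule.smul_mem _ _ hx

/-- Stability of `Ntot` under the diagonal operators. -/
theorem lam_Ntot {ι : Type} (F : Fam ι) (k : ℕ)
    (h : ∀ i, ((∀ s ∈ F.S i, s.1 ≠ 0) ∧ lam k (F.g i) ∈ NT F (F.S i)) ∨
      (F.g i ∈ Vge ∧ (0, k, 0) ∈ F.S i)) {z : V} (hz : z ∈ Ntot F) : lam k z ∈ Ntot F := by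
  induction hz using Submodule.span_induction with
  | mem x hx =>
    obtain ⟨i, w, hw, rfl⟩ := hx
    rcases h i with ⟨h1, h2⟩ | ⟨h1, h2⟩
    · rw [lam_opW _ _ fun s hs => h1 s (hw s hs)]
      exact opW_NT F hw h2
    · rw [lam_of_Vge _ (opW_Vge w h1)]
      refine Submodule.subset_span ⟨i, (0, k, 0) :: w, ?_, rfl⟩
      intro s hs
      rcases List.mem_cons.1 hs with rfl | h
      · exact h2
      · exact hw s h
  | zero => simp
  | add x y _ _ hx hy => rw [map_add]; exact Submodule.add_mem _ hx hy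
  | smul a x _ hx => rw [map_smul]; exact Submodule.smul_mem _ _ hx

/-! ### The embedding of matrices -/

abbrev Om : Type := MvPolynomial Letter ℚ
abbrev MM : Type := Matrix (Fin 2) (Fin 2) Om

noncomputable def embc (c : ℕ) : Om →ₗ[ℚ] V :=
  (MvPolynomial.basisMonomials Letter ℚ).constr ℚ fun α => bas c (Finsupp.toMultiset α)

theorem embc_monomial (c : ℕ) (α : Letter →₀ ℕ) :
    embc c (MvPolynomial.monomial α 1) = bas c (Finsupp.toMultiset α) := by
  have := (MvPolynomial.basisMonomials Letter ℚ).constr_basis ℚ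
    (fun α => bas c (Finsupp.toMultiset α)) α
  rw [MvPolynomial.coe_basisMonomials] at this
  exact this

theorem Om_ext {M : Type*} [AddCommMonoid M] [Module ℚ M] {f g : Om →ₗ[ℚ] M}
    (h : ∀ α, f (MvPolynomial.monomial α 1) = g (MvPolynomial.monomial α 1)) : f = g := by
  refine (MvPolynomial.basisMonomials Letter ℚ).ext fun α => ?_
  rw [MvPolynomial.coe_basisMonomials]
  exact h α

theorem X_mul_monomial (s : Letter) (α : Letter →₀ ℕ) :
    (MvPolynomial.X s : Om) * MvPolynomial.monomial α 1 =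
      MvPolynomial.monomial (Finsupp.single s 1 + α) 1 := by
  rw [MvPolynomial.X, MvPolynomial.monomial_mul, one_mul]

theorem embc_X_mul (c : ℕ) (s : Letter) (p : Om) :
    embc c (MvPolynomial.X s * p) = mulS s (embc c p) := by
  have : (embc c) ∘ₗ (LinearMap.mulLeft ℚ (MvPolynomial.X s)) = (mulS s) ∘ₗ (embc c) := by
    apply Om_ext; intro α
    simp only [LinearMap.comp_apply, LinearMap.mulLeft_apply]
    rw [X_mul_monomial, embc_monomial, embc_monomial, mulS_bas]
    simp
  exact LinearMap.congr_fun this p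

theorem lam_embc_left (i c : ℕ) (hc : c < 4) (p : Om) :
    lam (2 * i) (embc c p) = embc (c % 2) (MvPolynomial.X (4, i, c / 2) * p) +
      embc (2 + c % 2) (MvPolynomial.X (4, i, 2 + c / 2) * p) := by
  have : (lam (2 * i)) ∘ₗ (embc c) =
      (embc (c % 2)) ∘ₗ (LinearMap.mulLeft ℚ (MvPolynomial.X (4, i, c / 2))) +
      (embc (2 + c % 2)) ∘ₗ (LinearMap.mulLeft ℚ (MvPolynomial.X (4, i, 2 + c / 2))) := by
    apply Om_ext; intro α
    simp only [LinearMap.comp_apply, LinearMap.mulLeft_apply, LinearMap.add_apply]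
    rw [embc_X_mul, embc_X_mul, embc_monomial, embc_monomial, embc_monomial, mulS_bas, mulS_bas,
      lam_bas, lamB, if_pos hc, if_pos (by omega)]
    simp
  exact LinearMap.congr_fun this p

theorem lam_embc_right (i c : ℕ) (hc : c < 4) (p : Om) :
    lam (2 * i + 1) (embc c p) =
      embc (2 * (c / 2)) (MvPolynomial.X (4, i, 2 * (c % 2)) * p) +
      embc (2 * (c / 2) + 1) (MvPolynomial.X (4, i, 2 * (c % 2) + 1) * p) := by
  have : (lam (2 * i + 1)) ∘ₗ (embc c) =
      (embc (2 * (c / 2))) ∘ₗ (LinearMap.mulLeft ℚ (MvPolynomial.X (4, i, 2 * (c % 2)))) +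
      (embc (2 * (c / 2) + 1)) ∘ₗ
        (LinearMap.mulLeft ℚ (MvPolynomial.X (4, i, 2 * (c % 2) + 1))) := by
    apply Om_ext; intro α
    simp only [LinearMap.comp_apply, LinearMap.mulLeft_apply, LinearMap.add_apply]
    rw [embc_X_mul, embc_X_mul, embc_monomial, embc_monomial, embc_monomial, mulS_bas, mulS_bas,
      lam_bas, lamB, if_pos hc, if_neg (by omega)]
    have : (2 * i + 1) / 2 = i := by omega
    simp [this]
  exact LinearMap.congr_fun this p

noncomputable def emb : MM →ₗ[ℚ] V where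
  toFun M := embc 0 (M 0 0) + embc 1 (M 0 1) + embc 2 (M 1 0) + embc 3 (M 1 1)
  map_add' := by intro x y; simp only [Matrix.add_apply, map_add]; abel
  map_smul' := by intro a x; simp only [Matrix.smul_apply, map_smul, smul_add]; rfl

/-- The generic matrices. -/
noncomputable def gX (i : ℕ) : MM :=
  !![MvPolynomial.X (4, i, 0), MvPolynomial.X (4, i, 1);
     MvPolynomial.X (4, i, 2), MvPolynomial.X (4, i, 3)]

theorem emb_left (i : ℕ) (M : MM) : emb (gX i * M) = lam (2 * i) (emb M) := by
  simp only [emb, LinearMap.coe_mk, AddHom.coe_mk, map_add]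
  rw [lam_embc_left _ _ (by norm_num), lam_embc_left _ _ (by norm_num),
    lam_embc_left _ _ (by norm_num), lam_embc_left _ _ (by norm_num)]
  simp only [gX, Matrix.mul_apply, Fin.sum_univ_two, Matrix.of_apply, Matrix.cons_val', map_add,
    Matrix.cons_val_zero, Matrix.cons_val_one, Matrix.cons_val_fin_one]
  norm_num
  abel

theorem emb_right (i : ℕ) (M : MM) : emb (M * gX i) = lam (2 * i + 1) (emb M) := by
  simp only [emb, LinearMap.coe_mk, AddHom.coe_mk, map_add]
  rw [lam_embc_right _ _ (by norm_num), lam_embc_right _ _ (by norm_num),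
    lam_embc_right _ _ (by norm_num), lam_embc_right _ _ (by norm_num)]
  simp only [gX, Matrix.mul_apply, Fin.sum_univ_two, Matrix.of_apply, Matrix.cons_val', map_add,
    Matrix.cons_val_zero, Matrix.cons_val_one, Matrix.cons_val_fin_one]
  norm_num
  simp only [mul_comm]
  abel

/-- The product of generic matrices along a word. -/
noncomputable def gval (w : List ℕ) : MM := (w.map gX).prod

/-- The ideal generated by `us` in the algebra of the first `m` generic matrices. -/
noncomputable def Idl (m : ℕ) (us : Set MM) : Submodule ℚ MM :=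
  Submodule.span ℚ {z | ∃ u ∈ us, ∃ w w' : List ℕ, (∀ i ∈ w, i < m) ∧ (∀ i ∈ w', i < m) ∧
    z = gval w * u * gval w'}

theorem Idl_sound (m : ℕ) (us : Set MM) (N : Submodule ℚ V)
    (hlam : ∀ k < 2 * m, ∀ z ∈ N, lam k z ∈ N) (hu : ∀ u ∈ us, emb u ∈ N) {z : MM}
    (hz : z ∈ Idl m us) : emb z ∈ N := by
  induction hz using Submodule.span_induction with
  | mem x hx =>
    obtain ⟨u, hu', w, w', hw, hw', rfl⟩ := hx
    have h1 : ∀ w : List ℕ, (∀ i ∈ w, i < m) → ∀ M : MM, emb M ∈ N → emb (gval w * M) ∈ N := by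
      intro w
      induction w with
      | nil => intro _ M hM; simpa [gval] using hM
      | cons i w ih =>
        intro hw M hM
        have := ih (fun j hj => hw j (by simp [hj])) M hM
        rw [gval, List.map_cons, List.prod_cons, Matrix.mul_assoc, emb_left]
        exact hlam _ (by have := hw i (by simp); omega) _ this
    have h2 : ∀ w : List ℕ, (∀ i ∈ w, i < m) → ∀ M : MM, emb M ∈ N → emb (M * gval w) ∈ N := by
      intro w
      induction w with
      | nil => intro _ M hM; simpa [gval] using hM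
      | cons i w ih =>
        intro hw M hM
        rw [gval, List.map_cons, List.prod_cons, ← Matrix.mul_assoc]
        refine ih (fun j hj => hw j (by simp [hj])) _ ?_
        rw [emb_right]
        exact hlam _ (by have := hw i (by simp); omega) _ hM
    exact h2 w' hw' _ (h1 w hw _ (hu u hu'))
  | zero => simp
  | add x y _ _ hx hy => rw [map_add]; exact Submodule.add_mem _ hx hy
  | smul a x _ hx => rw [map_smul]; exact Submodule.smul_mem _ _ hx

end Pool.Agent.Lib.MP_79b5eb_lc.M2
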