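import Pool.Agent.Lib.MP_79b5eb_lc.M2.Psi2

/-!
The subspace `Nt` and its properties.
-/

set_option autoImplicit false

namespace Pool.Agent.Lib.MP_79b5eb_lc.M2

/-! ### Alphabets -/

def At (m : ℕ) : Set Letter :=
  {s | (s.1 = 2 ∧ s.2.1 < m ∧ s.2.2 = 0) ∨ (s.1 = 3 ∧ s.2.1 < m ∧ s.2.2 < m)}
def Ay (m : ℕ) : Set Letter := {s | s.1 = 4 ∧ s.2.1 < m ∧ s.2.2 < 4}
def Ax (m : ℕ) : Set Letter :=
  {s | (s.1 = 0 ∧ s.2.1 < 2 * m ∧ s.2.2 = 0) ∨ (s.1 = 1 ∧ s.2.1 < 2 * m ∧ s.2.2 < s.2.1)}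

def okB (m k : ℕ) (b : B) : Prop :=
  (b.1 < 4 ∧ ∀ s ∈ b.2, s ∈ Ay m ∪ At m) ∨ (4 ≤ b.1 ∧ b.1 < 4 + k ∧ ∀ s ∈ b.2, s ∈ At m ∪ Ax m)

def Vf (m k : ℕ) : Submodule ℚ V := SupP (okB m k)

theorem mulS_Vf {m k : ℕ} {s : Letter} (hs : s ∈ At m) {v : V} (hv : v ∈ Vf m k) :
    mulS s v ∈ Vf m k := by
  refine map_SupP (fun c μ h => ?_) hv
  rw [mulS_bas]
  apply bas_mem_SupP
  rcases h with ⟨h1, h2⟩ | ⟨h1, h2, h3⟩
  · refine Or.inl ⟨h1, fun t ht => ?_⟩
    rcases Multiset.mem_cons.1 ht with rfl | h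
    · exact Or.inr hs
    · exact h2 t h
  · refine Or.inr ⟨h1, h2, fun t ht => ?_⟩
    rcases Multiset.mem_cons.1 ht with rfl | h
    · exact Or.inl hs
    · exact h3 t h

theorem opS_Vf_ge {m k : ℕ} {s : Letter} (hs : s ∈ At m ∪ Ax m) {v : V}
    (hv : v ∈ SupP fun b => okB m k b ∧ 4 ≤ b.1) :
    opS s v ∈ SupP fun b => okB m k b ∧ 4 ≤ b.1 := by
  refine map_SupP (fun c μ h => ?_) hv
  obtain ⟨h1, h2⟩ := h
  simp only at h2
  rcases h1 with ⟨h1, _⟩ | ⟨_, h3, h4⟩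
  · simp only at h1; omega
  simp only at h3 h4
  have key : ∀ μ' : Multiset Letter, (∀ t ∈ μ', t ∈ At m ∪ Ax m) →
      bas c μ' ∈ SupP fun b => okB m k b ∧ 4 ≤ b.1 := fun μ' h' =>
    bas_mem_SupP ⟨Or.inr ⟨h2, h3, h'⟩, h2⟩
  have h5 : mulS s (bas c μ) ∈ SupP fun b => okB m k b ∧ 4 ≤ b.1 := by
    rw [mulS_bas]
    apply key
    intro t ht
    rcases Multiset.mem_cons.1 ht with rfl | h
    · exact hs
    · exact h4 t h
  by_cases h : s.1 = 0
  · rw [opS_of_eq h]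
    refine Submodule.add_mem _ h5 ?_
    rw [der_bas, derB]
    refine multiset_sum_mem _ fun v hv => ?_
    obtain ⟨s', hs', rfl⟩ := Multiset.mem_map.1 hv
    rw [Multiset.mem_filter] at hs'
    apply key
    intro t ht
    rcases Multiset.mem_cons.1 ht with rfl | h'
    · refine Or.inr (Or.inr ⟨rfl, ?_, hs'.2.2⟩)
      rcases hs with hs | hs
      · rcases hs with hs | hs <;> omega
      · rcases hs with hs | hs
        · exact hs.2.1
        · omega
    · exact h4 t (Multiset.mem_of_mem_erase h')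
  · rw [opS_of_ne h]; exact h5

theorem lam_Vf {m k i : ℕ} (hi : i < 2 * m) {v : V} (hv : v ∈ Vf m k) :
    lam i v ∈ Vf m k := by
  refine map_SupP (fun c μ h => ?_) hv
  have hle : (SupP fun b => okB m k b ∧ 4 ≤ b.1) ≤ SupP (okB m k) := fun v hv b hb => (hv b hb).1
  rcases h with ⟨h1, h2⟩ | ⟨h1, h2, h3⟩
  · simp only at h1 h2
    rw [lam_bas, lamB, if_pos h1]
    have key : ∀ c' e : ℕ, c' < 4 → e < 4 → bas c' ((4, i / 2, e) ::ₘ μ) ∈ SupP (okB m k) := by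
      intro c' e hc' he
      apply bas_mem_SupP
      refine Or.inl ⟨hc', fun t ht => ?_⟩
      rcases Multiset.mem_cons.1 ht with rfl | h
      · exact Or.inl ⟨rfl, by simp only; omega, he⟩
      · exact h2 t h
    split_ifs
    · exact Submodule.add_mem _ (key _ _ (by omega) (by simp only; omega))
        (key _ _ (by omega) (by simp only; omega))
    · exact Submodule.add_mem _ (key _ _ (by omega) (by simp only; omega))
        (key _ _ (by omega) (by simp only; omega))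
  · simp only at h1 h2 h3
    rw [lam_of_Vge _ (bas_mem_Vge h1)]
    exact hle (opS_Vf_ge (Or.inr (Or.inl ⟨rfl, hi, rfl⟩))
      (bas_mem_SupP ⟨Or.inr ⟨h1, h2, h3⟩, h1⟩))

section
variable (m k : ℕ) (us : ℕ → MM)

noncomputable def Nt : Submodule ℚ V := Vf m k ⊓ LinearMap.ker (Psi m us)
noncomputable def KE : Submodule ℚ V :=
  Vf m k ⊓ (SupP fun b => b.1 < 4) ⊓ LinearMap.ker (ev m)
noncomputable def PP : Submodule ℚ V :=
  (SupP fun b => okB m k b ∧ 4 ≤ b.1) ⊓ LinearMap.ker (phiQ m us)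
def UU : Submodule ℚ V := SupP fun b => 4 ≤ b.1 ∧ b.1 < 4 + k ∧ ∀ s ∈ b.2, s ∈ Ax m

variable {m k us}

theorem KE_le_Nt : KE m k ≤ Nt m k us := by
  intro v hv
  refine ⟨hv.1.1, ?_⟩
  rw [SetLike.mem_coe, LinearMap.mem_ker, Psi_of_lt hv.1.2, LinearMap.mem_ker.1 hv.2, map_zero]

theorem PP_le_Nt : PP m k us ≤ Nt m k us := by
  intro v hv
  refine ⟨fun b hb => (hv.1 b hb).1, ?_⟩
  rw [SetLike.mem_coe, LinearMap.mem_ker, Psi_of_Vge (fun b hb => (hv.1 b hb).2), LinearMap.mem_ker.1 hv.2]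

theorem PP_of_Nt {v : V} (hv : v ∈ Nt m k us) (h : v ∈ Vge) : v ∈ PP m k us := by
  refine ⟨fun b hb => ⟨hv.1 b hb, h b hb⟩, ?_⟩
  have := LinearMap.mem_ker.1 hv.2
  rw [Psi_of_Vge h] at this
  exact this

theorem lam_Nt {i : ℕ} (hi : i < 2 * m) {v : V} (hv : v ∈ Nt m k us) :
    lam i v ∈ Nt m k us := by
  refine ⟨lam_Vf hi hv.1, ?_⟩
  rw [SetLike.mem_coe, LinearMap.mem_ker, Psi_lam hi, LinearMap.mem_ker.1 hv.2, map_zero]

theorem mulS_Nt {s : Letter} (hs : s ∈ At m) {v : V} (hv : v ∈ Nt m k us) :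
    mulS s v ∈ Nt m k us := by
  refine ⟨mulS_Vf hs hv.1, ?_⟩
  have : s.1 = 2 ∨ s.1 = 3 := by rcases hs with h | h <;> omega
  rw [SetLike.mem_coe, LinearMap.mem_ker, Psi_mulS this, LinearMap.mem_ker.1 hv.2, map_zero]

theorem lam_KE {i : ℕ} (hi : i < 2 * m) {v : V} (hv : v ∈ KE m k) : lam i v ∈ KE m k := by
  refine ⟨⟨lam_Vf hi hv.1.1, lam_lt i hv.1.2⟩, ?_⟩
  rw [SetLike.mem_coe, LinearMap.mem_ker, ev_lam i hv.1.2, LinearMap.mem_ker.1 hv.2, map_zero]

theorem mulS_KE {s : Letter} (hs : s ∈ Ay m ∪ At m) {v : V} (hv : v ∈ KE m k) :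
    mulS s v ∈ KE m k := by
  refine ⟨⟨?_, mulS_lt s hv.1.2⟩, ?_⟩
  · have h1 : v ∈ SupP fun b => b.1 < 4 ∧ ∀ s ∈ b.2, s ∈ Ay m ∪ At m := by
      intro b hb
      rcases hv.1.1 b hb with h | h
      · exact h
      · have := hv.1.2 b hb; omega
    have h2 : mulS s v ∈ SupP fun b => b.1 < 4 ∧ ∀ s ∈ b.2, s ∈ Ay m ∪ At m := by
      refine map_SupP (fun c μ h => ?_) h1
      rw [mulS_bas]
      refine bas_mem_SupP ⟨h.1, fun t ht => ?_⟩
      rcases Multiset.mem_cons.1 ht with rfl | h'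
      · exact hs
      · exact h.2 t h'
    exact fun b hb => Or.inl (h2 b hb)
  · rw [SetLike.mem_coe, LinearMap.mem_ker, ev_mulS, LinearMap.mem_ker.1 hv.2, smul_zero]

theorem opS_PP {s : Letter} (hs : s ∈ At m ∪ Ax m) {v : V} (hv : v ∈ PP m k us) :
    opS s v ∈ PP m k us := by
  refine ⟨opS_Vf_ge hs hv.1, ?_⟩
  have h0 := LinearMap.mem_ker.1 hv.2
  rw [SetLike.mem_coe, LinearMap.mem_ker]
  by_cases h : s.1 = 0
  · have es : s = (0, s.2.1, 0) := by
      have : s.2.2 = 0 := by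
        rcases hs with hs | hs
        · rcases hs with hs | hs <;> omega
        · rcases hs with hs | hs
          · exact hs.2.2
          · omega
      ext
      · exact h
      · rfl
      · exact this
    rw [es, phiQ_opS, h0, map_zero]
  · rw [opS_of_ne h, phiQ_mulS h, h0, map_zero]

theorem ev_Nt {v : V} (hv : v ∈ Nt m k us) : ev m v ∈ CI m us := by
  have h1 := LinearMap.mem_ker.1 hv.2
  rw [Psi, LinearMap.add_apply, LinearMap.comp_apply, LinearMap.comp_apply] at h1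
  obtain ⟨z, hz, hz'⟩ := mem_Q1.1 (phiQ_Q1 (m := m) (us := us) (pr v))
  rw [← hz', ← map_add, Submodule.mkQ_apply, Submodule.Quotient.mk_eq_zero] at h1
  have h2 := II_le_CI (JJ_le_II h1)
  have := Submodule.sub_mem _ h2 hz
  simpa using this

theorem emb_RR_Vf {z : MM} (hz : z ∈ RR m) : emb z ∈ Vf m k := by
  induction hz using Submodule.span_induction with
  | mem x hx =>
    obtain ⟨w, hw, rfl⟩ := hx
    induction w with
    | nil =>
      simp only [gval, List.map_nil, List.prod_nil, emb_one]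
      exact Submodule.add_mem _ (bas_mem_SupP (Or.inl ⟨by norm_num, by simp⟩))
        (bas_mem_SupP (Or.inl ⟨by norm_num, by simp⟩))
    | cons i w ih =>
      have : gval (i :: w) = gX i * gval w := by simp [gval]
      rw [this, emb_left]
      have hi := hw i (by simp)
      exact lam_Vf (by omega) (ih fun j hj => hw j (by simp [hj]))
  | zero => simp
  | add x y _ _ hx hy => rw [map_add]; exact Submodule.add_mem _ hx hy
  | smul a x _ hx => rw [map_smul]; exact Submodule.smul_mem _ _ hx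

theorem e_sub_mem_Nt (hus : ∀ j, us j ∈ RR m) {j : ℕ} (hj : j < k) :
    emb (us j) - bas (4 + j) 0 ∈ Nt m k us := by
  refine ⟨Submodule.sub_mem _ (emb_RR_Vf (hus j))
    (bas_mem_SupP (Or.inr ⟨by simp, by simpa using hj, by simp⟩)), ?_⟩
  rw [SetLike.mem_coe, LinearMap.mem_ker, map_sub, Psi_of_lt (emb_lt _), Psi_of_Vge (bas_mem_Vge (by omega)),
    ev_emb (hus j), phiQ_e, sub_self]

theorem UU_map {v : V} (hv : v ∈ UU m k) : phiQ m us v ∈ (II m us).map (JJ m us).mkQ := by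
  refine map_mem_of_SupP (fun c μ h => ?_) hv
  obtain ⟨h1, _, h3⟩ := h
  simp only at h1 h3
  obtain ⟨j, rfl⟩ := Nat.exists_eq_add_of_le h1
  refine phiQ_II _ j μ le_rfl ?_ ?_
  · intro s hs
    rcases h3 s hs with h | h
    · exact Or.inl h.1
    · exact Or.inr h.1
  · intro s hs h0
    rcases h3 s hs with h | h
    · exact h.2.2
    · omega

theorem mem_II_of_emb {z : MM} (hz : z ∈ RR m) (h : emb z ∈ Nt m k us ⊔ UU m k) :
    z ∈ II m us := by
  obtain ⟨n, hn, b, hb, he⟩ := Submodule.mem_sup.1 h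
  have h1 : Psi m us (emb z) = (JJ m us).mkQ z := by
    rw [Psi_of_lt (emb_lt _), ev_emb hz]
  have h2 : Psi m us b = phiQ m us b := Psi_of_Vge fun b' hb' => (hb b' hb').1
  have h3 := UU_map (us := us) hb
  rw [← he, map_add, LinearMap.mem_ker.1 hn.2, zero_add, h2] at h1
  rw [h1] at h3
  obtain ⟨y, hy, hy'⟩ := Submodule.mem_map.1 h3
  have h4 : z - y ∈ JJ m us := by
    rw [← Submodule.Quotient.mk_eq_zero, Submodule.Quotient.mk_sub, sub_eq_zero]
    exact hy'.symm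
  have := Submodule.add_mem _ (JJ_le_II h4) hy
  simpa using this

/-! ### Lifts of the elements of `C I` -/

def ydeg (b : B) : ℕ := (b.2.filter fun s : Letter => s.1 = 4).card

theorem CC_stable (W : Submodule ℚ MM) (h : ∀ t ∈ trs m, ∀ x ∈ W, t • x ∈ W) {c : Om}
    (hc : c ∈ CC m) : ∀ x ∈ W, c • x ∈ W := by
  unfold CC at hc
  induction hc using Algebra.adjoin_induction with
  | mem t ht => exact h t ht
  | algebraMap r => intro x hx; rw [algebraMap_smul]; exact Submodule.smul_mem _ _ hx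
  | add a b _ _ ha hb => intro x hx; rw [add_smul]; exact Submodule.add_mem _ (ha x hx) (hb x hx)
  | mul a b _ _ ha hb => intro x hx; rw [mul_smul]; exact ha _ (hb x hx)

theorem exists_lifts (hus : ∀ j, us j ∈ RR m) : ∃ d : ℕ, ∀ z ∈ CI m us,
    ∃ γ ∈ Vf m k, (∀ b, γ b ≠ 0 → b.1 < 4 ∧ ydeg b < d) ∧ ev m γ = z := by
  obtain ⟨Γ, hΓ, hspan⟩ :=
    (Submodule.fg_span_iff_fg_span_finset_subset (R := CC m) (II m us : Set MM)).1 (CI_fg hus)
  have hΓ' : ∀ γ ∈ Γ, γ ∈ RR m := fun γ hγ => II_le_RR hus (hΓ hγ)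
  set d := (Γ.sup fun γ => (emb γ).support.sup ydeg) + 1 with hd
  refine ⟨d, ?_⟩
  have key : ∀ z ∈ CI m us, z ∈ ((Vf m k ⊓ SupP fun b => b.1 < 4 ∧ ydeg b < d).map (ev m)) := by
    intro z hz
    unfold CI at hz
    rw [hspan] at hz
    induction hz using Submodule.span_induction with
    | mem x hx =>
      refine Submodule.mem_map.2 ⟨emb x, ⟨emb_RR_Vf (hΓ' x hx), ?_⟩, ev_emb (hΓ' x hx)⟩
      intro b hb
      refine ⟨emb_lt x b hb, ?_⟩
      have h1 : ydeg b ≤ (emb x).support.sup ydeg :=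
        Finset.le_sup (f := ydeg) (Finsupp.mem_support_iff.2 hb)
      have h2 : (emb x).support.sup ydeg ≤ Γ.sup fun γ => (emb γ).support.sup ydeg :=
        Finset.le_sup (f := fun γ => (emb γ).support.sup ydeg) hx
      omega
    | zero => exact Submodule.zero_mem _
    | add x y _ _ hx hy => exact Submodule.add_mem _ hx hy
    | smul c x _ hx =>
      refine CC_stable _ (fun t ht x hx => ?_) c.2 x hx
      obtain ⟨γ, ⟨hγ1, hγ2⟩, rfl⟩ := Submodule.mem_map.1 hx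
      obtain ⟨s, hs, hv⟩ : ∃ s ∈ At m, val m s = t := by
        rcases ht with ⟨i, hi, rfl⟩ | ⟨i, hi, j, hj, rfl⟩
        · exact ⟨(2, i, 0), Or.inl ⟨rfl, hi, rfl⟩, by simp [val, hi]⟩
        · exact ⟨(3, i, j), Or.inr ⟨rfl, hi, hj⟩, by simp [val, hi, hj]⟩
      refine Submodule.mem_map.2 ⟨mulS s γ, ⟨mulS_Vf hs hγ1, ?_⟩, by rw [ev_mulS, hv]⟩
      refine map_SupP (fun c μ h => ?_) hγ2
      rw [mulS_bas]
      refine bas_mem_SupP ⟨h.1, ?_⟩
      have h4 : s.1 ≠ 4 := by rcases hs with h | h <;> omega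
      have := h.2
      simp only [ydeg] at this ⊢
      rw [Multiset.filter_cons_of_neg (p := fun s : Letter => s.1 = 4) _ h4]
      exact this
  intro z hz
  obtain ⟨γ, ⟨h1, h2⟩, h3⟩ := Submodule.mem_map.1 (key z hz)
  exact ⟨γ, h1, h2, h3⟩

end

end Pool.Agent.Lib.MP_79b5eb_lc.M2
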