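import Pool.Agent.Lib.MP_79b5eb_lc.M2.Code
import Pool.Agent.Lib.MP_79b5eb_lc.M2.RE

/-!
Computable versions of the operators on codes.
-/

set_option autoImplicit false

namespace Pool.Agent.Lib.MP_79b5eb_lc.M2

/-- Sign. -/
noncomputable def sgn (b : Bool) (v : V) : V := if b then v else -v

theorem stval_eq (b : Bool) (c : ℕ) (l : List Letter) : stval (b, c, l) = sgn b (bas c ↑l) := rfl

theorem sgn_map (f : V →ₗ[ℚ] V) (b : Bool) (v : V) : f (sgn b v) = sgn b (f v) := by
  cases b <;> simp [sgn]

theorem sgn_add (b : Bool) (v w : V) : sgn b (v + w) = sgn b v + sgn b w := by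
  cases b <;> simp [sgn, add_comm]

@[simp] theorem sgn_zero (b : Bool) : sgn b 0 = 0 := by cases b <;> simp [sgn]

theorem sval_flatMap (F : Bool × Tm → SL) (f : V →ₗ[ℚ] V)
    (h : ∀ t, sval (F t) = f (stval t)) (L : SL) : sval (L.flatMap F) = f (sval L) := by
  induction L with
  | nil => simp
  | cons t L ih => rw [List.flatMap_cons, sval_append, ih, h, sval_cons, map_add]

def negL (L : SL) : SL := L.map fun t => (!t.1, t.2)
def sgnL (b : Bool) (L : SL) : SL := cond b L (negL L)
def repL (n : ℕ) (L : SL) : SL := (List.replicate n L).flatten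

@[fun_prop] theorem p_negL {α : Type*} [Primcodable α] {f : α → SL} (hf : Primrec f) :
    Primrec fun a => negL (f a) := by unfold negL; fun_prop
@[fun_prop] theorem p_sgnL {α : Type*} [Primcodable α] {f : α → SL} {b : α → Bool}
    (hb : Primrec b) (hf : Primrec f) :
    Primrec fun a => sgnL (b a) (f a) := by unfold sgnL; fun_prop
@[fun_prop] theorem p_repL {α : Type*} [Primcodable α] {f : α → SL} {b : α → ℕ}
    (hb : Primrec b) (hf : Primrec f) :
    Primrec fun a => repL (b a) (f a) := by unfold repL; fun_prop

@[simp] theorem sval_negL (L : SL) : sval (negL L) = - sval L := by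
  induction L with
  | nil => simp [negL]
  | cons t L ih =>
    have : negL (t :: L) = (!t.1, t.2) :: negL L := rfl
    rw [this, sval_cons, ih, sval_cons]
    obtain ⟨b, t⟩ := t
    cases b <;> simp [stval, add_comm]

@[simp] theorem sval_sgnL (b : Bool) (L : SL) : sval (sgnL b L) = sgn b (sval L) := by
  cases b <;> simp [sgnL, sgn]

@[simp] theorem sval_repL (n : ℕ) (L : SL) : sval (repL n L) = (n : ℚ) • sval L := by
  induction n with
  | zero => simp [repL]
  | succ n ih =>
    unfold repL at ih ⊢
    rw [List.replicate_succ, List.flatten_cons, sval_append, ih]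
    push_cast
    rw [add_smul, one_smul, add_comm]

/-! ### Derivations -/

def derStep (i : ℕ) (s : Letter) (st : List Letter × List (List Letter)) :
    List Letter × List (List Letter) :=
  (s :: st.1, (cond (decide (s.1 = 0) && decide (s.2.1 < i)) [(1, i, s.2.1) :: st.1] []) ++
    st.2.map fun l => s :: l)

def derL (i : ℕ) (l : List Letter) : List (List Letter) := (l.foldr (derStep i) ([], [])).2

@[fun_prop] theorem p_derL {α : Type*} [Primcodable α] {f : α → ℕ} {g : α → List Letter}
    (hf : Primrec f) (hg : Primrec g) : Primrec fun a => derL (f a) (g a) := by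
  unfold derL derStep; fun_prop

theorem derStep_fst (i : ℕ) (l : List Letter) : (l.foldr (derStep i) ([], [])).1 = l := by
  induction l with
  | nil => rfl
  | cons s l ih => rw [List.foldr_cons, derStep, ih]

def tagT (b : Bool) (c : ℕ) (L : List (List Letter)) : SL := L.map fun l => (b, c, l)

@[fun_prop] theorem p_tagT {α : Type*} [Primcodable α] {b : α → Bool} {f : α → ℕ}
    {g : α → List (List Letter)} (hb : Primrec b)
    (hf : Primrec f) (hg : Primrec g) : Primrec fun a => tagT (b a) (f a) (g a) := by
  unfold tagT; fun_prop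

theorem sval_tagT_append (b : Bool) (c : ℕ) (L L' : List (List Letter)) :
    sval (tagT b c (L ++ L')) = sval (tagT b c L) + sval (tagT b c L') := by
  simp [tagT]

theorem sval_tagT_cons (b : Bool) (c : ℕ) (s : Letter) (L : List (List Letter)) :
    sval (tagT b c (L.map fun l => s :: l)) = mulS s (sval (tagT b c L)) := by
  induction L with
  | nil => simp [tagT]
  | cons l L ih =>
    have h1 : tagT b c ((l :: L).map fun l => s :: l) =
      (b, c, s :: l) :: tagT b c (L.map fun l => s :: l) := rfl
    have h2 : tagT b c (l :: L) = (b, c, l) :: tagT b c L := rfl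
    rw [h1, h2, sval_cons, sval_cons, ih, map_add, stval_eq, stval_eq, sgn_map, mulS_bas,
      Multiset.cons_coe]

theorem sval_derL (b : Bool) (c i : ℕ) (l : List Letter) :
    sval (tagT b c (derL i l)) = der i (stval (b, c, l)) := by
  rw [stval_eq, sgn_map, der_bas]
  induction l with
  | nil => simp [derL, tagT]
  | cons s l ih =>
    have h1 : derL i (s :: l) = (cond (decide (s.1 = 0) && decide (s.2.1 < i))
        [(1, i, s.2.1) :: l] []) ++ (derL i l).map fun l => s :: l := by
      have h0 : l.foldr (derStep i) ([], []) = (l, derL i l) := Prod.ext (derStep_fst i l) rfl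
      change (derStep i s (l.foldr (derStep i) ([], []))).2 = _
      rw [h0]
      rfl
    rw [h1, sval_tagT_append, sval_tagT_cons, ih, ← Multiset.cons_coe, derB_cons, sgn_add,
      sgn_map, add_comm]
    congr 1
    unfold eps
    by_cases hs : s.1 = 0 ∧ s.2.1 < i
    · rw [if_pos hs, mulS_bas]
      simp [hs.1, hs.2, tagT, stval_eq]
    · rw [if_neg hs]
      have : (decide (s.1 = 0) && decide (s.2.1 < i)) = false := by
        rw [← Bool.not_eq_true, Bool.and_eq_true]
        simpa using hs
      rw [this]
      simp [tagT]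

/-! ### The operators -/

def mulT (s : Letter) (t : Bool × Tm) : SL := [(t.1, t.2.1, s :: t.2.2)]

@[fun_prop] theorem p_mulT {α : Type*} [Primcodable α] {f : α → Letter} {g : α → Bool × Tm}
    (hf : Primrec f) (hg : Primrec g) : Primrec fun a => mulT (f a) (g a) := by
  unfold mulT; fun_prop

theorem sval_mulT (s : Letter) (t : Bool × Tm) : sval (mulT s t) = mulS s (stval t) := by
  obtain ⟨b, c, l⟩ := t
  simp [mulT, stval_eq, sgn_map]

def opT (s : Letter) (t : Bool × Tm) : SL :=
  mulT s t ++ cond (decide (s.1 = 0)) (tagT t.1 t.2.1 (derL s.2.1 t.2.2)) []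

@[fun_prop] theorem p_opT {α : Type*} [Primcodable α] {f : α → Letter} {g : α → Bool × Tm}
    (hf : Primrec f) (hg : Primrec g) : Primrec fun a => opT (f a) (g a) := by
  unfold opT; fun_prop

theorem sval_opT (s : Letter) (t : Bool × Tm) : sval (opT s t) = opS s (stval t) := by
  unfold opT
  rw [sval_append, sval_mulT]
  by_cases h : s.1 = 0
  · rw [opS_of_eq h]
    simp only [h, decide_true, cond_true]
    rw [sval_derL]
  · rw [opS_of_ne h]
    simp [h]

def opSL (s : Letter) (L : SL) : SL := L.flatMap (opT s)

@[fun_prop] theorem p_opSL {α : Type*} [Primcodable α] {f : α → Letter} {g : α → SL}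
    (hf : Primrec f) (hg : Primrec g) : Primrec fun a => opSL (f a) (g a) := by
  unfold opSL; fun_prop

theorem sval_opSL (s : Letter) (L : SL) : sval (opSL s L) = opS s (sval L) :=
  sval_flatMap _ _ (sval_opT s) L

def opWL (w : List Letter) (L : SL) : SL := w.foldr opSL L

@[fun_prop] theorem p_opWL {α : Type*} [Primcodable α] {f : α → List Letter} {g : α → SL}
    (hf : Primrec f) (hg : Primrec g) : Primrec fun a => opWL (f a) (g a) := by
  unfold opWL; fun_prop

@[simp] theorem sval_opWL (w : List Letter) (L : SL) : sval (opWL w L) = opW w (sval L) := by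
  induction w with
  | nil => rfl
  | cons s w ih =>
    have : opWL (s :: w) L = opSL s (opWL w L) := rfl
    rw [this, sval_opSL, ih, opW_cons]

def lamT (i : ℕ) (t : Bool × Tm) : SL :=
  cond (decide (t.2.1 < 4))
    (cond (decide (i % 2 = 0))
      [(t.1, t.2.1 % 2, (4, i / 2, t.2.1 / 2) :: t.2.2),
        (t.1, 2 + t.2.1 % 2, (4, i / 2, 2 + t.2.1 / 2) :: t.2.2)]
      [(t.1, 2 * (t.2.1 / 2), (4, i / 2, 2 * (t.2.1 % 2)) :: t.2.2),
        (t.1, 2 * (t.2.1 / 2) + 1, (4, i / 2, 2 * (t.2.1 % 2) + 1) :: t.2.2)])
    (opT (0, i, 0) t)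

@[fun_prop] theorem p_lamT {α : Type*} [Primcodable α] {f : α → ℕ} {g : α → Bool × Tm}
    (hf : Primrec f) (hg : Primrec g) : Primrec fun a => lamT (f a) (g a) := by
  unfold lamT; fun_prop

theorem sval_lamT (i : ℕ) (t : Bool × Tm) : sval (lamT i t) = lam i (stval t) := by
  obtain ⟨b, c, l⟩ := t
  rw [stval_eq, sgn_map, lam_bas, lamB]
  unfold lamT
  simp only
  by_cases h : c < 4
  · rw [if_pos h]
    simp only [h, decide_true, cond_true]
    by_cases h2 : i % 2 = 0
    · rw [if_pos h2]
      simp only [h2, decide_true, cond_true, sval_cons, sval_nil, add_zero, stval_eq, sgn_add,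
        Multiset.cons_coe]
    · rw [if_neg h2]
      simp only [h2, decide_false, cond_false, sval_cons, sval_nil, add_zero, stval_eq, sgn_add,
        Multiset.cons_coe]
  · rw [if_neg h]
    simp only [h, decide_false, cond_false]
    rw [sval_opT, stval_eq, sgn_map]

def lamL (i : ℕ) (L : SL) : SL := L.flatMap (lamT i)

@[fun_prop] theorem p_lamL {α : Type*} [Primcodable α] {f : α → ℕ} {g : α → SL}
    (hf : Primrec f) (hg : Primrec g) : Primrec fun a => lamL (f a) (g a) := by
  unfold lamL; fun_prop

@[simp] theorem sval_lamL (i : ℕ) (L : SL) : sval (lamL i L) = lam i (sval L) :=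
  sval_flatMap _ _ (sval_lamT i) L

/-! ### Coefficients -/

def cntL (s : Letter) (l : List Letter) : ℕ := (l.filter fun s' => decide (s' = s)).length

@[fun_prop] theorem p_cntL {α : Type*} [Primcodable α] {f : α → Letter} {g : α → List Letter}
    (hf : Primrec f) (hg : Primrec g) : Primrec fun a => cntL (f a) (g a) := by
  unfold cntL; fun_prop

theorem cntL_eq (s : Letter) (l : List Letter) : cntL s l = (l : Multiset Letter).count s := by
  rw [Multiset.count, Multiset.coe_countP, List.countP_eq_length_filter, cntL]
  congr 1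
  apply List.filter_congr
  intro x _
  exact decide_eq_decide.2 eq_comm

def permB (l l' : List Letter) : Bool := (l ++ l').all fun s => decide (cntL s l = cntL s l')

@[fun_prop] theorem p_permB {α : Type*} [Primcodable α] {f g : α → List Letter}
    (hf : Primrec f) (hg : Primrec g) : Primrec fun a => permB (f a) (g a) := by
  unfold permB; fun_prop

theorem permB_iff (l l' : List Letter) :
    permB l l' = true ↔ (l : Multiset Letter) = (l' : Multiset Letter) := by
  unfold permB
  rw [List.all_eq_true]
  simp only [decide_eq_true_eq, cntL_eq]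
  constructor
  · intro h
    ext s
    by_cases hs : s ∈ l ++ l'
    · exact h s hs
    · rw [List.mem_append, not_or] at hs
      rw [Multiset.count_eq_zero_of_notMem (by simpa using hs.1),
        Multiset.count_eq_zero_of_notMem (by simpa using hs.2)]
  · intro h s _
    rw [h]

def coefB (b : Bool) (L : SL) (t : Tm) : ℕ :=
  (L.filter fun t' => (decide (t'.1 = b) && decide (t'.2.1 = t.1)) && permB t'.2.2 t.2).length

@[fun_prop] theorem p_coefB {α : Type*} [Primcodable α] {b : α → Bool} {f : α → SL} {g : α → Tm}
    (hb : Primrec b) (hf : Primrec f) (hg : Primrec g) :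
    Primrec fun a => coefB (b a) (f a) (g a) := by
  unfold coefB; fun_prop

theorem coef_eq (L : SL) (t : Tm) :
    (sval L) (t.1, (t.2 : Multiset Letter)) = (coefB true L t : ℚ) - (coefB false L t : ℚ) := by
  induction L with
  | nil => simp [coefB]
  | cons t' L ih =>
    rw [sval_cons, Finsupp.add_apply, ih]
    obtain ⟨b, c, l⟩ := t'
    rw [stval_eq]
    have key : ((decide (c = t.1)) && permB l t.2) = true ↔
        (c, (l : Multiset Letter)) = (t.1, (t.2 : Multiset Letter)) := by
      rw [Bool.and_eq_true, permB_iff, Prod.mk.injEq, decide_eq_true_eq]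
    cases b
    · have h1 : coefB true ((false, c, l) :: L) t = coefB true L t := by
        unfold coefB; rw [List.filter_cons_of_neg (by simp)]
      rw [h1]
      by_cases h : (c, (l : Multiset Letter)) = (t.1, (t.2 : Multiset Letter))
      · have h2 : coefB false ((false, c, l) :: L) t = coefB false L t + 1 := by
          unfold coefB
          have := key.2 h
          rw [List.filter_cons_of_pos (by simpa using this), List.length_cons]
        rw [h2]
        simp only [sgn, Bool.false_eq_true, if_false, Finsupp.neg_apply, bas_apply, if_pos h]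
        push_cast
        ring
      · have h2 : coefB false ((false, c, l) :: L) t = coefB false L t := by
          unfold coefB
          have : ¬ ((decide (c = t.1)) && permB l t.2) = true := fun h' => h (key.1 h')
          rw [List.filter_cons_of_neg (by simpa using this)]
        rw [h2]
        simp only [sgn, Bool.false_eq_true, if_false, Finsupp.neg_apply, bas_apply, if_neg h]
        ring
    · have h1 : coefB false ((true, c, l) :: L) t = coefB false L t := by
        unfold coefB; rw [List.filter_cons_of_neg (by simp)]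
      rw [h1]
      by_cases h : (c, (l : Multiset Letter)) = (t.1, (t.2 : Multiset Letter))
      · have h2 : coefB true ((true, c, l) :: L) t = coefB true L t + 1 := by
          unfold coefB
          have := key.2 h
          rw [List.filter_cons_of_pos (by simpa using this), List.length_cons]
        rw [h2]
        simp only [sgn, if_true, bas_apply, if_pos h]
        push_cast
        ring
      · have h2 : coefB true ((true, c, l) :: L) t = coefB true L t := by
          unfold coefB
          have : ¬ ((decide (c = t.1)) && permB l t.2) = true := fun h' => h (key.1 h')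
          rw [List.filter_cons_of_neg (by simpa using this)]
        rw [h2]
        simp only [sgn, if_true, bas_apply, if_neg h]
        ring

def nzB (L : SL) (t : Tm) : Bool := !decide (coefB true L t = coefB false L t)

@[fun_prop] theorem p_nzB {α : Type*} [Primcodable α] {f : α → SL} {g : α → Tm}
    (hf : Primrec f) (hg : Primrec g) :
    Primrec fun a => nzB (f a) (g a) := by
  unfold nzB; fun_prop

theorem nzB_iff (L : SL) (t : Tm) :
    nzB L t = true ↔ (sval L) (t.1, (t.2 : Multiset Letter)) ≠ 0 := by
  rw [coef_eq, nzB]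
  simp [sub_eq_zero]

theorem supp_sval {L : SL} {b : B} (h : (sval L) b ≠ 0) :
    ∃ t ∈ L, b = (t.2.1, (t.2.2 : Multiset Letter)) := by
  induction L with
  | nil => simp at h
  | cons t L ih =>
    rw [sval_cons, Finsupp.add_apply] at h
    by_cases h1 : (sval L) b = 0
    · refine ⟨t, by simp, ?_⟩
      obtain ⟨s, c, l⟩ := t
      rw [h1, add_zero, stval_eq] at h
      by_contra hne
      apply h
      have : (c, (l : Multiset Letter)) ≠ b := fun h' => hne h'.symm
      cases s <;> simp [sgn, bas_apply, this]
    · obtain ⟨t', ht', e⟩ := ih h1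
      exact ⟨t', by simp [ht'], e⟩

/-- Quantification over the support. -/
theorem all_supp (L : SL) (P : B → Prop) :
    (∀ b, (sval L) b ≠ 0 → P b) ↔ ∀ t ∈ L, nzB L t.2 = true → P (t.2.1, (t.2.2 : Multiset Letter)) := by
  constructor
  · intro h t _ h2
    exact h _ ((nzB_iff _ _).1 h2)
  · intro h b hb
    obtain ⟨t, ht, rfl⟩ := supp_sval hb
    exact h t ht ((nzB_iff _ _).2 hb)

def zeroB (L : SL) : Bool := L.all fun t => !(nzB L t.2)

@[fun_prop] theorem p_zeroB {α : Type*} [Primcodable α] {f : α → SL}
    (hf : Primrec f) : Primrec fun a => zeroB (f a) := by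
  unfold zeroB; fun_prop

theorem zeroB_iff (L : SL) : zeroB L = true ↔ sval L = 0 := by
  have h := all_supp L fun _ => False
  unfold zeroB
  rw [List.all_eq_true]
  constructor
  · intro h1
    have : ∀ b, (sval L) b ≠ 0 → False := h.2 fun t ht h2 => by
      have := h1 t ht
      rw [h2] at this
      simp at this
    ext b
    by_contra hb
    exact this b hb
  · intro h1 t ht
    rw [Bool.not_eq_true']
    rw [← Bool.not_eq_true, nzB_iff, h1]
    simp

/-! ### Weights, levels -/

def wLB (A : ℕ × ℕ × ℕ) (tab : List (Letter × ℕ)) (s : Letter) : ℕ :=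
  (cond (decide (s.1 ≤ 1)) A.1 (cond (decide (s.1 ≤ 3)) A.2.1 (cond (decide (s.1 = 4)) A.2.2 0))) +
    (tab.lookup s).getD 0

@[fun_prop] theorem p_wLB {α : Type*} [Primcodable α] {f : α → ℕ × ℕ × ℕ}
    {g : α → List (Letter × ℕ)} {h : α → Letter}
    (hf : Primrec f) (hg : Primrec g) (hh : Primrec h) :
    Primrec fun a => wLB (f a) (g a) (h a) := by
  unfold wLB; fun_prop

theorem wLB_eq (A : ℕ × ℕ × ℕ) (tab : List (Letter × ℕ)) (s : Letter) :
    wLB A tab s = wLc A tab s := by
  unfold wLB wLc
  simp only [Bool.cond_decide]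

def wKB (A : ℕ × ℕ) (c : ℕ) : ℕ := (cond (decide (c < 4)) A.1 0) + c * A.2

@[fun_prop] theorem p_wKB {α : Type*} [Primcodable α] {f : α → ℕ × ℕ} {g : α → ℕ}
    (hf : Primrec f) (hg : Primrec g) :
    Primrec fun a => wKB (f a) (g a) := by
  unfold wKB; fun_prop

theorem wKB_eq (A : ℕ × ℕ) (c : ℕ) : wKB A c = wKc A c := by
  unfold wKB wKc
  simp only [Bool.cond_decide]

/-- The data of the weights. -/
abbrev WD : Type := (ℕ × ℕ × ℕ) × (ℕ × ℕ) × List (Letter × ℕ)

def WD.wL (W : WD) : Letter → ℕ := wLc W.1 W.2.2
def WD.wK (W : WD) : ℕ → ℕ := wKc W.2.1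

def wMB (W : WD) (l : List Letter) : ℕ := l.foldr (fun s r => wLB W.1 W.2.2 s + r) 0

@[fun_prop] theorem p_wMB {α : Type*} [Primcodable α] {f : α → WD} {g : α → List Letter}
    (hf : Primrec f) (hg : Primrec g) :
    Primrec fun a => wMB (f a) (g a) := by
  unfold wMB; fun_prop

theorem wMB_eq (W : WD) (l : List Letter) : wMB W l = wM W.wL l := by
  induction l with
  | nil => simp [wMB]
  | cons s l ih =>
    have : wMB W (s :: l) = wLB W.1 W.2.2 s + wMB W l := rfl
    rw [this, ih, ← Multiset.cons_coe, wM_cons, wLB_eq]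
    rfl

def wtB (W : WD) (t : Tm) : ℕ := wKB W.2.1 t.1 + wMB W t.2

@[fun_prop] theorem p_wtB {α : Type*} [Primcodable α] {f : α → WD} {g : α → Tm}
    (hf : Primrec f) (hg : Primrec g) :
    Primrec fun a => wtB (f a) (g a) := by
  unfold wtB; fun_prop

theorem wtB_eq (W : WD) (t : Tm) : wtB W t = wt W.wL W.wK (t.1, (t.2 : Multiset Letter)) := by
  unfold wtB wt
  rw [wKB_eq, wMB_eq]
  rfl

def atB (m : ℕ) (s : Letter) : Bool :=
  (decide (s.1 = 2) && (decide (s.2.1 < m) && decide (s.2.2 = 0))) ||
    (decide (s.1 = 3) && (decide (s.2.1 < m) && decide (s.2.2 < m)))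
def ayB (m : ℕ) (s : Letter) : Bool :=
  decide (s.1 = 4) && (decide (s.2.1 < m) && decide (s.2.2 < 4))
def axB (m : ℕ) (s : Letter) : Bool :=
  (decide (s.1 = 0) && (decide (s.2.1 < 2 * m) && decide (s.2.2 = 0))) ||
    (decide (s.1 = 1) && (decide (s.2.1 < 2 * m) && decide (s.2.2 < s.2.1)))

def levB (m l : ℕ) (s : Letter) : Bool :=
  cond (decide (l = 0)) (ayB m s || atB m s) (cond (decide (l = 1)) (atB m s)
    (cond (decide (l = 2)) (atB m s || axB m s) (axB m s)))

@[fun_prop] theorem p_levB {α : Type*} [Primcodable α] {f g : α → ℕ} {h : α → Letter}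
    (hf : Primrec f) (hg : Primrec g) (hh : Primrec h) :
    Primrec fun a => levB (f a) (g a) (h a) := by
  unfold levB atB ayB axB; fun_prop

theorem levB_iff (m l : ℕ) (s : Letter) : levB m l s = true ↔ s ∈ levS m l := by
  have h1 : atB m s = true ↔ s ∈ At m := by simp [atB, At]
  have h2 : ayB m s = true ↔ s ∈ Ay m := by simp [ayB, Ay]
  have h3 : axB m s = true ↔ s ∈ Ax m := by simp [axB, Ax]
  unfold levB levS
  split_ifs with e1 e2 e3
  · simp [e1, h1, h2]
  · simp [e2, h1]
  · simp [e3, h1, h3]
  · simp [e1, e2, e3, h3]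

theorem levS_sub_alph {m l : ℕ} {s : Letter} (h : s ∈ levS m l) : s ∈ alph m := by
  unfold levS at h
  split_ifs at h
  · rcases h with h | h
    · exact Ay_sub_alph h
    · exact At_sub_alph h
  · exact At_sub_alph h
  · rcases h with h | h
    · exact At_sub_alph h
    · exact Ax_sub_alph h
  · exact Ax_sub_alph h

@[fun_prop] theorem p_alph {α : Type*} [Primcodable α] {f : α → ℕ} (hf : Primrec f) :
    Primrec fun a => alph (f a) := by
  have h : Primrec fun a => (List.range 5).flatMap fun i => (List.range (2 * f a + 4)).flatMap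
      fun j => (List.range (2 * f a + 4)).map fun k => ((i, j, k) : Letter) := by fun_prop
  refine h.of_eq fun a => ?_
  rfl

end Pool.Agent.Lib.MP_79b5eb_lc.M2
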