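import Pool.Agent.Lib.MP_79b5eb_lc.M2.Nt

/-!
The monomial order used for the existence of finite bases, Dickson's lemma, numerical weights.
-/

set_option autoImplicit false

namespace Pool.Agent.Lib.MP_79b5eb_lc.M2

/-- A finite alphabet containing all the letters used. -/
def alph (m : ℕ) : List Letter :=
  (List.range 5).flatMap fun a => (List.range (2 * m + 4)).flatMap fun b =>
    (List.range (2 * m + 4)).map fun c => (a, b, c)

theorem mem_alph {m : ℕ} {s : Letter} :
    s ∈ alph m ↔ s.1 < 5 ∧ s.2.1 < 2 * m + 4 ∧ s.2.2 < 2 * m + 4 := by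
  obtain ⟨a, b, c⟩ := s
  simp [alph]

theorem At_sub_alph {m : ℕ} {s : Letter} (h : s ∈ At m) : s ∈ alph m := by
  rw [mem_alph]; rcases h with h | h <;> omega
theorem Ay_sub_alph {m : ℕ} {s : Letter} (h : s ∈ Ay m) : s ∈ alph m := by
  rw [mem_alph]; obtain ⟨h1, h2, h3⟩ := h; omega
theorem Ax_sub_alph {m : ℕ} {s : Letter} (h : s ∈ Ax m) : s ∈ alph m := by
  rw [mem_alph]; rcases h with h | h <;> omega

theorem okB_alph {m k : ℕ} {b : B} (h : okB m k b) : ∀ s ∈ b.2, s ∈ alph m := by
  intro s hs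
  rcases h with ⟨_, h⟩ | ⟨_, _, h⟩
  · rcases h s hs with h | h
    · exact Ay_sub_alph h
    · exact At_sub_alph h
  · rcases h s hs with h | h
    · exact At_sub_alph h
    · exact Ax_sub_alph h

/-! ### Dickson's lemma -/

theorem dickson {β : Type*} {n : ℕ} (F : β → Fin n → ℕ) (S : Set β) :
    ∃ T : Set β, T.Finite ∧ T ⊆ S ∧ ∀ b ∈ S, ∃ t ∈ T, F t ≤ F b := by
  classical
  set M : Set (Fin n → ℕ) := {x | Minimal (· ∈ F '' S) x} with hM
  have hanti : IsAntichain (· ≤ ·) M := setOfPred_minimal_antichain _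
  have hfin : M.Finite := hanti.finite_of_partiallyWellOrderedOn
    ((Set.isPWO_of_wellQuasiOrderedLE _ : (M : Set (Fin n → ℕ)).IsPWO))
  have hch : ∀ x : M, ∃ b ∈ S, F b = x.1 := fun x => x.2.1
  choose f hf1 hf2 using hch
  have := hfin.to_subtype
  refine ⟨Set.range f, Set.finite_range f, ?_, ?_⟩
  · rintro _ ⟨x, rfl⟩; exact hf1 x
  · intro b hb
    obtain ⟨x, hx, hxm⟩ := exists_minimal_le_of_wellFoundedLT (· ∈ F '' S) (F b) ⟨b, hb, rfl⟩
    exact ⟨f ⟨x, hxm⟩, ⟨_, rfl⟩, by rw [hf2]; exact hx⟩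

/-! ### The key -/

def cnt (p : Letter → Bool) (μ : Multiset Letter) : ℕ := (μ.filter fun s => p s = true).card

theorem cnt_cons (p : Letter → Bool) (s : Letter) (μ : Multiset Letter) :
    cnt p (s ::ₘ μ) = cnt p μ + if p s then 1 else 0 := by
  unfold cnt
  by_cases h : p s = true
  · rw [Multiset.filter_cons_of_pos (p := fun s => p s = true) _ h]; simp [h]
  · rw [Multiset.filter_cons_of_neg (p := fun s => p s = true) _ h]; simp [h]

def isY (s : Letter) : Bool := s.1 == 4
def isT (s : Letter) : Bool := s.1 == 2 || s.1 == 3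
def isX (s : Letter) : Bool := s.1 == 0 || s.1 == 1

def kf (m : ℕ) (b : B) (i : ℕ) : ℕ :=
  if i = 0 then (if b.1 < 4 then 1 else 0)
  else if i = 1 then cnt isY b.2
  else if i = 2 then cnt isT b.2
  else if i = 3 then cnt isX b.2
  else if i = 4 then b.1
  else ((alph m)[i - 5]?).elim 0 fun a => b.2.count a

def lf (m : ℕ) (s : Letter) (i : ℕ) : ℕ :=
  if i = 0 then 0
  else if i = 1 then (if isY s then 1 else 0)
  else if i = 2 then (if isT s then 1 else 0)
  else if i = 3 then (if isX s then 1 else 0)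
  else if i = 4 then 0
  else ((alph m)[i - 5]?).elim 0 fun a => if a = s then 1 else 0

theorem kf_cons (m c : ℕ) (s : Letter) (μ : Multiset Letter) (i : ℕ) :
    kf m (c, s ::ₘ μ) i = lf m s i + kf m (c, μ) i := by
  unfold kf lf
  split_ifs <;> simp only [cnt_cons] <;> (try simp only [*]) <;> (try simp) <;> (try omega)
  all_goals
    cases (alph m)[i - 5]? with
    | none => simp
    | some a => simp [Multiset.count_cons]; try (split_ifs <;> omega)

abbrev nn (m : ℕ) : ℕ := 5 + (alph m).length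
abbrev KT (m : ℕ) : Type := Lex (Fin (nn m) → ℕ)

def key (m : ℕ) (b : B) : KT m := toLex fun i => kf m b i
def kl (m : ℕ) (s : Letter) : KT m := toLex fun i => lf m s i

theorem key_cons (m c : ℕ) (s : Letter) (μ : Multiset Letter) :
    key m (c, s ::ₘ μ) = kl m s + key m (c, μ) := by
  apply toLex.symm.injective
  funext i
  exact kf_cons m c s μ i

theorem nn_ge (m : ℕ) : 5 ≤ nn m := by unfold nn; omega

theorem lt_of_kf {m : ℕ} {b b' : B} (i : ℕ) (hi : i < 5) (h : ∀ j < i, kf m b j = kf m b' j)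
    (h' : kf m b i < kf m b' i) : key m b < key m b' := by
  refine ⟨⟨i, by have := nn_ge m; omega⟩, fun j hj => ?_, h'⟩
  exact h j hj

theorem key_inj {m k : ℕ} {b b' : B} (hb : okB m k b) (hb' : okB m k b')
    (h : key m b = key m b') : b = b' := by
  have h1 : ∀ i : Fin (nn m), kf m b i = kf m b' i := fun i => congrFun (congrArg ofLex h) i
  have hc : b.1 = b'.1 := by
    have := h1 ⟨4, by have := nn_ge m; omega⟩
    simpa [kf] using this
  refine Prod.ext hc ?_
  ext a
  by_cases ha : a ∈ alph m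
  · obtain ⟨p, hp, hpa⟩ := List.getElem_of_mem ha
    have := h1 ⟨p + 5, by unfold nn; omega⟩
    simp only [kf] at this
    rw [if_neg (by omega), if_neg (by omega), if_neg (by omega), if_neg (by omega),
      if_neg (by omega), if_neg (by omega), if_neg (by omega), if_neg (by omega),
      if_neg (by omega), if_neg (by omega)] at this
    rw [Nat.add_sub_cancel, List.getElem?_eq_getElem hp, hpa] at this
    exact this
  · rw [Multiset.count_eq_zero_of_notMem fun h => ha (okB_alph hb a h),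
      Multiset.count_eq_zero_of_notMem fun h => ha (okB_alph hb' a h)]

theorem key_class {m : ℕ} {b b' : B} (hb : 4 ≤ b.1) (hb' : b'.1 < 4) : key m b < key m b' := by
  refine lt_of_kf 0 (by omega) (fun j hj => by omega) ?_
  simp only [kf, if_true]
  rw [if_neg (by omega), if_pos hb']; exact Nat.zero_lt_one

theorem cnt_isY (b : B) : cnt isY b.2 = ydeg b := by
  unfold cnt ydeg isY
  congr 1
  refine Multiset.filter_congr fun s _ => by simp

theorem key_ydeg {m : ℕ} {b b' : B} (hb : b.1 < 4) (hb' : b'.1 < 4) (h : ydeg b < ydeg b') :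
    key m b < key m b' := by
  refine lt_of_kf 1 (by omega) (fun j hj => ?_) ?_
  · have : j = 0 := by omega
    subst this
    simp [kf, hb, hb']
  · simp only [kf]
    rw [if_neg (by omega), if_pos trivial, if_neg (by omega), if_pos trivial, cnt_isY, cnt_isY]
    exact h

theorem key_tdeg {m : ℕ} {b b' : B} (hb : 4 ≤ b.1) (hb' : 4 ≤ b'.1)
    (hy : cnt isY b.2 = cnt isY b'.2) (h : cnt isT b.2 < cnt isT b'.2) :
    key m b < key m b' := by
  refine lt_of_kf 2 (by omega) (fun j hj => ?_) ?_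
  · have : j = 0 ∨ j = 1 := by omega
    rcases this with rfl | rfl
    · simp only [kf, if_true]
      rw [if_neg (by omega), if_neg (by omega)]
    · simp [kf, hy]
  · simpa [kf] using h

theorem kl_lt (m : ℕ) {s s' : Letter} (hs : s.1 = 0) (hs' : s'.1 = 0) (i j : ℕ) :
    kl m (1, i, j) < kl m s + kl m s' := by
  refine ⟨⟨3, by have := nn_ge m; omega⟩, fun l hl => ?_, ?_⟩
  · change lf m (1, i, j) l = lf m s l + lf m s' l
    have hl' : (l : ℕ) < 3 := hl
    have : (l : ℕ) = 0 ∨ (l : ℕ) = 1 ∨ (l : ℕ) = 2 := by omega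
    rcases this with h | h | h <;> simp [lf, h, hs, hs', isY, isT]
  · change lf m (1, i, j) 3 < lf m s 3 + lf m s' 3
    simp [lf, isX, hs, hs']

/-! ### Numerical weights -/

/-- The value of a vector of digits in base `Q`. -/
def WQ (m Q : ℕ) (f : KT m) : ℕ := ∑ i : Fin (nn m), (ofLex f) i * Q ^ (nn m - 1 - i)

theorem WQ_add (m Q : ℕ) (f g : KT m) : WQ m Q (f + g) = WQ m Q f + WQ m Q g := by
  unfold WQ
  rw [← Finset.sum_add_distrib]
  refine Finset.sum_congr rfl fun i _ => ?_
  rw [← add_mul]; rfl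

theorem digits_bound (Q : ℕ) : ∀ (n : ℕ) (f : Fin n → ℕ), (∀ i, f i < Q) →
    ∑ i : Fin n, f i * Q ^ (n - 1 - i) < Q ^ n := by
  intro n
  induction n with
  | zero => intro f _; simp
  | succ n ih =>
    intro f hf
    rw [Fin.sum_univ_succ]
    have h1 := ih (fun i => f i.succ) fun i => hf _
    have h2 : ∑ i : Fin n, f i.succ * Q ^ (n + 1 - 1 - (i.succ : Fin (n + 1))) =
        ∑ i : Fin n, f i.succ * Q ^ (n - 1 - i) := by
      refine Finset.sum_congr rfl fun i _ => ?_
      congr 2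
      simp only [Fin.val_succ]
      omega
    rw [h2]
    have h3 := hf 0
    have h4 : (f 0 + 1) * Q ^ n ≤ Q * Q ^ n := Nat.mul_le_mul_right _ h3
    simp only [Fin.val_zero, Nat.sub_zero, Nat.add_sub_cancel]
    rw [pow_succ]
    nlinarith

theorem digits_lt (Q : ℕ) : ∀ (n : ℕ) (f g : Fin n → ℕ), (∀ i, f i < Q) →
    (∃ i, (∀ j < i, f j = g j) ∧ f i < g i) →
    ∑ i : Fin n, f i * Q ^ (n - 1 - i) < ∑ i : Fin n, g i * Q ^ (n - 1 - i) := by
  intro n
  induction n with
  | zero => rintro f g _ ⟨i, _⟩; exact i.elim0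
  | succ n ih =>
    rintro f g hf ⟨i, hi, hlt⟩
    have h2 : ∀ f : Fin (n + 1) → ℕ, ∑ i : Fin (n + 1), f i * Q ^ (n + 1 - 1 - i) =
        f 0 * Q ^ n + ∑ i : Fin n, f i.succ * Q ^ (n - 1 - i) := by
      intro f
      rw [Fin.sum_univ_succ]
      congr 1
      refine Finset.sum_congr rfl fun i _ => ?_
      congr 2
      simp only [Fin.val_succ]
      omega
    rw [h2, h2]
    rcases Fin.eq_zero_or_eq_succ i with rfl | ⟨i', rfl⟩
    · have h1 := digits_bound Q n (fun i => f i.succ) fun i => hf _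
      have h4 : (f 0 + 1) * Q ^ n ≤ g 0 * Q ^ n := Nat.mul_le_mul_right _ hlt
      nlinarith [Nat.zero_le (∑ i : Fin n, g i.succ * Q ^ (n - 1 - i))]
    · have h0 : f 0 = g 0 := hi 0 (Fin.succ_pos _)
      rw [h0]
      have := ih (fun i => f i.succ) (fun i => g i.succ) (fun i => hf _)
        ⟨i', fun j hj => hi _ (Fin.succ_lt_succ_iff.2 hj), hlt⟩
      omega

theorem WQ_lt {m Q : ℕ} {f g : KT m} (hf : ∀ i, (ofLex f) i < Q) (h : f < g) :
    WQ m Q f < WQ m Q g := by
  obtain ⟨i, hi, hlt⟩ := h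
  exact digits_lt Q (nn m) (ofLex f) (ofLex g) hf ⟨i, hi, hlt⟩

theorem WQ_eventually (m : ℕ) {f g : KT m} (h : f < g) :
    ∀ᶠ Q in Filter.atTop, WQ m Q f < WQ m Q g := by
  refine Filter.eventually_atTop.2 ⟨(Finset.univ.sup fun i => (ofLex f) i) + 1, fun Q hQ => ?_⟩
  refine WQ_lt (fun i => ?_) h
  have := Finset.le_sup (f := fun i => (ofLex f) i) (Finset.mem_univ i)
  exact lt_of_le_of_lt this (by omega)

end Pool.Agent.Lib.MP_79b5eb_lc.M2
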