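import Pool.Agent.Lib.MP_79b5eb_lc.M2.Lam

/-!
The universal property of the space `V`.
-/

set_option autoImplicit false

namespace Pool.Agent.Lib.MP_79b5eb_lc.M2

section
variable {Q : Type*} [AddCommGroup Q] [Module ℚ Q] (L : ℕ → Q →ₗ[ℚ] Q) (op : Letter → Q →ₗ[ℚ] Q)
  (h1 : ∀ s s' q, s.1 ≠ 0 → s'.1 ≠ 0 → op s (op s' q) = op s' (op s q))
  (h2 : ∀ s i q, s.1 ≠ 0 → op s (L i q) = L i (op s q))
  (h3 : ∀ i j, j < i → ∀ q, L i (L j q) = L j (L i q) + op (1, i, j) q)
  (u : ℕ → Q)

def xs (μ : Multiset Letter) : List ℕ :=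
  ((μ.filter fun s : Letter => s.1 = 0).map fun s => s.2.1).sort (· ≤ ·)

/-- non-`x` letters act -/
def act (s : Letter) (q : Q) : Q := if s.1 = 0 then q else op s q

include h1 in
theorem act_comm : LeftCommutative (act op) := ⟨by
  intro s s' q
  unfold act
  by_cases h : s.1 = 0 <;> by_cases h' : s'.1 = 0
  · simp [h, h']
  · simp [h, h']
  · simp [h, h']
  · simp only [h, h', if_false]; exact h1 s s' q h h'⟩

/-- values on the basis -/
noncomputable def phiB [LeftCommutative (act op)] (b : B) : Q :=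
  (xs b.2).foldr (fun i q => L i q) (b.2.foldr (act op) (u b.1))

noncomputable def phi [LeftCommutative (act op)] : V →ₗ[ℚ] Q :=
  Finsupp.linearCombination ℚ (phiB L op u)

variable [LeftCommutative (act op)]

@[simp] theorem phi_bas (c : ℕ) (μ : Multiset Letter) :
    phi L op u (bas c μ) = phiB L op u (c, μ) := by
  simp [phi, bas]

theorem phiB_zero (c : ℕ) : phiB L op u (c, 0) = u c := by
  simp [phiB, xs]

include h2 in
theorem phiB_cons_of_ne (c : ℕ) (μ : Multiset Letter) {s : Letter} (hs : s.1 ≠ 0) :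
    phiB L op u (c, s ::ₘ μ) = op s (phiB L op u (c, μ)) := by
  have e : xs (s ::ₘ μ) = xs μ := by
    unfold xs
    rw [Multiset.filter_cons_of_neg (p := fun s : Letter => s.1 = 0) _ hs]
  unfold phiB
  simp only [e, Multiset.foldr_cons]
  have : act op s (Multiset.foldr (act op) (u c) μ) =
      op s (Multiset.foldr (act op) (u c) μ) := by simp [act, hs]
  rw [this]
  generalize Multiset.foldr (act op) (u c) μ = q
  induction xs μ with
  | nil => rfl
  | cons i l ih => simp only [List.foldr_cons]; rw [ih, h2 _ _ _ hs]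

theorem phiB_cons_min (c : ℕ) (μ : Multiset Letter) {s : Letter} (hs : s.1 = 0)
    (hmin : ∀ t ∈ μ, t.1 = 0 → s.2.1 ≤ t.2.1) :
    phiB L op u (c, s ::ₘ μ) = L s.2.1 (phiB L op u (c, μ)) := by
  have e : xs (s ::ₘ μ) = s.2.1 :: xs μ := by
    unfold xs
    rw [Multiset.filter_cons_of_pos (p := fun s : Letter => s.1 = 0) _ hs, Multiset.map_cons,
      Multiset.sort_cons]
    intro b hb
    obtain ⟨t, ht, rfl⟩ := Multiset.mem_map.1 hb
    rw [Multiset.mem_filter] at ht
    exact hmin t ht.1 ht.2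
  unfold phiB
  simp only [e, Multiset.foldr_cons, List.foldr_cons]
  have : act op s (Multiset.foldr (act op) (u c) μ) =
      (Multiset.foldr (act op) (u c) μ) := by simp [act, hs]
  rw [this]

/-- Elements all of whose `x`-letters have index at least `a`. -/
def Vmin (a : ℕ) : Submodule ℚ V where
  carrier := {v | ∀ b, v b ≠ 0 → ∀ t ∈ b.2, t.1 = 0 → a ≤ t.2.1}
  zero_mem' := by intro b h; simp at h
  add_mem' := by
    intro x y hx hy b h
    rw [Finsupp.add_apply] at h
    by_cases h1 : x b = 0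
    · exact hy b (by rw [h1, zero_add] at h; exact h)
    · exact hx b h1
  smul_mem' := by
    intro a x hx b h
    rw [Finsupp.smul_apply] at h
    exact hx b (by intro h0; rw [h0] at h; simp at h)

theorem bas_mem_Vmin {a c : ℕ} {μ : Multiset Letter} (h : ∀ t ∈ μ, t.1 = 0 → a ≤ t.2.1) :
    bas c μ ∈ Vmin a := by
  intro b hb
  rw [bas_apply] at hb
  by_cases h' : (c, μ) = b
  · rw [← h']; exact h
  · simp [h'] at hb

theorem opS_bas_Vmin {a i c : ℕ} (hai : a ≤ i) {μ : Multiset Letter}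
    (h : ∀ t ∈ μ, t.1 = 0 → a ≤ t.2.1) : opS (0, i, 0) (bas c μ) ∈ Vmin a := by
  rw [opS_of_eq rfl, mulS_bas, der_bas, derB]
  refine Submodule.add_mem _ (bas_mem_Vmin ?_) ?_
  · intro t ht h0
    rcases Multiset.mem_cons.1 ht with rfl | h'
    · exact hai
    · exact h t h' h0
  · refine multiset_sum_mem _ fun v hv => ?_
    obtain ⟨s', hs', rfl⟩ := Multiset.mem_map.1 hv
    apply bas_mem_Vmin
    intro t ht h0
    rcases Multiset.mem_cons.1 ht with rfl | h'
    · simp at h0
    · exact h t (Multiset.mem_of_mem_erase h') h0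

theorem phi_mulS_min {s : Letter} (hs : s.1 = 0) {v : V} (hv : v ∈ Vmin s.2.1) :
    phi L op u (mulS s v) = L s.2.1 (phi L op u v) := by
  rw [V_decomp v, map_finsuppSum, map_finsuppSum, map_finsuppSum, map_finsuppSum]
  refine Finset.sum_congr rfl fun b hb => ?_
  change phi L op u (mulS s (v b • bas b.1 b.2)) = L s.2.1 (phi L op u (v b • bas b.1 b.2))
  rw [map_smul, map_smul, map_smul, map_smul, mulS_bas, phi_bas, phi_bas,
    phiB_cons_min L op u _ _ hs (hv b (Finsupp.mem_support_iff.1 hb))]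

include h2 in
theorem phi_mulS {s : Letter} (hs : s.1 ≠ 0) (v : V) :
    phi L op u (mulS s v) = op s (phi L op u v) := by
  have : (phi L op u) ∘ₗ (mulS s) = (op s) ∘ₗ (phi L op u) := by
    apply V_ext; intro c μ
    simp only [LinearMap.comp_apply, mulS_bas, phi_bas]
    exact phiB_cons_of_ne L op h2 u c μ hs
  exact LinearMap.congr_fun this v

include h2 h3 in
theorem phi_opS_bas (n : ℕ) : ∀ (c : ℕ) (μ : Multiset Letter),
    (μ.filter fun s : Letter => s.1 = 0).card = n → ∀ i : ℕ,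
    phi L op u (opS (0, i, 0) (bas c μ)) = L i (phi L op u (bas c μ)) := by
  have hmin : ∀ (i c : ℕ) (μ : Multiset Letter), (∀ t ∈ μ, t.1 = 0 → i ≤ t.2.1) →
      phi L op u (opS (0, i, 0) (bas c μ)) = L i (phi L op u (bas c μ)) := by
    intro i c μ h
    have h0 : derB i (c, μ) = 0 := by
      unfold derB
      rw [Multiset.filter_eq_nil.2]
      · simp
      · intro t ht h'
        have := h t ht h'.1
        omega
    rw [opS_of_eq rfl, der_bas, h0, add_zero]
    exact phi_mulS_min L op u (s := (0, i, 0)) rfl (bas_mem_Vmin h)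
  induction n with
  | zero =>
    intro c μ h i
    apply hmin
    intro t ht h0
    have : t ∈ μ.filter fun s : Letter => s.1 = 0 := Multiset.mem_filter.2 ⟨ht, h0⟩
    rw [Multiset.card_eq_zero.1 h] at this
    simp at this
  | succ n ih =>
    intro c μ h i
    -- minimal x-letter
    obtain ⟨s, hs, hsmin⟩ : ∃ s ∈ μ.filter (fun s : Letter => s.1 = 0),
        ∀ t ∈ μ.filter (fun s : Letter => s.1 = 0), s.2.1 ≤ t.2.1 := by
      have hne : ((μ.filter fun s : Letter => s.1 = 0).toFinset).Nonempty := by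
        obtain ⟨a, ha⟩ := Multiset.card_pos_iff_exists_mem.1 (by rw [h]; omega :
          0 < (μ.filter fun s : Letter => s.1 = 0).card)
        exact ⟨a, Multiset.mem_toFinset.2 ha⟩
      obtain ⟨s, hs, hmin⟩ := Finset.exists_min_image _ (fun t : Letter => t.2.1) hne
      exact ⟨s, Multiset.mem_toFinset.1 hs, fun t ht => hmin t (Multiset.mem_toFinset.2 ht)⟩
    rw [Multiset.mem_filter] at hs
    by_cases hi : i ≤ s.2.1
    · apply hmin
      intro t ht h0
      exact hi.trans (hsmin t (Multiset.mem_filter.2 ⟨ht, h0⟩))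
    · push Not at hi
      obtain ⟨μ', rfl⟩ := Multiset.exists_cons_of_mem hs.1
      have hs0 := hs.2
      have hμ' : ∀ t ∈ μ', t.1 = 0 → s.2.1 ≤ t.2.1 := fun t ht h0 =>
        hsmin t (Multiset.mem_filter.2 ⟨Multiset.mem_cons_of_mem ht, h0⟩)
      have hcard : (μ'.filter fun s : Letter => s.1 = 0).card = n := by
        rw [Multiset.filter_cons_of_pos (p := fun s : Letter => s.1 = 0) _ hs0,
          Multiset.card_cons] at h
        omega
      have e1 : opS (0, i, 0) (mulS s (bas c μ')) =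
          mulS s (opS (0, i, 0) (bas c μ')) + mulS (1, i, s.2.1) (bas c μ') := by
        rw [opS_of_eq rfl, opS_of_eq rfl, der_mulS, mulS_comm, map_add]
        simp only [eps, hs0, true_and]
        rw [if_pos hi, add_assoc]
      rw [← mulS_bas, e1, map_add, phi_mulS_min L op u hs0 (opS_bas_Vmin hi.le hμ'),
        phi_mulS L op h2 u (by simp), ih c μ' hcard i, phi_mulS_min L op u hs0
          (bas_mem_Vmin hμ'), ← h3 i s.2.1 hi]

end

/-- The universal property. -/
theorem exists_phi {Q : Type*} [AddCommGroup Q] [Module ℚ Q] (L : ℕ → Q →ₗ[ℚ] Q)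
    (op : Letter → Q →ₗ[ℚ] Q)
    (h1 : ∀ s s' q, s.1 ≠ 0 → s'.1 ≠ 0 → op s (op s' q) = op s' (op s q))
    (h2 : ∀ s i q, s.1 ≠ 0 → op s (L i q) = L i (op s q))
    (h3 : ∀ i j, j < i → ∀ q, L i (L j q) = L j (L i q) + op (1, i, j) q)
    (u : ℕ → Q) :
    ∃ φ : V →ₗ[ℚ] Q, (∀ c, φ (bas c 0) = u c) ∧
      (∀ s, s.1 ≠ 0 → ∀ v, φ (mulS s v) = op s (φ v)) ∧
      (∀ i v, φ (opS (0, i, 0) v) = L i (φ v)) := by
  have := act_comm op h1
  refine ⟨phi L op u, fun c => ?_, fun s hs v => phi_mulS L op h2 u hs v, fun i v => ?_⟩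
  · rw [phi_bas, phiB_zero]
  · have : (phi L op u) ∘ₗ (opS (0, i, 0)) = (L i) ∘ₗ (phi L op u) := by
      apply V_ext; intro c μ
      exact phi_opS_bas L op h2 h3 u _ c μ rfl i
    exact LinearMap.congr_fun this v

end Pool.Agent.Lib.MP_79b5eb_lc.M2
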