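import Pool.Agent.Lib.MP_79b5eb_lc.M2.Alg
import Pool.Agent.Lib.MP_79b5eb_lc.M2.Phi

/-!
The ideals `I`, `J`, `C I` and the map `Psi` describing the elements of the trace ring.
-/

set_option autoImplicit false

namespace Pool.Agent.Lib.MP_79b5eb_lc.M2

/-! ### Elements supported on a set of monomials -/

def SupP (p : B → Prop) : Submodule ℚ V where
  carrier := {v | ∀ b, v b ≠ 0 → p b}
  zero_mem' := by intro b h; simp at h
  add_mem' := by
    intro x y hx hy b h
    rw [Finsupp.add_apply] at h
    by_cases h1 : x b = 0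
    · exact hy b (by rw [h1, zero_add] at h; exact h)
    · exact hx b h1
  smul_mem' := by
    intro a x hx b h
    rw [Finsupp.smul_apply] at h
    exact hx b (by intro h0; rw [h0] at h; simp at h)

theorem mem_SupP {p : B → Prop} {v : V} : v ∈ SupP p ↔ ∀ b, v b ≠ 0 → p b := Iff.rfl

theorem bas_mem_SupP {p : B → Prop} {c : ℕ} {μ : Multiset Letter} (h : p (c, μ)) :
    bas c μ ∈ SupP p := by
  intro b hb
  rw [bas_apply] at hb
  by_cases h' : (c, μ) = b
  · rw [← h']; exact h
  · simp [h'] at hb

/-- To check a property of the values of a linear map, it is enough to look at the basis. -/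
theorem map_mem_of_SupP {M : Type*} [AddCommGroup M] [Module ℚ M] {p : B → Prop}
    {W : Submodule ℚ M} {f : V →ₗ[ℚ] M} (h : ∀ c μ, p (c, μ) → f (bas c μ) ∈ W) {v : V}
    (hv : v ∈ SupP p) : f v ∈ W := by
  rw [V_decomp v, map_finsuppSum]
  refine Submodule.sum_mem _ fun b hb => ?_
  change f (v b • bas b.1 b.2) ∈ _
  rw [map_smul]
  exact Submodule.smul_mem _ _ (h _ _ (hv b (Finsupp.mem_support_iff.1 hb)))

theorem map_SupP {p q : B → Prop} {f : V →ₗ[ℚ] V} (h : ∀ c μ, p (c, μ) → f (bas c μ) ∈ SupP q)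
    {v : V} (hv : v ∈ SupP p) : f v ∈ SupP q := map_mem_of_SupP h hv

theorem map_eq_of_SupP {M : Type*} [AddCommGroup M] [Module ℚ M] {p : B → Prop}
    {f g : V →ₗ[ℚ] M} (h : ∀ c μ, p (c, μ) → f (bas c μ) = g (bas c μ)) {v : V}
    (hv : v ∈ SupP p) : f v = g v := by
  have := map_mem_of_SupP (W := ⊥) (f := f - g) (fun c μ hp => by
    rw [Submodule.mem_bot, LinearMap.sub_apply, h c μ hp, sub_self]) hv
  rwa [Submodule.mem_bot, LinearMap.sub_apply, sub_eq_zero] at this

theorem Vge_eq : Vge = SupP fun b => 4 ≤ b.1 := rfl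

/-! ### Ideals -/

section
variable {m : ℕ} {us : ℕ → MM}

/-- The ideal. -/
noncomputable def II (m : ℕ) (us : ℕ → MM) : Submodule ℚ MM := Idl m (Set.range us)

theorem us_mem_II (j : ℕ) : us j ∈ II m us :=
  Submodule.subset_span ⟨us j, ⟨j, rfl⟩, [], [], by simp, by simp, by simp [gval]⟩

theorem RR_mul_II {r z : MM} (hr : r ∈ RR m) (hz : z ∈ II m us) : r * z ∈ II m us := by
  induction hr using Submodule.span_induction with
  | mem x hx =>
    obtain ⟨w, hw, rfl⟩ := hx
    unfold II Idl at hz
    induction hz using Submodule.span_induction with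
    | mem y hy =>
      obtain ⟨u, hu, w1, w2, h1, h2, rfl⟩ := hy
      refine Submodule.subset_span ⟨u, hu, w ++ w1, w2, ?_, h2, ?_⟩
      · intro i hi
        rcases List.mem_append.1 hi with h | h
        · exact hw i h
        · exact h1 i h
      · rw [gval_append]; simp only [Matrix.mul_assoc]
    | zero => rw [mul_zero]; exact Submodule.zero_mem _
    | add x y _ _ hx hy => rw [mul_add]; exact Submodule.add_mem _ hx hy
    | smul a x _ hx => rw [mul_smul_comm]; exact Submodule.smul_mem _ _ hx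
  | zero => rw [zero_mul]; exact Submodule.zero_mem _
  | add x y _ _ hx hy => rw [add_mul]; exact Submodule.add_mem _ hx hy
  | smul a x _ hx => rw [smul_mul_assoc]; exact Submodule.smul_mem _ _ hx

theorem II_mul_RR {r z : MM} (hr : r ∈ RR m) (hz : z ∈ II m us) : z * r ∈ II m us := by
  induction hr using Submodule.span_induction with
  | mem x hx =>
    obtain ⟨w, hw, rfl⟩ := hx
    unfold II Idl at hz
    induction hz using Submodule.span_induction with
    | mem y hy =>
      obtain ⟨u, hu, w1, w2, h1, h2, rfl⟩ := hy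
      refine Submodule.subset_span ⟨u, hu, w1, w2 ++ w, h1, ?_, ?_⟩
      · intro i hi
        rcases List.mem_append.1 hi with h | h
        · exact h2 i h
        · exact hw i h
      · rw [gval_append]; simp only [Matrix.mul_assoc]
    | zero => rw [zero_mul]; exact Submodule.zero_mem _
    | add x y _ _ hx hy => rw [add_mul]; exact Submodule.add_mem _ hx hy
    | smul a x _ hx => rw [smul_mul_assoc]; exact Submodule.smul_mem _ _ hx
  | zero => rw [mul_zero]; exact Submodule.zero_mem _
  | add x y _ _ hx hy => rw [mul_add]; exact Submodule.add_mem _ hx hy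
  | smul a x _ hx => rw [mul_smul_comm]; exact Submodule.smul_mem _ _ hx

theorem gval_mem_RR {w : List ℕ} (hw : ∀ i ∈ w, i < m) : gval w ∈ RR m :=
  Submodule.subset_span ⟨w, hw, rfl⟩

theorem II_le_RR (hus : ∀ j, us j ∈ RR m) : II m us ≤ RR m := by
  apply Submodule.span_le.2
  rintro z ⟨u, ⟨j, rfl⟩, w1, w2, h1, h2, rfl⟩
  exact mul_mem_RR (mul_mem_RR (gval_mem_RR h1) (hus j)) (gval_mem_RR h2)

theorem DD_le_RR : DD m ≤ RR m := by
  apply Submodule.span_le.2
  rintro z ⟨x, hx, y, hy, k, hk, rfl⟩
  refine mul_mem_RR (mul_mem_RR hx ?_) hy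
  rcases hk with ⟨a, ha, b, hb, c, hc, rfl⟩ | ⟨a, ha, b, hb, c, hc, d, hd, rfl⟩
  · exact cm_mem_RR (cm_mem_RR ha hb) hc
  · exact mul_mem_RR (cm_mem_RR ha hb) (cm_mem_RR hc hd)

/-- `J = D I + I D`. -/
noncomputable def JJ (m : ℕ) (us : ℕ → MM) : Submodule ℚ MM :=
  Submodule.span ℚ {x | ∃ d ∈ DD m, ∃ z ∈ II m us, x = d * z ∨ x = z * d}

theorem JJ_le_II : JJ m us ≤ II m us := by
  apply Submodule.span_le.2
  rintro x ⟨d, hd, z, hz, rfl | rfl⟩
  · exact RR_mul_II (DD_le_RR hd) hz
  · exact II_mul_RR (DD_le_RR hd) hz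

theorem RR_mul_JJ {r x : MM} (hr : r ∈ RR m) (hx : x ∈ JJ m us) : r * x ∈ JJ m us := by
  induction hx using Submodule.span_induction with
  | mem y hy =>
    obtain ⟨d, hd, z, hz, rfl | rfl⟩ := hy
    · exact Submodule.subset_span ⟨r * d, RR_mul_DD hr hd, z, hz, Or.inl (by
        rw [Matrix.mul_assoc])⟩
    · exact Submodule.subset_span ⟨d, hd, r * z, RR_mul_II hr hz, Or.inr (by
        rw [Matrix.mul_assoc])⟩
  | zero => rw [mul_zero]; exact Submodule.zero_mem _
  | add x y _ _ hx hy => rw [mul_add]; exact Submodule.add_mem _ hx hy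
  | smul a x _ hx => rw [mul_smul_comm]; exact Submodule.smul_mem _ _ hx

theorem JJ_mul_RR {r x : MM} (hr : r ∈ RR m) (hx : x ∈ JJ m us) : x * r ∈ JJ m us := by
  induction hx using Submodule.span_induction with
  | mem y hy =>
    obtain ⟨d, hd, z, hz, rfl | rfl⟩ := hy
    · exact Submodule.subset_span ⟨d, hd, z * r, II_mul_RR hr hz, Or.inl (by
        rw [Matrix.mul_assoc])⟩
    · exact Submodule.subset_span ⟨d * r, DD_mul_RR hr hd, z, hz, Or.inr (by
        rw [Matrix.mul_assoc])⟩
  | zero => rw [zero_mul]; exact Submodule.zero_mem _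
  | add x y _ _ hx hy => rw [add_mul]; exact Submodule.add_mem _ hx hy
  | smul a x _ hx => rw [smul_mul_assoc]; exact Submodule.smul_mem _ _ hx

theorem CC_smul_JJ {c : Om} (hc : c ∈ CC m) {x : MM} (hx : x ∈ JJ m us) :
    c • x ∈ JJ m us := by
  induction hx using Submodule.span_induction with
  | mem y hy =>
    obtain ⟨d, hd, z, hz, rfl | rfl⟩ := hy
    · exact Submodule.subset_span ⟨c • d, CC_smul_DD hc hd, z, hz, Or.inl (by
        rw [smul_mul_assoc])⟩
    · exact Submodule.subset_span ⟨c • d, CC_smul_DD hc hd, z, hz, Or.inr (by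
        rw [mul_smul_comm])⟩
  | zero => rw [smul_zero]; exact Submodule.zero_mem _
  | add x y _ _ hx hy => rw [smul_add]; exact Submodule.add_mem _ hx hy
  | smul a x _ hx => rw [smul_comm]; exact Submodule.smul_mem _ _ hx

/-- `C I`. -/
noncomputable def CI (m : ℕ) (us : ℕ → MM) : Submodule (CC m) MM :=
  Submodule.span (CC m) (II m us : Set MM)

theorem II_le_CI {z : MM} (hz : z ∈ II m us) : z ∈ CI m us := Submodule.subset_span hz

theorem CI_fg (hus : ∀ j, us j ∈ RR m) : (CI m us).FG := by
  have h1 : CI m us ≤ WW m m := by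
    apply Submodule.span_le.2
    intro z hz
    exact RR_sub_WW m (II_le_RR hus hz)
  have : IsNoetherian (CC m) (WW m m) := isNoetherian_of_fg_of_noetherian _ (WW_fg m m)
  have := (isNoetherian_submodule.1 this) (CI m us) h1
  exact this

theorem RR_mul_CI {r z : MM} (hr : r ∈ RR m) (hz : z ∈ CI m us) : r * z ∈ CI m us := by
  induction hz using Submodule.span_induction with
  | mem y hy => exact II_le_CI (RR_mul_II hr hy)
  | zero => rw [mul_zero]; exact Submodule.zero_mem _
  | add x y _ _ hx hy => rw [mul_add]; exact Submodule.add_mem _ hx hy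
  | smul a x _ hx => rw [mul_smul_comm]; exact Submodule.smul_mem _ _ hx

theorem CI_mul_RR {r z : MM} (hr : r ∈ RR m) (hz : z ∈ CI m us) : z * r ∈ CI m us := by
  induction hz using Submodule.span_induction with
  | mem y hy => exact II_le_CI (II_mul_RR hr hy)
  | zero => rw [zero_mul]; exact Submodule.zero_mem _
  | add x y _ _ hx hy => rw [add_mul]; exact Submodule.add_mem _ hx hy
  | smul a x _ hx => rw [smul_mul_assoc]; exact Submodule.smul_mem _ _ hx

theorem DD_mul_CI {d z : MM} (hd : d ∈ DD m) (hz : z ∈ CI m us) : d * z ∈ JJ m us := by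
  induction hz using Submodule.span_induction with
  | mem y hy => exact Submodule.subset_span ⟨d, hd, y, hy, Or.inl rfl⟩
  | zero => rw [mul_zero]; exact Submodule.zero_mem _
  | add x y _ _ hx hy => rw [mul_add]; exact Submodule.add_mem _ hx hy
  | smul a x _ hx =>
    rw [mul_smul_comm]
    exact CC_smul_JJ a.2 hx

theorem CI_mul_DD {d z : MM} (hd : d ∈ DD m) (hz : z ∈ CI m us) : z * d ∈ JJ m us := by
  induction hz using Submodule.span_induction with
  | mem y hy => exact Submodule.subset_span ⟨d, hd, y, hy, Or.inr rfl⟩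
  | zero => rw [zero_mul]; exact Submodule.zero_mem _
  | add x y _ _ hx hy => rw [add_mul]; exact Submodule.add_mem _ hx hy
  | smul a x _ hx =>
    rw [smul_mul_assoc]
    exact CC_smul_JJ a.2 hx

/-! ### Operators on the quotient -/

noncomputable def lmul (i : ℕ) : MM →ₗ[ℚ] MM :=
  if i % 2 = 0 then LinearMap.mulLeft ℚ (gX (i / 2)) else LinearMap.mulRight ℚ (gX (i / 2))

theorem lmul_JJ {i : ℕ} (hi : i < 2 * m) : JJ m us ≤ (JJ m us).comap (lmul i) := by
  intro x hx
  rw [Submodule.mem_comap]
  unfold lmul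
  have : i / 2 < m := by omega
  split_ifs
  · exact RR_mul_JJ (gX_mem_RR this) hx
  · exact JJ_mul_RR (gX_mem_RR this) hx

theorem lmul_II {i : ℕ} (hi : i < 2 * m) {z : MM} (hz : z ∈ II m us) : lmul i z ∈ II m us := by
  unfold lmul
  have : i / 2 < m := by omega
  split_ifs
  · exact RR_mul_II (gX_mem_RR this) hz
  · exact II_mul_RR (gX_mem_RR this) hz

theorem lmul_CI {i : ℕ} (hi : i < 2 * m) {z : MM} (hz : z ∈ CI m us) : lmul i z ∈ CI m us := by
  unfold lmul
  have : i / 2 < m := by omega
  split_ifs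
  · exact RR_mul_CI (gX_mem_RR this) hz
  · exact CI_mul_RR (gX_mem_RR this) hz

theorem lmul_smul (i : ℕ) (c : Om) (z : MM) : lmul i (c • z) = c • lmul i z := by
  unfold lmul
  split_ifs
  · simp only [LinearMap.mulLeft_apply, mul_smul_comm]
  · simp only [LinearMap.mulRight_apply, smul_mul_assoc]

/-- The relations between the multiplications modulo `J`. -/
theorem lmul_rel {i j k : ℕ} (hi : i < 2 * m) (hj : j < 2 * m) (hk : k < 2 * m) {z : MM}
    (hz : z ∈ CI m us) :
    lmul k (lmul i (lmul j z) - lmul j (lmul i z)) -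
      (lmul i (lmul j (lmul k z)) - lmul j (lmul i (lmul k z))) ∈ JJ m us := by
  have hi' : i / 2 < m := by omega
  have hj' : j / 2 < m := by omega
  have hk' : k / 2 < m := by omega
  have Ri := gX_mem_RR hi'
  have Rj := gX_mem_RR hj'
  have Rk := gX_mem_RR hk'
  unfold lmul
  split_ifs with h1 h2 h3
  · -- k, i, j left
    have := DD_mul_CI (ccc_mem_DD Ri Rj Rk) hz
    have := Submodule.neg_mem _ this
    convert this using 1
    simp only [LinearMap.mulLeft_apply, cm]
    noncomm_ring
  all_goals simp only [LinearMap.mulLeft_apply, LinearMap.mulRight_apply]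
  · convert Submodule.zero_mem _ using 1
    noncomm_ring
  · convert Submodule.zero_mem _ using 1
    noncomm_ring
  · -- k left, i, j right
    convert Submodule.zero_mem _ using 1
    noncomm_ring
  · convert Submodule.zero_mem _ using 1
    noncomm_ring
  · convert Submodule.zero_mem _ using 1
    noncomm_ring
  · convert Submodule.zero_mem _ using 1
    noncomm_ring
  · have := CI_mul_DD (ccc_mem_DD Rj Ri Rk) hz
    convert this using 1
    simp only [cm]
    noncomm_ring

theorem lmul_rel2 {i j k l : ℕ} (hi : i < 2 * m) (hj : j < 2 * m) (hk : k < 2 * m)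
    (hl : l < 2 * m) {z : MM} (hz : z ∈ CI m us) :
    (lmul i (lmul j (lmul k (lmul l z) - lmul l (lmul k z))) -
      lmul j (lmul i (lmul k (lmul l z) - lmul l (lmul k z)))) -
    (lmul k (lmul l (lmul i (lmul j z) - lmul j (lmul i z))) -
      lmul l (lmul k (lmul i (lmul j z) - lmul j (lmul i z)))) ∈ JJ m us := by
  have h1 := lmul_rel (us := us) hk hl hi (lmul_CI hj hz)
  have h2 := lmul_rel (us := us) hk hl hj (lmul_CI hi hz)
  have h3 := lmul_JJ (us := us) hi (lmul_rel (us := us) hk hl hj hz)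
  have h4 := lmul_JJ (us := us) hj (lmul_rel (us := us) hk hl hi hz)
  simp only [Submodule.mem_comap, map_sub] at h1 h2 h3 h4 ⊢
  have := Submodule.add_mem _ (Submodule.sub_mem _ (Submodule.add_mem _ h1 h3) h2)
    (Submodule.neg_mem _ h4)
  convert this using 1
  abel

end

end Pool.Agent.Lib.MP_79b5eb_lc.M2
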