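import Pool.Agent.Lib.MP_79b5eb_lc.M2.Psi

/-!
The operators on the quotient modulo `J` and the map `Psi`.
-/

set_option autoImplicit false

namespace Pool.Agent.Lib.MP_79b5eb_lc.M2

section
variable (m : ℕ) (us : ℕ → MM)

abbrev QQ : Type := MM ⧸ JJ m us

noncomputable def LQ (i : ℕ) : QQ m us →ₗ[ℚ] QQ m us :=
  if h : i < 2 * m then (JJ m us).mapQ (JJ m us) (lmul i) (lmul_JJ h) else 0

open Classical in
noncomputable def SQ (c : Om) : QQ m us →ₗ[ℚ] QQ m us :=
  if h : c ∈ CC m then (JJ m us).mapQ (JJ m us) (LinearMap.lsmul Om MM c |>.restrictScalars ℚ)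
    (fun _ hx => CC_smul_JJ h hx) else 0

variable {m us}

theorem LQ_mk {i : ℕ} (h : i < 2 * m) (z : MM) :
    LQ m us i ((JJ m us).mkQ z) = (JJ m us).mkQ (lmul i z) := by
  simp [LQ, h]

theorem SQ_mk {c : Om} (h : c ∈ CC m) (z : MM) :
    SQ m us c ((JJ m us).mkQ z) = (JJ m us).mkQ (c • z) := by
  simp [SQ, h]

theorem SQ_LQ (c : Om) (i : ℕ) (q : QQ m us) :
    SQ m us c (LQ m us i q) = LQ m us i (SQ m us c q) := by
  obtain ⟨z, rfl⟩ := (JJ m us).mkQ_surjective q
  by_cases h : i < 2 * m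
  · by_cases hc : c ∈ CC m
    · rw [LQ_mk h, SQ_mk hc, SQ_mk hc, LQ_mk h, lmul_smul]
    · simp [SQ, hc]
  · simp [LQ, h]

theorem SQ_SQ (c d : Om) (q : QQ m us) :
    SQ m us c (SQ m us d q) = SQ m us d (SQ m us c q) := by
  obtain ⟨z, rfl⟩ := (JJ m us).mkQ_surjective q
  by_cases h : d ∈ CC m
  · by_cases hc : c ∈ CC m
    · rw [SQ_mk h, SQ_mk hc, SQ_mk hc, SQ_mk h, smul_comm]
    · simp [SQ, hc]
  · simp [SQ, h]

variable (m us) in
/-- commutators -/
noncomputable def KQ (i j : ℕ) : QQ m us →ₗ[ℚ] QQ m us :=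
  (LQ m us i) ∘ₗ (LQ m us j) - (LQ m us j) ∘ₗ (LQ m us i)

theorem KQ_apply (i j : ℕ) (q : QQ m us) :
    KQ m us i j q = LQ m us i (LQ m us j q) - LQ m us j (LQ m us i q) := rfl

theorem KQ_of_le (i j : ℕ) (h : ¬ (i < 2 * m ∧ j < 2 * m)) : KQ m us i j = 0 := by
  ext q
  rw [not_and_or] at h
  rcases h with h | h
  · simp [KQ, LQ, h]
  · simp [KQ, LQ, h]

theorem SQ_KQ (c : Om) (i j : ℕ) (q : QQ m us) :
    SQ m us c (KQ m us i j q) = KQ m us i j (SQ m us c q) := by
  rw [KQ_apply, KQ_apply, map_sub, SQ_LQ, SQ_LQ, SQ_LQ, SQ_LQ]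

variable (m us) in
noncomputable def Q1 : Submodule ℚ (QQ m us) :=
  ((CI m us).restrictScalars ℚ).map (JJ m us).mkQ

theorem mem_Q1 {q : QQ m us} : q ∈ Q1 m us ↔ ∃ z ∈ CI m us, (JJ m us).mkQ z = q := Iff.rfl

theorem LQ_Q1 (i : ℕ) {q : QQ m us} (hq : q ∈ Q1 m us) : LQ m us i q ∈ Q1 m us := by
  obtain ⟨z, hz, rfl⟩ := mem_Q1.1 hq
  by_cases h : i < 2 * m
  · rw [LQ_mk h]
    exact mem_Q1.2 ⟨_, lmul_CI h hz, rfl⟩
  · simp [LQ, h]

theorem SQ_Q1 (c : Om) {q : QQ m us} (hq : q ∈ Q1 m us) : SQ m us c q ∈ Q1 m us := by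
  obtain ⟨z, hz, rfl⟩ := mem_Q1.1 hq
  by_cases hc : c ∈ CC m
  · rw [SQ_mk hc]
    exact mem_Q1.2 ⟨_, CC_smul_mem _ hc hz, rfl⟩
  · simp [SQ, hc]

theorem KQ_Q1 (i j : ℕ) {q : QQ m us} (hq : q ∈ Q1 m us) : KQ m us i j q ∈ Q1 m us :=
  Submodule.sub_mem _ (LQ_Q1 _ (LQ_Q1 _ hq)) (LQ_Q1 _ (LQ_Q1 _ hq))

theorem KQ_LQ (i j k : ℕ) {q : QQ m us} (hq : q ∈ Q1 m us) :
    KQ m us i j (LQ m us k q) = LQ m us k (KQ m us i j q) := by
  by_cases h : i < 2 * m ∧ j < 2 * m
  · by_cases hk : k < 2 * m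
    · obtain ⟨z, hz, rfl⟩ := mem_Q1.1 hq
      rw [KQ_apply, KQ_apply]
      simp only [LQ_mk h.1, LQ_mk h.2, LQ_mk hk, ← map_sub]
      have := lmul_rel (us := us) h.1 h.2 hk hz
      symm
      rw [← sub_eq_zero, ← map_sub]
      exact (Submodule.Quotient.mk_eq_zero _).2 this
    · simp [LQ, hk]
  · rw [KQ_of_le _ _ h]; simp

theorem KQ_KQ (i j k l : ℕ) {q : QQ m us} (hq : q ∈ Q1 m us) :
    KQ m us i j (KQ m us k l q) = KQ m us k l (KQ m us i j q) := by
  rw [KQ_apply k l q, KQ_apply k l, map_sub, KQ_LQ _ _ _ (LQ_Q1 _ hq), KQ_LQ _ _ _ (LQ_Q1 _ hq),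
    KQ_LQ _ _ _ hq, KQ_LQ _ _ _ hq]

variable (m) in
/-- Values of the letters. -/
noncomputable def val (s : Letter) : Om :=
  if s.1 = 2 then (if s.2.1 < m then (gX s.2.1).trace else 0)
  else if s.1 = 3 then (if s.2.1 < m ∧ s.2.2 < m then (gX s.2.1 * gX s.2.2).trace else 0)
  else if s.1 = 4 then MvPolynomial.X s else 0

theorem val_mem {s : Letter} (h : s.1 = 2 ∨ s.1 = 3) : val m s ∈ CC m := by
  unfold val
  rcases h with h | h
  · rw [if_pos h]
    split_ifs with h1
    · exact tr1_mem h1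
    · exact Subalgebra.zero_mem _
  · rw [if_neg (by omega), if_pos h]
    split_ifs with h1
    · exact tr2_mem h1.1 h1.2
    · exact Subalgebra.zero_mem _

variable (m us) in
noncomputable def opQ (s : Letter) : QQ m us →ₗ[ℚ] QQ m us :=
  if s.1 = 1 then KQ m us s.2.1 s.2.2 else if s.1 = 2 ∨ s.1 = 3 then SQ m us (val m s) else 0

theorem opQ_Q1 (s : Letter) {q : QQ m us} (hq : q ∈ Q1 m us) : opQ m us s q ∈ Q1 m us := by
  unfold opQ
  split_ifs
  · exact KQ_Q1 _ _ hq
  · exact SQ_Q1 _ hq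
  · exact Submodule.zero_mem _

theorem opQ_LQ (s : Letter) (k : ℕ) {q : QQ m us} (hq : q ∈ Q1 m us) :
    opQ m us s (LQ m us k q) = LQ m us k (opQ m us s q) := by
  unfold opQ
  split_ifs
  · exact KQ_LQ _ _ _ hq
  · exact SQ_LQ _ _ _
  · simp

theorem opQ_comm (s s' : Letter) {q : QQ m us} (hq : q ∈ Q1 m us) :
    opQ m us s (opQ m us s' q) = opQ m us s' (opQ m us s q) := by
  unfold opQ
  split_ifs
  · exact KQ_KQ _ _ _ _ hq
  · exact (SQ_KQ _ _ _ _).symm
  · simp
  · exact SQ_KQ _ _ _ _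
  · exact SQ_SQ _ _ _
  · simp
  · simp
  · simp
  · simp

variable (m us) in
theorem exists_phi' : ∃ φ : V →ₗ[ℚ] QQ m us, (∀ v, φ v ∈ Q1 m us) ∧
    (∀ j, φ (bas (4 + j) 0) = (JJ m us).mkQ (us j)) ∧
    (∀ s, s.1 ≠ 0 → ∀ v, φ (mulS s v) = opQ m us s (φ v)) ∧
    (∀ i v, φ (opS (0, i, 0) v) = LQ m us i (φ v)) := by
  obtain ⟨φ, h1, h2, h3⟩ := exists_phi (Q := Q1 m us)
    (fun i => (LQ m us i).restrict fun _ h => LQ_Q1 i h)
    (fun s => (opQ m us s).restrict fun _ h => opQ_Q1 s h)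
    (fun s s' q _ _ => Subtype.ext (opQ_comm s s' q.2))
    (fun s i q _ => Subtype.ext (opQ_LQ s i q.2))
    (fun i j _ q => Subtype.ext (by
      simp only [LinearMap.restrict_apply, Submodule.coe_add]
      rw [opQ, if_pos rfl, KQ_apply]
      abel))
    (fun c => ⟨(JJ m us).mkQ (us (c - 4)), mem_Q1.2 ⟨_, II_le_CI (us_mem_II _), rfl⟩⟩)
  refine ⟨(Q1 m us).subtype ∘ₗ φ, fun v => (φ v).2, fun j => ?_, fun s hs v => ?_, fun i v => ?_⟩
  · simp only [LinearMap.comp_apply, h1, Submodule.subtype_apply]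
    rw [Nat.add_sub_cancel_left]
  · simp only [LinearMap.comp_apply, h2 s hs, Submodule.subtype_apply]
    rfl
  · simp only [LinearMap.comp_apply, h3, Submodule.subtype_apply]
    rfl

variable (m us) in
noncomputable def phiQ : V →ₗ[ℚ] QQ m us := (exists_phi' m us).choose

theorem phiQ_Q1 (v : V) : phiQ m us v ∈ Q1 m us := (exists_phi' m us).choose_spec.1 v
theorem phiQ_e (j : ℕ) : phiQ m us (bas (4 + j) 0) = (JJ m us).mkQ (us j) :=
  (exists_phi' m us).choose_spec.2.1 j
theorem phiQ_mulS {s : Letter} (hs : s.1 ≠ 0) (v : V) :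
    phiQ m us (mulS s v) = opQ m us s (phiQ m us v) :=
  (exists_phi' m us).choose_spec.2.2.1 s hs v
theorem phiQ_opS (i : ℕ) (v : V) : phiQ m us (opS (0, i, 0) v) = LQ m us i (phiQ m us v) :=
  (exists_phi' m us).choose_spec.2.2.2 i v

/-! ### Evaluation -/

/-- matrix units -/
noncomputable def EE (c : ℕ) : MM := Matrix.of fun a b => if 2 * a.val + b.val = c then 1 else 0

variable (m) in
noncomputable def evB (b : B) : MM := if b.1 < 4 then (b.2.map (val m)).prod • EE b.1 else 0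

variable (m) in
noncomputable def ev : V →ₗ[ℚ] MM := Finsupp.linearCombination ℚ (evB m)

@[simp] theorem ev_bas (c : ℕ) (μ : Multiset Letter) : ev m (bas c μ) = evB m (c, μ) := by
  simp [ev, bas]

theorem ev_mulS (s : Letter) (v : V) : ev m (mulS s v) = val m s • ev m v := by
  have : (ev m) ∘ₗ (mulS s) =
      (LinearMap.lsmul Om MM (val m s) |>.restrictScalars ℚ) ∘ₗ (ev m) := by
    apply V_ext; intro c μ
    simp only [LinearMap.comp_apply, mulS_bas, ev_bas, evB, LinearMap.restrictScalars_apply,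
      LinearMap.lsmul_apply]
    split_ifs
    · rw [Multiset.map_cons, Multiset.prod_cons, mul_smul]
    · rw [smul_zero]
  exact LinearMap.congr_fun this v

theorem ev_of_Vge {v : V} (hv : v ∈ Vge) : ev m v = 0 := by
  have := map_eq_of_SupP (p := fun b => 4 ≤ b.1) (f := ev m) (g := 0) (fun c μ hc => by
    rw [ev_bas, evB, if_neg (by simpa using hc)]; rfl) hv
  simpa using this

theorem gX_mul_EE (i c : ℕ) (hc : c < 4) :
    gX i * EE c = (MvPolynomial.X (4, i, c / 2) : Om) • EE (c % 2) +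
      (MvPolynomial.X (4, i, 2 + c / 2) : Om) • EE (2 + c % 2) := by
  interval_cases c <;> ext a b <;> fin_cases a <;> fin_cases b <;>
    simp [gX, EE, Matrix.mul_apply, Fin.sum_univ_two]

theorem EE_mul_gX (i c : ℕ) (hc : c < 4) :
    EE c * gX i = (MvPolynomial.X (4, i, 2 * (c % 2)) : Om) • EE (2 * (c / 2)) +
      (MvPolynomial.X (4, i, 2 * (c % 2) + 1) : Om) • EE (2 * (c / 2) + 1) := by
  interval_cases c <;> ext a b <;> fin_cases a <;> fin_cases b <;>
    simp [gX, EE, Matrix.mul_apply, Fin.sum_univ_two]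

theorem val_four (i e : ℕ) : val m (4, i, e) = MvPolynomial.X (4, i, e) := by simp [val]

theorem ev_lam (i : ℕ) {v : V} (hv : v ∈ SupP fun b => b.1 < 4) :
    ev m (lam i v) = lmul i (ev m v) := by
  refine map_eq_of_SupP (f := (ev m) ∘ₗ (lam i)) (g := (lmul i) ∘ₗ (ev m)) (fun c μ hc => ?_) hv
  simp only at hc
  have h1 : c % 2 < 4 := by omega
  have h2 : 2 + c % 2 < 4 := by omega
  have h3 : 2 * (c / 2) < 4 := by omega
  have h4 : 2 * (c / 2) + 1 < 4 := by omega
  simp only [LinearMap.comp_apply, lam_bas, lamB, hc, if_true, lmul]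
  split_ifs with h
  · simp only [map_add, ev_bas, evB, h1, h2, hc, if_true, Multiset.map_cons, Multiset.prod_cons,
      val_four, LinearMap.mulLeft_apply, mul_smul_comm, gX_mul_EE _ _ hc, smul_add, smul_smul]
    congr 2 <;> rw [mul_comm]
  · simp only [map_add, ev_bas, evB, h3, h4, hc, if_true, Multiset.map_cons, Multiset.prod_cons,
      val_four, LinearMap.mulRight_apply, smul_mul_assoc, EE_mul_gX _ _ hc, smul_add, smul_smul]
    congr 2 <;> rw [mul_comm]

/-- projection to the components `≥ 4` -/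
noncomputable def pr : V →ₗ[ℚ] V :=
  Finsupp.linearCombination ℚ fun b => if b.1 < 4 then 0 else bas b.1 b.2

@[simp] theorem pr_bas (c : ℕ) (μ : Multiset Letter) :
    pr (bas c μ) = if c < 4 then 0 else bas c μ := by
  simp [pr, bas]

theorem pr_of_Vge {v : V} (hv : v ∈ Vge) : pr v = v := by
  have := map_eq_of_SupP (p := fun b => 4 ≤ b.1) (f := pr) (g := LinearMap.id) (fun c μ hc => by
    rw [pr_bas, if_neg (by simpa using hc)]; rfl) hv
  simpa using this

theorem pr_of_lt {v : V} (hv : v ∈ SupP fun b => b.1 < 4) : pr v = 0 := by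
  have := map_eq_of_SupP (f := pr) (g := 0) (fun c μ hc => by
    rw [pr_bas, if_pos (by simpa using hc)]; rfl) hv
  simpa using this

variable (m us) in
noncomputable def Psi : V →ₗ[ℚ] QQ m us := (JJ m us).mkQ ∘ₗ (ev m) + (phiQ m us) ∘ₗ pr

theorem Psi_of_Vge {v : V} (hv : v ∈ Vge) : Psi m us v = phiQ m us v := by
  simp [Psi, ev_of_Vge hv, pr_of_Vge hv]

theorem Psi_of_lt {v : V} (hv : v ∈ SupP fun b => b.1 < 4) :
    Psi m us v = (JJ m us).mkQ (ev m v) := by
  simp [Psi, pr_of_lt hv]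

theorem lam_lt (i : ℕ) {v : V} (hv : v ∈ SupP fun b => b.1 < 4) :
    lam i v ∈ SupP fun b => b.1 < 4 := by
  refine map_SupP (fun c μ hc => ?_) hv
  simp only at hc
  rw [lam_bas, lamB, if_pos hc]
  split_ifs
  · exact Submodule.add_mem _ (bas_mem_SupP (by simp only; omega))
      (bas_mem_SupP (by simp only; omega))
  · exact Submodule.add_mem _ (bas_mem_SupP (by simp only; omega))
      (bas_mem_SupP (by simp only; omega))

theorem Psi_lam {i : ℕ} (hi : i < 2 * m) (v : V) :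
    Psi m us (lam i v) = LQ m us i (Psi m us v) := by
  have : (Psi m us) ∘ₗ (lam i) = (LQ m us i) ∘ₗ (Psi m us) := by
    apply V_ext; intro c μ
    simp only [LinearMap.comp_apply]
    by_cases hc : c < 4
    · have h1 : bas c μ ∈ SupP fun b => b.1 < 4 := bas_mem_SupP hc
      rw [Psi_of_lt (lam_lt i h1), Psi_of_lt h1, ev_lam i h1, LQ_mk hi]
    · have h1 : bas c μ ∈ Vge := bas_mem_Vge (by omega)
      rw [lam_of_Vge _ h1, Psi_of_Vge (opS_Vge _ h1), Psi_of_Vge h1, phiQ_opS]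
  exact LinearMap.congr_fun this v

theorem mulS_lt (s : Letter) {v : V} (hv : v ∈ SupP fun b => b.1 < 4) :
    mulS s v ∈ SupP fun b => b.1 < 4 := by
  refine map_SupP (fun c μ hc => ?_) hv
  rw [mulS_bas]
  exact bas_mem_SupP hc

theorem mulS_Vge (s : Letter) {v : V} (hv : v ∈ Vge) : mulS s v ∈ Vge := by
  refine Vge_map (fun c μ hc => ?_) hv
  rw [mulS_bas]
  exact bas_mem_Vge hc

theorem Psi_mulS {s : Letter} (hs : s.1 = 2 ∨ s.1 = 3) (v : V) :
    Psi m us (mulS s v) = SQ m us (val m s) (Psi m us v) := by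
  have : (Psi m us) ∘ₗ (mulS s) = (SQ m us (val m s)) ∘ₗ (Psi m us) := by
    apply V_ext; intro c μ
    simp only [LinearMap.comp_apply]
    by_cases hc : c < 4
    · have h1 : bas c μ ∈ SupP fun b => b.1 < 4 := bas_mem_SupP hc
      rw [Psi_of_lt (mulS_lt s h1), Psi_of_lt h1, ev_mulS, SQ_mk (val_mem hs)]
    · have h1 : bas c μ ∈ Vge := bas_mem_Vge (by omega)
      rw [Psi_of_Vge (mulS_Vge _ h1), Psi_of_Vge h1, phiQ_mulS (by omega), opQ,
        if_neg (by omega), if_pos hs]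
  exact LinearMap.congr_fun this v

/-- `phiQ` of an element without trace letters lies in the image of the ideal. -/
theorem phiQ_II (n : ℕ) : ∀ (j : ℕ) (μ : Multiset Letter),
    (μ.filter fun s : Letter => s.1 = 0).card ≤ n → (∀ s ∈ μ, s.1 = 0 ∨ s.1 = 1) →
    (∀ s ∈ μ, s.1 = 0 → s.2.2 = 0) →
    phiQ m us (bas (4 + j) μ) ∈ (II m us).map (JJ m us).mkQ := by
  have hL : ∀ i, ∀ q ∈ (II m us).map (JJ m us).mkQ, LQ m us i q ∈ (II m us).map (JJ m us).mkQ := by
    intro i q hq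
    obtain ⟨z, hz, rfl⟩ := Submodule.mem_map.1 hq
    by_cases h : i < 2 * m
    · rw [LQ_mk h]
      exact Submodule.mem_map_of_mem (lmul_II h hz)
    · simp [LQ, h]
  have hK : ∀ i j, ∀ q ∈ (II m us).map (JJ m us).mkQ,
      KQ m us i j q ∈ (II m us).map (JJ m us).mkQ := fun i j q hq =>
    Submodule.sub_mem _ (hL _ _ (hL _ _ hq)) (hL _ _ (hL _ _ hq))
  -- step: non-x letters
  have hstep : ∀ (j : ℕ) (n : ℕ), (∀ μ : Multiset Letter,
      (μ.filter fun s : Letter => s.1 = 0).card = n → (∀ s ∈ μ, s.1 = 0) →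
      (∀ s ∈ μ, s.1 = 0 → s.2.2 = 0) →
      phiQ m us (bas (4 + j) μ) ∈ (II m us).map (JJ m us).mkQ) →
      ∀ μ : Multiset Letter, (μ.filter fun s : Letter => s.1 = 0).card = n →
      (∀ s ∈ μ, s.1 = 0 ∨ s.1 = 1) → (∀ s ∈ μ, s.1 = 0 → s.2.2 = 0) →
      phiQ m us (bas (4 + j) μ) ∈ (II m us).map (JJ m us).mkQ := by
    intro j n H μ
    induction h : (μ.filter fun s : Letter => s.1 ≠ 0).card generalizing μ with
    | zero =>
      intro h1 h2 h3
      refine H μ h1 (fun s hs => ?_) h3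
      by_contra h0
      have : s ∈ μ.filter fun s : Letter => s.1 ≠ 0 := Multiset.mem_filter.2 ⟨hs, h0⟩
      rw [Multiset.card_eq_zero.1 h] at this
      simp at this
    | succ k ih =>
      intro h1 h2 h3
      obtain ⟨s, hs⟩ := Multiset.card_pos_iff_exists_mem.1 (by rw [h]; omega :
          0 < (μ.filter fun s : Letter => s.1 ≠ 0).card)
      rw [Multiset.mem_filter] at hs
      obtain ⟨μ', rfl⟩ := Multiset.exists_cons_of_mem hs.1
      have hs0 := hs.2
      rw [← mulS_bas, phiQ_mulS hs0, opQ, if_pos ((h2 s (by simp)).resolve_left hs0)]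
      apply hK
      apply ih
      · rw [Multiset.filter_cons_of_pos (p := fun s : Letter => s.1 ≠ 0) _ hs0,
          Multiset.card_cons] at h
        omega
      · rw [Multiset.filter_cons_of_neg (p := fun s : Letter => s.1 = 0) _ hs0] at h1
        exact h1
      · exact fun t ht => h2 t (by simp [ht])
      · exact fun t ht => h3 t (by simp [ht])
  induction n with
  | zero =>
    intro j μ h1 h2 h3
    refine hstep j 0 (fun μ h1 h2 h3 => ?_) μ (by omega) h2 h3
    have : μ = 0 := by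
      rw [Multiset.card_eq_zero] at h1
      rw [Multiset.filter_eq_nil] at h1
      by_contra hne
      obtain ⟨s, hs⟩ := Multiset.exists_mem_of_ne_zero hne
      exact h1 s hs (h2 s hs)
    rw [this, phiQ_e]
    exact Submodule.mem_map_of_mem (us_mem_II _)
  | succ n ih =>
    intro j μ h1 h2 h3
    by_cases hle : (μ.filter fun s : Letter => s.1 = 0).card ≤ n
    · exact ih j μ hle h2 h3
    refine hstep j (n + 1) (fun μ h1 h2 h3 => ?_) μ (by omega) h2 h3
    obtain ⟨s, hs⟩ := Multiset.card_pos_iff_exists_mem.1 (by rw [h1]; omega :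
        0 < (μ.filter fun s : Letter => s.1 = 0).card)
    rw [Multiset.mem_filter] at hs
    obtain ⟨μ', rfl⟩ := Multiset.exists_cons_of_mem hs.1
    have hs0 := hs.2
    have hs2 := h3 s (by simp) hs0
    have es : s = (0, s.2.1, 0) := by
      ext
      · exact hs0
      · rfl
      · exact hs2
    have hc : (μ'.filter fun s : Letter => s.1 = 0).card = n := by
      rw [Multiset.filter_cons_of_pos (p := fun s : Letter => s.1 = 0) _ hs0,
          Multiset.card_cons] at h1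
      omega
    have h2' : ∀ t ∈ μ', t.1 = 0 ∨ t.1 = 1 := fun t ht => Or.inl (h2 t (by simp [ht]))
    have h3' : ∀ t ∈ μ', t.1 = 0 → t.2.2 = 0 := fun t ht => h3 t (by simp [ht])
    have e : bas (4 + j) (s ::ₘ μ') = opS (0, s.2.1, 0) (bas (4 + j) μ') -
        der s.2.1 (bas (4 + j) μ') := by
      rw [opS_of_eq rfl, mulS_bas, ← es]; simp
    rw [e, map_sub, phiQ_opS]
    refine Submodule.sub_mem _ (hL _ _ (ih j μ' (by omega) h2' h3')) ?_
    rw [der_bas, derB, map_multiset_sum]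
    refine multiset_sum_mem _ fun q hq => ?_
    rw [Multiset.map_map] at hq
    obtain ⟨t, ht, rfl⟩ := Multiset.mem_map.1 hq
    rw [Multiset.mem_filter] at ht
    refine ih j _ ?_ ?_ ?_
    · rw [Multiset.filter_cons_of_neg (p := fun s : Letter => s.1 = 0) _ (by simp)]
      exact (Multiset.card_le_card (Multiset.filter_le_filter _ (Multiset.erase_le _ _))).trans
        (le_of_eq hc)
    · intro t' ht'
      rcases Multiset.mem_cons.1 ht' with rfl | h
      · exact Or.inr rfl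
      · exact h2' t' (Multiset.mem_of_mem_erase h)
    · intro t' ht' h0
      rcases Multiset.mem_cons.1 ht' with rfl | h
      · simp at h0
      · exact h3' t' (Multiset.mem_of_mem_erase h) h0

/-! ### `ev` is a left inverse of `emb` -/

theorem emb_lt (z : MM) : emb z ∈ SupP fun b => b.1 < 4 := by
  have h : ∀ c < 4, ∀ p : Om, embc c p ∈ SupP fun b => b.1 < 4 := by
    intro c hc p
    have : p ∈ (⊤ : Submodule ℚ Om) := trivial
    rw [← (MvPolynomial.basisMonomials Letter ℚ).span_eq] at this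
    induction this using Submodule.span_induction with
    | mem x hx =>
      obtain ⟨α, rfl⟩ := hx
      rw [MvPolynomial.coe_basisMonomials, embc_monomial]
      exact bas_mem_SupP hc
    | zero => simp
    | add x y _ _ hx hy => rw [map_add]; exact Submodule.add_mem _ hx hy
    | smul a x _ hx => rw [map_smul]; exact Submodule.smul_mem _ _ hx
  exact Submodule.add_mem _ (Submodule.add_mem _ (Submodule.add_mem _ (h 0 (by norm_num) _)
    (h 1 (by norm_num) _)) (h 2 (by norm_num) _)) (h 3 (by norm_num) _)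

theorem embc_one (c : ℕ) : embc c (1 : Om) = bas c 0 := by
  have : (1 : Om) = MvPolynomial.monomial 0 1 := rfl
  rw [this, embc_monomial]
  simp

theorem emb_one : emb (1 : MM) = bas 0 0 + bas 3 0 := by
  simp [emb, embc_one]

theorem ev_emb_gval (w : List ℕ) : ev m (emb (gval w)) = gval w := by
  induction w with
  | nil =>
    simp only [gval, List.map_nil, List.prod_nil, emb_one, map_add, ev_bas, evB]
    ext a b
    fin_cases a <;> fin_cases b <;> simp [EE]
  | cons i w ih =>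
    have : gval (i :: w) = gX i * gval w := by simp [gval]
    rw [this, emb_left, ev_lam _ (emb_lt _), ih]
    simp [lmul]

theorem ev_emb {z : MM} (hz : z ∈ RR m) : ev m (emb z) = z := by
  induction hz using Submodule.span_induction with
  | mem x hx =>
    obtain ⟨w, hw, rfl⟩ := hx
    exact ev_emb_gval w
  | zero => simp
  | add x y _ _ hx hy => rw [map_add, map_add, hx, hy]
  | smul a x _ hx => rw [map_smul, map_smul, hx]

end

end Pool.Agent.Lib.MP_79b5eb_lc.M2
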