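import Pool.Agent.Lib.MP_79b5eb_lc.M2.Ops

/-!
Membership in rational spans of coded elements is an existential statement; the certificates.
-/

set_option autoImplicit false

namespace Pool.Agent.Lib.MP_79b5eb_lc.M2

section span
variable {τ : Type*} (cd : τ → SL)

/-- Signed sums of codes. -/
def cmb (l : List (Bool × τ)) : SL := l.flatMap fun t => sgnL t.1 (cd t.2)

theorem cmb_append (l l' : List (Bool × τ)) :
    sval (cmb cd (l ++ l')) = sval (cmb cd l) + sval (cmb cd l') := by
  simp [cmb, List.flatMap_append]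

theorem cmb_cons (t : Bool × τ) (l : List (Bool × τ)) :
    sval (cmb cd (t :: l)) = sgn t.1 (sval (cd t.2)) + sval (cmb cd l) := by
  simp [cmb, List.flatMap_cons]

theorem cmb_rep (n : ℕ) (l : List (Bool × τ)) :
    sval (cmb cd (List.replicate n l).flatten) = (n : ℚ) • sval (cmb cd l) := by
  induction n with
  | zero => simp [cmb]
  | succ n ih =>
    rw [List.replicate_succ, List.flatten_cons, cmb_append, ih]
    push_cast
    rw [add_smul, one_smul, add_comm]

theorem cmb_neg (l : List (Bool × τ)) :
    sval (cmb cd (l.map fun t => (!t.1, t.2))) = - sval (cmb cd l) := by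
  induction l with
  | nil => simp [cmb]
  | cons t l ih =>
    rw [List.map_cons, cmb_cons, cmb_cons, ih]
    obtain ⟨b, t⟩ := t
    cases b <;> simp [sgn, add_comm]

theorem mem_span_codes (ok : τ → Prop) (v : V) :
    v ∈ Submodule.span ℚ {z | ∃ t, ok t ∧ z = sval (cd t)} ↔
    ∃ (n : ℕ) (l : List (Bool × τ)), 0 < n ∧ (∀ t ∈ l, ok t.2) ∧
      (n : ℚ) • v = sval (cmb cd l) := by
  constructor
  · intro h
    induction h using Submodule.span_induction with
    | mem x hx =>
      obtain ⟨t, ht, rfl⟩ := hx
      refine ⟨1, [(true, t)], Nat.one_pos, by simpa using ht, ?_⟩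
      rw [cmb_cons]
      simp [sgn, cmb]
    | zero => exact ⟨1, [], Nat.one_pos, by simp, by simp [cmb]⟩
    | add x y _ _ hx hy =>
      obtain ⟨n, l, hn, hl, e⟩ := hx
      obtain ⟨n', l', hn', hl', e'⟩ := hy
      refine ⟨n * n', (List.replicate n' l).flatten ++ (List.replicate n l').flatten,
        Nat.mul_pos hn hn', ?_, ?_⟩
      · intro t ht
        simp only [List.mem_append, List.mem_flatten, List.mem_replicate] at ht
        rcases ht with ⟨_, ⟨_, rfl⟩, h⟩ | ⟨_, ⟨_, rfl⟩, h⟩
        · exact hl t h
        · exact hl' t h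
      · rw [cmb_append, cmb_rep, cmb_rep, ← e, ← e', smul_add, smul_smul, smul_smul]
        push_cast
        rw [mul_comm (n' : ℚ) n]
    | smul a x _ hx =>
      obtain ⟨n, l, hn, hl, e⟩ := hx
      have key : ∀ s : Bool, ∀ t ∈ (List.replicate a.num.natAbs
          (if s then l else l.map fun t => (!t.1, t.2))).flatten, ok t.2 := by
        intro s t ht
        simp only [List.mem_flatten, List.mem_replicate] at ht
        obtain ⟨_, ⟨_, rfl⟩, h⟩ := ht
        cases s
        · simp only [Bool.false_eq_true, if_false, List.mem_map] at h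
          obtain ⟨t', ht', rfl⟩ := h
          exact hl t' ht'
        · exact hl t (by simpa using h)
      refine ⟨n * a.den, _, Nat.mul_pos hn a.den_pos, key (decide (0 ≤ a.num)), ?_⟩
      rw [cmb_rep]
      have h1 : ((n * a.den : ℕ) : ℚ) • a • x = (a.num : ℚ) • (n : ℚ) • x := by
        rw [smul_smul, smul_smul]
        congr 1
        push_cast
        rw [mul_assoc, Rat.den_mul_eq_num, mul_comm]
      rw [h1, e]
      by_cases h : 0 ≤ a.num
      · simp only [h, decide_true, if_true]
        congr 1
        rw [Nat.cast_natAbs, abs_of_nonneg h]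
      · simp only [h, decide_false, Bool.false_eq_true, if_false, cmb_neg, smul_neg]
        rw [← neg_smul]
        congr 1
        rw [Nat.cast_natAbs, abs_of_nonpos (by omega)]
        push_cast
        rw [neg_neg]
  · rintro ⟨n, l, hn, hl, e⟩
    have h1 : sval (cmb cd l) ∈ Submodule.span ℚ {z | ∃ t, ok t ∧ z = sval (cd t)} := by
      clear e
      induction l with
      | nil => simp [cmb]
      | cons t l ih =>
        rw [cmb_cons]
        refine Submodule.add_mem _ ?_ (ih fun t ht => hl t (by simp [ht]))
        have h2 : sval (cd t.2) ∈ Submodule.span ℚ {z | ∃ t, ok t ∧ z = sval (cd t)} :=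
          Submodule.subset_span ⟨t.2, hl t (by simp), rfl⟩
        unfold sgn
        split_ifs
        · exact h2
        · exact Submodule.neg_mem _ h2
    rw [← e] at h1
    have h2 := Submodule.smul_mem _ ((n : ℚ)⁻¹) h1
    have hn' : (n : ℚ) ≠ 0 := by positivity
    rwa [smul_smul, inv_mul_cancel₀ hn', one_smul] at h2

end span

section s1
variable {α τ : Type*} [Primcodable α] [Primcodable τ]

@[fun_prop] theorem p_cmb {cd : α → τ → SL} {l : α → List (Bool × τ)}
    (hcd : Primrec fun x : α × τ => cd x.1 x.2) (hl : Primrec l) :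
    Primrec fun a => cmb (cd a) (l a) := by
  have h : Primrec fun x : α × (Bool × τ) => cd x.1 x.2.2 :=
    hcd.comp (g := fun x : α × (Bool × τ) => (x.1, x.2.2)) (by fun_prop)
  unfold cmb; fun_prop

theorem S1_span {ok : α × τ → Bool} {cd : α × τ → SL} {vc : α → SL} (hok : Primrec ok)
    (hcd : Primrec cd) (hvc : Primrec vc) :
    S1 fun a => sval (vc a) ∈ Submodule.span ℚ {z | ∃ t, ok (a, t) = true ∧ z = sval (cd (a, t))} := by
  have hcd' : Primrec fun x : α × τ => cd (x.1, x.2) := by fun_prop
  refine S1.of_eq (S1.exists (p := fun a (x : ℕ × List (Bool × τ)) => (decide (0 < x.1) &&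
    (x.2.all (fun t => ok (a, t.2)) &&
    zeroB (repL x.1 (vc a) ++ negL (cmb (fun t => cd (a, t)) x.2)))) = true)
    (S1.of_bool (f := fun y => (decide (0 < y.2.1) &&
    (y.2.2.all (fun t => ok (y.1, t.2)) &&
    zeroB (repL y.2.1 (vc y.1) ++ negL (cmb (fun t => cd (y.1, t)) y.2.2)))))
      (by fun_prop) fun _ => Iff.rfl)) fun a => ?_
  rw [mem_span_codes (fun t => cd (a, t)) (fun t => ok (a, t) = true)]
  simp only [Bool.and_eq_true, decide_eq_true_eq, List.all_eq_true, zeroB_iff, sval_append,
    sval_negL, sval_repL, ← sub_eq_add_neg, sub_eq_zero, Prod.exists]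

end s1

end Pool.Agent.Lib.MP_79b5eb_lc.M2
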